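import Pool.Agent.H343X.Defs

/-!
Task C1: p-adic size of the partial fraction coefficients with an extra factor `E` in the numerator.
-/

open Polynomial Pool.Agent.H337R2

namespace Pool.Agent.H343X

noncomputable section

theorem C1_gen {b h c n p : ℕ} [Fact p.Prime] (ds : List ℕ) (hch : 2 * c < h) (hn : 1 ≤ n)
    (hp2 : h * n < p ^ 2) (hc : ∀ d ∈ ds, c < d) (h2 : ∀ d ∈ ds, 2 * d < h) (E : ℚ[X]) {k : ℕ}
    (hk : k ∈ ss h c n) (A : ℚ) (hA : 0 ≤ A) (hE : PB p (p : ℚ) A (TS (-(k : ℚ)) E)) (i : ℕ) :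
    padicNorm p (pa (ss h c n) (mu h n ds) (PP b h c n ds * E) k i) ≤
      (p : ℚ) ^ (-(ee p b h c n ds k) - i : ℤ) * A := by
  have hp0 : (0 : ℚ) ≤ p := p_pos'.le
  have hpne : (p : ℚ) ≠ 0 := p_pos'.ne'
  have hinv : (0 : ℚ) ≤ (p : ℚ)⁻¹ := inv_nonneg.2 hp0
  have hcst : 0 ≤ padicNorm p (cst b h c n ds) := padicNorm.nonneg _
  have key : padicNorm p (pa (ss h c n) (mu h n ds) (PP b h c n ds * E) k i) ≤
      (padicNorm p (cst b h c n ds) * ((p : ℚ)⁻¹) ^ (b * n1 p h c n k + i) * (p : ℚ) ^ (nq p h n ds k)) * A := by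
    unfold pa
    split_ifs with hi
    · have hPP := PB_PP (p := p) b h c n ds (by omega) (Nat.mul_pos (by omega) (by omega)) k
      have hPE := PB.mul hp0 (by positivity) hA hPP hE
      rw [← map_mul] at hPE
      have h1 := pfc_bound (p := p) (ss h c n) (mu h n ds) (PP b h c n ds * E) k (p : ℚ) _
        (fun m => if (p : ℤ) ∣ (m : ℤ) - k then (p : ℚ) else 1) hp0 (by positivity)
        hPE
        (by
          intro m hm _
          rw [mem_ss_ne (Finset.mem_of_mem_erase hm) hk (Finset.ne_of_mem_erase hm) hp2]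
          split_ifs
          · simp
          · simp [(Fact.out : p.Prime).one_lt.le])
        (by
          intro m _
          split_ifs
          · exact hp0
          · exact zero_le_one) (mu h n ds k - i)
      refine h1.trans (le_of_eq ?_)
      rw [prod_ite_pow, nq_split h c n k ds hn hc h2 hk]
      have h3 : ((p : ℚ)⁻¹) ^ i * (p : ℚ) ^ i = 1 := by
        rw [← mul_pow, inv_mul_cancel₀ hpne, one_pow]
      have h4 : (p : ℚ) ^ (mu h n ds k) = (p : ℚ) ^ (mu h n ds k - i) * (p : ℚ) ^ i := by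
        rw [← pow_add, Nat.sub_add_cancel hi]
      rw [pow_add, pow_add, h4]
      linear_combination (padicNorm p (cst b h c n ds) * ((p : ℚ)⁻¹) ^ (b * n1 p h c n k) *
        (p : ℚ) ^ (∑ m ∈ (ss h c n).erase k, mu h n ds m * (if (p : ℤ) ∣ (m : ℤ) - k then 1 else 0)) *
        (p : ℚ) ^ (mu h n ds k - i)) * A * (-1) * h3
    · rw [padicNorm.zero]
      positivity
  refine key.trans (le_of_eq ?_)
  rw [norm_cst b h c n ds hp2 h2 (by omega)]
  congr 1
  rw [inv_pow, ← zpow_natCast, ← zpow_natCast, ← zpow_neg, ← zpow_add₀ hpne, ← zpow_add₀ hpne]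
  congr 1
  unfold ee
  push_cast; ring

theorem C1_pa_mul {n p : ℕ} [Fact p.Prime] (hn : 1 ≤ n) (hp2 : 18 * n < p ^ 2) (E : ℚ[X]) {k : ℕ}
    (hk : k ∈ sN n) (A : ℚ) (hA : 0 ≤ A) (hE : PB p (p : ℚ) A (TS (-(k : ℚ)) E)) (i : ℕ) :
    padicNorm p (pa (sN n) (muN n) (PPn n * E) k i) ≤ (p : ℚ) ^ (-(eeN p n k) - i : ℤ) * A :=
  C1_gen ds20 (by norm_num) hn hp2 (by decide) (by decide) E hk A hA hE i

theorem C1_pa_mul_int {n p : ℕ} [Fact p.Prime] (hn : 1 ≤ n) (E : ℚ[X]) {k : ℕ}
    (hk : k ∈ sN n) (A : ℚ) (hA : 0 ≤ A) (hE : PB p 1 A (TS (-(k : ℚ)) E)) (i : ℕ)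
    (hno : ∀ k' ∈ Finset.Icc (3 * n) (15 * n), k' ≠ k → ¬ (p : ℤ) ∣ (k' : ℤ) - k) :
    padicNorm p (pa (sN n) (muN n) (PPn n * E) k i) ≤ padicNorm p (cstN n) * A := by
  have hcst : 0 ≤ padicNorm p (cstN n) := padicNorm.nonneg _
  unfold pa
  split_ifs with hi
  · have hPP := PB_PP_int (p := p) 9 18 2 n ds20 k 1 le_rfl
    have hPE := PB.mul zero_le_one hcst hA hPP hE
    rw [← map_mul] at hPE
    have h1 := pfc_bound (p := p) (sN n) (muN n) (PPn n * E) k 1 _
      (fun _ => 1) zero_le_one (by positivity) hPE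
      (by
        intro m hm hm0
        have hm1 : m ∈ Finset.Icc (3 * n) (15 * n) := by
          by_contra hcon
          apply hm0
          rw [Finset.mem_Icc] at hcon
          unfold muN mu
          rw [List.countP_eq_zero]
          intro d hd
          have hd3 : d = 3 := by
            have : ∀ d ∈ ds20, d = 3 := by decide
            exact this d hd
          subst hd3
          rw [decide_eq_true_eq]
          omega
        have h2 := hno m hm1 (Finset.ne_of_mem_erase hm)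
        have h3 := (padicNorm.int_eq_one_iff (p := p) _).2 h2
        push_cast at h3
        rw [h3]; simp)
      (by intro m _; exact zero_le_one) (muN n k - i)
    simpa using h1
  · rw [padicNorm.zero]
    positivity

end

end Pool.Agent.H343X

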