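import Pool.Agent.H343X.C1

/-!
# C2: p-adic size of the linear form for medium and large primes
-/

open Polynomial Pool.Agent.H337R2

namespace Pool.Agent.H343X

noncomputable section

section C2

variable {p : ℕ} [hp : Fact p.Prime]

/-- the estimate of the linear form from the estimates of its terms -/
lemma C2_aux (n : ℕ) (q : ℕ) (u : ℕ → ℚ) (hu : UInt q u) (P : ℚ[X]) (W : ℚ) (hW : 0 ≤ W)
    (h1 : ∀ i, 1 ≤ i → ∀ k ∈ sN n, padicNorm p (pa (sN n) (muN n) P k i) ≤ W)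
    (h2 : ∀ i, 1 ≤ i → ∀ k ∈ sN n, padicNorm p (pa (sN n) (muN n) P k i) *
      padicNorm p (hs (i + 8) (k - 2 * n - 1)) ≤ W) :
    padicNorm p ((q : ℚ) * xf n u P) ≤ W := by
  have hq1 : padicNorm p (q : ℚ) ≤ 1 := padicNorm.of_nat q
  unfold xf
  rw [Finset.mul_sum]
  apply padicNorm.sum_le' _ hW
  intro i hi
  rw [Finset.mem_Icc] at hi
  have hch : padicNorm p (((Nat.choose (i + 7) 8 : ℕ) : ℚ)) ≤ 1 := padicNorm.of_nat _
  have hqu : padicNorm p ((q : ℚ) * u i) ≤ 1 := by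
    obtain ⟨z, hz⟩ := hu.2 i
    rw [hz]
    exact padicNorm.of_int z
  have e : (q : ℚ) * (((Nat.choose (i + 7) 8 : ℕ) : ℚ) *
      ((∑ k ∈ sN n, pa (sN n) (muN n) P k i) * u i -
        ∑ k ∈ sN n, pa (sN n) (muN n) P k i * hs (i + 8) (k - 2 * n - 1))) =
      ((Nat.choose (i + 7) 8 : ℕ) : ℚ) *
      ((∑ k ∈ sN n, pa (sN n) (muN n) P k i * ((q : ℚ) * u i)) -
        ∑ k ∈ sN n, (q : ℚ) * (pa (sN n) (muN n) P k i * hs (i + 8) (k - 2 * n - 1))) := by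
    rw [← Finset.sum_mul, ← Finset.mul_sum]
    ring
  rw [e, padicNorm.mul]
  have e2 : padicNorm p ((∑ k ∈ sN n, pa (sN n) (muN n) P k i * ((q : ℚ) * u i)) -
        ∑ k ∈ sN n, (q : ℚ) * (pa (sN n) (muN n) P k i * hs (i + 8) (k - 2 * n - 1))) ≤ W := by
    refine padicNorm.sub.trans (max_le ?_ ?_)
    · apply padicNorm.sum_le' _ hW
      intro k hk
      rw [padicNorm.mul]
      calc _ ≤ W * 1 := mul_le_mul (h1 i hi.1 k hk) hqu (padicNorm.nonneg _) hW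
        _ = W := mul_one W
    · apply padicNorm.sum_le' _ hW
      intro k hk
      rw [padicNorm.mul, padicNorm.mul]
      calc _ ≤ 1 * W := mul_le_mul hq1 (h2 i hi.1 k hk)
            (mul_nonneg (padicNorm.nonneg _) (padicNorm.nonneg _)) zero_le_one
        _ = W := one_mul W
  calc _ ≤ 1 * W := mul_le_mul hch e2 (padicNorm.nonneg _) zero_le_one
    _ = W := one_mul W

lemma C2_mem_Icc {n k : ℕ} (h : muN n k ≠ 0) : k ∈ Finset.Icc (3 * n) (15 * n) := by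
  obtain ⟨d, hd, hd1, hd2⟩ := mu_ne_zero h
  have hd3 : d = 3 := by simpa [ds20] using hd
  subst hd3
  rw [Finset.mem_Icc]
  omega

/-- terms for which the left alternative holds -/
lemma C2_left {n : ℕ} (hn : 1 ≤ n) (hp2 : 18 * n < p ^ 2) (E : ℚ[X]) (W : ℚ) {k : ℕ} (A : ℚ)
    (hA : 0 ≤ A) (hkI : k ∈ Finset.Icc (3 * n) (15 * n)) (hk : k ∈ sN n)
    (hE : PB p (p : ℚ) A (TS (-(k : ℚ)) E)) (h : (p : ℚ) ^ (8 - eeN p n k) * A ≤ W) (i : ℕ)
    (hi : 1 ≤ i) :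
    padicNorm p (pa (sN n) (muN n) (PPn n * E) k i) ≤ W ∧
    padicNorm p (pa (sN n) (muN n) (PPn n * E) k i) *
      padicNorm p (hs (i + 8) (k - 2 * n - 1)) ≤ W := by
  have hp0 : (p : ℚ) ≠ 0 := p_pos'.ne'
  have hp1 : (1 : ℚ) ≤ p := p_one'
  have hpa := C1_pa_mul hn hp2 E hk A hA hE i
  rw [Finset.mem_Icc] at hkI
  constructor
  · refine hpa.trans (le_trans ?_ h)
    apply mul_le_mul_of_nonneg_right _ hA
    apply zpow_le_zpow_right₀ hp1
    have : (0 : ℤ) ≤ i := by positivity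
    linarith
  · have h4 := hs_norm_med (p := p) (i + 8) (k - 2 * n - 1) (by omega)
    refine (mul_le_mul hpa h4 (padicNorm.nonneg _) (by positivity)).trans (le_trans (le_of_eq ?_) h)
    rw [← zpow_natCast (p : ℚ) (i + 8), mul_right_comm, ← zpow_add₀ hp0]
    have e3 : -(eeN p n k) - (i : ℤ) + ((i + 8 : ℕ) : ℤ) = 8 - eeN p n k := by
      generalize eeN p n k = z
      push_cast
      ring
    rw [e3]

end C2

theorem C2_xf_le {n p : ℕ} [Fact p.Prime] (hn : 1 ≤ n) (hp2 : 18 * n < p ^ 2) (q : ℕ) (u : ℕ → ℚ) (hu : UInt q u)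
    (E : ℚ[X]) (W : ℚ) (A : ℕ → ℚ) (hA : ∀ k, 0 ≤ A k)
    (hE : ∀ k ∈ Finset.Icc (3 * n) (15 * n), PB p (p : ℚ) (A k) (TS (-(k : ℚ)) E))
    (hE1 : ∀ k ∈ Finset.Icc (3 * n) (15 * n), PB p 1 1 (TS (-(k : ℚ)) E))
    (hc : padicNorm p (cstN n) ≤ W)
    (h : ∀ k ∈ Finset.Icc (3 * n) (15 * n), (p : ℚ) ^ (8 - eeN p n k) * A k ≤ W ∨
      (k < 2 * n + 1 + p ∧ ∀ k' ∈ Finset.Icc (3 * n) (15 * n), k' ≠ k → ¬ (p : ℤ) ∣ (k' : ℤ) - k)) :
    padicNorm p ((q : ℚ) * xf n u (PPn n * E)) ≤ W := by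
  have hW : 0 ≤ W := le_trans (padicNorm.nonneg _) hc
  have key : ∀ i, 1 ≤ i → ∀ k ∈ sN n,
      padicNorm p (pa (sN n) (muN n) (PPn n * E) k i) ≤ W ∧
      padicNorm p (pa (sN n) (muN n) (PPn n * E) k i) *
        padicNorm p (hs (i + 8) (k - 2 * n - 1)) ≤ W := by
    intro i hi k hk
    by_cases hm : muN n k = 0
    · rw [pa_zero_of_mu hi hm]
      simp [hW]
    have hkI := C2_mem_Icc hm
    rcases h k hkI with h3 | ⟨h3, h4⟩
    · exact C2_left hn hp2 E W (A k) (hA k) hkI hk (hE k hkI) h3 i hi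
    · have hpa : padicNorm p (pa (sN n) (muN n) (PPn n * E) k i) ≤ W := by
        refine (C1_pa_mul_int hn E hk 1 zero_le_one (hE1 k hkI) i h4).trans ?_
        rw [mul_one]
        exact hc
      refine ⟨hpa, ?_⟩
      have hp' : 0 < p := (Fact.out : p.Prime).pos
      have h5 := hs_norm_small (p := p) (i + 8) (k - 2 * n - 1) (by omega)
      calc _ ≤ W * 1 := mul_le_mul hpa h5 (padicNorm.nonneg _) hW
        _ = W := mul_one W
  exact C2_aux n q u hu _ W hW (fun i hi k hk => (key i hi k hk).1) (fun i hi k hk => (key i hi k hk).2)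

theorem C2_xf_le_all {n p : ℕ} [Fact p.Prime] (hn : 1 ≤ n) (hp2 : 18 * n < p ^ 2) (q : ℕ) (u : ℕ → ℚ)
    (hu : UInt q u) (E : ℚ[X]) (W : ℚ) (hW : 0 ≤ W) (A : ℕ → ℚ) (hA : ∀ k, 0 ≤ A k)
    (hE : ∀ k ∈ Finset.Icc (3 * n) (15 * n), PB p (p : ℚ) (A k) (TS (-(k : ℚ)) E))
    (h : ∀ k ∈ Finset.Icc (3 * n) (15 * n), (p : ℚ) ^ (8 - eeN p n k) * A k ≤ W) :
    padicNorm p ((q : ℚ) * xf n u (PPn n * E)) ≤ W := by
  have key : ∀ i, 1 ≤ i → ∀ k ∈ sN n,
      padicNorm p (pa (sN n) (muN n) (PPn n * E) k i) ≤ W ∧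
      padicNorm p (pa (sN n) (muN n) (PPn n * E) k i) *
        padicNorm p (hs (i + 8) (k - 2 * n - 1)) ≤ W := by
    intro i hi k hk
    by_cases hm : muN n k = 0
    · rw [pa_zero_of_mu hi hm]
      simp [hW]
    have hkI := C2_mem_Icc hm
    exact C2_left hn hp2 E W (A k) (hA k) hkI hk (hE k hkI) (h k hkI) i hi
  exact C2_aux n q u hu _ W hW (fun i hi k hk => (key i hi k hk).1) (fun i hi k hk => (key i hi k hk).2)

end

end Pool.Agent.H343X
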