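import Pool.Agent.H336R2.HD.Defs

/-!
# Hankel determinants of linear forms in `1, ζ(11), ζ(13), …, ζ(27)`: definitions

`R(t) = ((12n)!)^20/((2n)!)^18 (2t+18n) (∏_{m=1}^{2n} (t+m)(t+18n-m))^9 / ∏_{k=3n}^{15n} (t+k)^20`,
`x(t) = t (t+18n)`, and the linear form (eighth derivative divided by `8!`, summed over `t ≥ 0`)
attached to the numerator multiplied by `x^112 Q(x)`.
-/

open Polynomial Pool.Agent.H337R2

namespace Pool.Agent.H343X

noncomputable section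

export Pool.Agent.H336R2.HD (UInt TT)

/-- twenty bricks `[3n, 15n]` -/
abbrev ds20 : List ℕ := [3, 3, 3, 3, 3, 3, 3, 3, 3, 3, 3, 3, 3, 3, 3, 3, 3, 3, 3, 3]

/-- index set of helper337's format: `[2n+1, 16n-1]` -/
abbrev sN (n : ℕ) : Finset ℕ := ss 18 2 n

/-- multiplicity of the poles: `20` on `[3n, 15n]`, `0` otherwise -/
abbrev muN (n : ℕ) : ℕ → ℕ := mu 18 n ds20

/-- `((12n)!)^20/((2n)!)^18` -/
abbrev cstN (n : ℕ) : ℚ := cst 9 18 2 n ds20

/-- numerator of `R` -/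
abbrev PPn (n : ℕ) : ℚ[X] := PP 9 18 2 n ds20

/-- the exponent `e_p(k)` -/
abbrev eeN (p n k : ℕ) : ℤ := ee p 9 18 2 n ds20 k

/-- `x(t) = t (t + 18 n)` -/
def xp (n : ℕ) : ℚ[X] := X * (X + C ((18 * n : ℕ) : ℚ))

/-- `x^112 Q(x)` as a polynomial in `t` -/
def EE (n : ℕ) (Q : ℚ[X]) : ℚ[X] := (X ^ 112 * Q).comp (xp n)

/-- the linear form as a function of the numerator (`u 3 = ζ(11)`, `u 5 = ζ(13)`, …, `u 19 = ζ(27)`) -/
def xf (n : ℕ) (u : ℕ → ℚ) (P : ℚ[X]) : ℚ :=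
  ∑ i ∈ Finset.Icc 1 20, ((Nat.choose (i + 7) 8 : ℕ) : ℚ) *
    ((∑ k ∈ sN n, pa (sN n) (muN n) P k i) * u i -
      ∑ k ∈ sN n, pa (sN n) (muN n) P k i * hs (i + 8) (k - 2 * n - 1))

/-- `xf` as a linear map of the numerator -/
def xfL (n : ℕ) (u : ℕ → ℚ) : ℚ[X] →ₗ[ℚ] ℚ where
  toFun := xf n u
  map_add' P Q := by
    unfold xf
    rw [← Finset.sum_add_distrib]
    apply Finset.sum_congr rfl
    intro i _
    simp only [H336R2.HD.pa_add, add_mul, Finset.sum_add_distrib]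
    ring
  map_smul' c P := by
    rw [Polynomial.smul_eq_C_mul]
    unfold xf
    simp only [H336R2.HD.pa_C_mul, RingHom.id_apply, smul_eq_mul]
    rw [Finset.mul_sum]
    apply Finset.sum_congr rfl
    intro i _
    rw [← Finset.mul_sum]
    have : ∑ k ∈ sN n, c * pa (sN n) (muN n) P k i * hs (i + 8) (k - 2 * n - 1)
        = c * ∑ k ∈ sN n, pa (sN n) (muN n) P k i * hs (i + 8) (k - 2 * n - 1) := by
      rw [Finset.mul_sum]
      apply Finset.sum_congr rfl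
      intro k _
      ring
    rw [this]
    ring

/-- the functional `N(Q)` -/
def NL (n : ℕ) (u : ℕ → ℚ) : ℚ[X] →ₗ[ℚ] ℚ where
  toFun Q := xfL n u (PPn n * EE n Q)
  map_add' P Q := by
    rw [← map_add]
    congr 1
    unfold EE
    rw [mul_add, Polynomial.add_comp, mul_add]
  map_smul' c P := by
    rw [RingHom.id_apply, ← map_smul]
    congr 1
    unfold EE
    rw [mul_smul_comm, Polynomial.smul_comp, mul_smul_comm]

lemma NL_apply (n : ℕ) (u : ℕ → ℚ) (Q : ℚ[X]) : NL n u Q = xf n u (PPn n * EE n Q) := rfl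

/-- Hankel determinant -/
def DET (n : ℕ) (u : ℕ → ℚ) (m : ℕ) : ℚ :=
  (Matrix.of fun i j : Fin m => NL n u (X ^ (i.1 + j.1))).det

/-- representative of the class pair of `k` (for `k ≤ 18 n`) -/
def kap (n p k : ℕ) : ℕ := min (k % p) ((18 * n - k) % p)

/-- the set of class pairs -/
def Kset (n p : ℕ) : Finset ℕ := (Finset.range p).filter fun r => r ≤ (18 * n - r) % p

/-- the class pairs containing a pole `≥ 2n+1+p` -/
def Kfull (n p : ℕ) : Finset ℕ := (Finset.Icc (2 * n + 1 + p) (15 * n)).image (kap n p)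

/-- tents -/
def tn (a j p : ℕ) : ℝ := ((a - j * p : ℕ) : ℝ)

/-- the range of `j` -/
abbrev J : Finset ℕ := Finset.Icc 1 2040

/-- exponent for `n/20 < p < 2n` -/
def EA (n p : ℕ) : ℝ :=
  459 * n - 1020 * n * ((12 * n / p : ℕ) : ℝ) + 918 * n * ((2 * n / p : ℕ) : ℝ) +
  (100 * (12 * n + 2 * ∑ j ∈ J, tn (12 * n) j p)
    - 180 * ∑ j ∈ J, (tn (15 * n) j p + tn n j p - tn (13 * n) j p - tn (3 * n) j p)
    + 81 / 4 * (4 * n + 4 * ∑ j ∈ J, tn (2 * n) j p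
      + 2 * ∑ j ∈ J, (tn (18 * n) j p - 2 * tn (16 * n) j p + tn (14 * n) j p))) / 2

/-- exponent for `2n < p < 17n/2` -/
def EB (n p : ℕ) : ℝ :=
  459 * n - 1020 * n * ((12 * n / p : ℕ) : ℝ) +
  (100 * (12 * n + 2 * ∑ j ∈ J, tn (12 * n) j p)
    - 180 * ∑ j ∈ J, (tn (15 * n) j p + tn n j p - tn (13 * n) j p - tn (3 * n) j p)
    + (80 * n + 41 * ∑ j ∈ J, (tn (18 * n) j p - 2 * tn (16 * n) j p + tn (14 * n) j p))) / 2

/-- exponent for `17n/2 < p < 13n` -/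
def EC (n p : ℕ) : ℝ :=
  - 1020 * n * ((12 * n / p : ℕ) : ℝ) + 90 * tn (12 * n) 1 p + 210 * tn (13 * n) 1 p

/-- the exponent -/
def EW (n p : ℕ) : ℝ :=
  if p < 2 * n then EA n p else if 2 * p < 17 * n then EB n p else if p < 13 * n then EC n p else 0

/-- primes between `lo n` and `hi n` -/
def PS (lo hi : ℝ) (n : ℕ) : Finset ℕ := by
  classical exact (Finset.range (103 * n)).filter (fun p : ℕ => p.Prime ∧ lo * n < p ∧ (p : ℝ) < hi * n)

/-- limit of the tent sums: `∫_{lo}^{hi} (α - j y)_+ dy` -/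
def It (α j : ℕ) (lo hi : ℚ) : ℚ :=
  let c := max lo (min hi ((α : ℚ) / j))
  α * (c - lo) - j * (c ^ 2 - lo ^ 2) / 2

/-- limit of the floor sums -/
def Ifl (α : ℕ) (lo hi : ℚ) : ℚ := ∑ j ∈ J, (max lo (min hi ((α : ℚ) / j)) - lo)

/-- polynomials with zeros at consecutive integers (in `t`), around `-9n` -/
def CP (n i : ℕ) : ℚ[X] := ∏ l ∈ Finset.range i, (X + C (81 * (n : ℚ) ^ 2 - (l : ℚ) ^ 2))

/-- node polynomial `x - x(-r)` -/
def XN (n r : ℕ) : ℚ[X] := X + C ((r : ℚ) * (18 * n - r))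

/-- local power series at the pole `j` (non-vanishing) -/
def ser (j e : ℕ) : PowerSeries ℚ :=
  ((PowerSeries.X + PowerSeries.C (-(j : ℚ))) * (PowerSeries.X + PowerSeries.C (1 - (j : ℚ))) *
    (PowerSeries.X + PowerSeries.C (16 - (j : ℚ))) * (PowerSeries.X + PowerSeries.C (17 - (j : ℚ)))) ^ 9 *
  (∏ b ∈ (Finset.Icc 3 14).erase j, iv ((b : ℚ) - j) ^ 20) * (PowerSeries.X + PowerSeries.C (-(j : ℚ))) ^ e

/-- local functional, values on monomials -/
def Fm (e : ℕ) : ℚ :=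
  - ∑ j ∈ Finset.Icc 3 14, ∑ i ∈ Finset.Icc 1 20, ((Nat.choose (i + 7) 8 : ℕ) : ℚ) *
    PowerSeries.coeff (20 - i) (ser j e) * (hs (i + 8) (j - 2) + (-1) ^ (i + 1) * hs (i + 8) (15 - j))

end

end Pool.Agent.H343X
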