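import Pool.Agent.H343X.DefsG

/-!
# Data of the archimedean part: atoms, exponents, exponents of the bounds; the basis `P_i`
-/

open Polynomial Pool.Agent.H337R2

namespace Pool.Agent.H343X

noncomputable section

/-- atoms of part 1 -/
def la1 : List (ℚ × ℚ) := [(3/2, 1/10), (49/10, 31/10), (41/5, 61/10), (123/10, 21/2), (159/10, 69/5), (201/10, 177/10)]

/-- exponents of part 1 (4 stages, 6 atoms, each stage of total exponent 27) -/
def ls1 : List (List ℕ) := [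
   [9, 11, 7, 0, 0, 0],
   [5, 1, 7, 12, 2, 0],
   [4, 0, 5, 2, 7, 9],
   [3, 0, 0, 0, 1, 23]]

/-- bounds of part 1: powers of two, shifted by `78000` -/
def lt1 : List ℕ := [1239, 3567, 6151, 8859, 11691]

/-- atoms of part 2 -/
def la2 : List (ℚ × ℚ) := [(159/5, 12/5), (77/2, 57/5), (239/5, 103/5), (289/5, 63/2), (346/5, 417/10), (789/10, 533/10), (454/5, 651/10), (1081/10, 823/10), (636/5, 203/2), (731/5, 611/5), (351/2, 754/5), (2173/10, 379/2)]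

/-- exponents of part 2 (6 stages, 12 atoms, each stage of total exponent 84) -/
def ls2 : List (List ℕ) := [
   [13, 24, 27, 18, 2, 0, 0, 0, 0, 0, 0, 0],
   [7, 10, 8, 12, 22, 18, 7, 0, 0, 0, 0, 0],
   [7, 4, 4, 8, 6, 6, 22, 26, 1, 0, 0, 0],
   [5, 3, 2, 5, 4, 3, 10, 11, 27, 14, 0, 0],
   [5, 1, 3, 1, 5, 1, 5, 6, 5, 21, 31, 0],
   [3, 2, 2, 1, 2, 2, 0, 4, 12, 1, 16, 39]]

/-- bounds of part 2: powers of two, shifted by `78000` -/
def lt2 : List ℕ := [11365, 20252, 29861, 39932, 50394, 61224, 72410]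

abbrev at1 (k : ℕ) : ℚ × ℚ := la1.getD k (0, 0)
abbrev at2 (k : ℕ) : ℚ × ℚ := la2.getD k (0, 0)
abbrev sg1 (s k : ℕ) : ℕ := (ls1.getD s []).getD k 0
abbrev sg2 (s k : ℕ) : ℕ := (ls2.getD s []).getD k 0
abbrev t1 (s : ℕ) : ℕ := lt1.getD s 0
abbrev t2 (s : ℕ) : ℕ := lt2.getD s 0

/-- stage polynomial of part 1, degree `54` -/
def C1 (N s : ℕ) : ℚ[X] := ∏ k ∈ Finset.range 6, qa N (at1 k).1 (at1 k).2 ^ sg1 s k

/-- stage polynomial of part 2, degree `168` -/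
def C2 (N s : ℕ) : ℚ[X] := ∏ k ∈ Finset.range 12, qa N (at2 k).1 (at2 k).2 ^ sg2 s k

/-- `∏ |q|^(4 σ)` of stage `s`, part 1, on the contour starting at `c` -/
def Q1 (c : ℚ) (s : ℕ) (ρ : ℝ) : ℝ := ∏ k ∈ Finset.range 6, Qb c (at1 k).1 (at1 k).2 ρ ^ (2 * sg1 s k)

/-- `∏ |q|^(4 σ)` of stage `s`, part 2 (contour starting at `24`) -/
def Q2 (s : ℕ) (ρ : ℝ) : ℝ := ∏ k ∈ Finset.range 12, Qb 24 (at2 k).1 (at2 k).2 ρ ^ (2 * sg2 s k)

/-- number of factors `C1 N s` in `P_i` -/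
def e1 (N i s : ℕ) : ℕ := min N ((i - 54 * N * s) / 54)

/-- number of factors `C2 N s` in `P_(216N+i)` -/
def e2 (N i s : ℕ) : ℕ := min N ((i - 168 * N * s) / 168)

/-- `P_i` for `i < 216 N` -/
def P1 (N i : ℕ) : ℚ[X] := (∏ s ∈ Finset.range 4, C1 N s ^ e1 N i s) * X ^ (i % 54)

/-- `P_(216N+i) = MU * P2 i`, for `i < 1008 N` -/
def P2 (N i : ℕ) : ℚ[X] := (∏ s ∈ Finset.range 6, C2 N s ^ e2 N i s) * X ^ (i % 168)

/-- the basis -/
def PN (N i : ℕ) : ℚ[X] := if i < 216 * N then P1 N i else MU N * P2 N (i - 216 * N)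

/-- exponent of two in the bound, times two, shifted by `78000 N` -/
def EX (N i : ℕ) : ℕ :=
  if i < 216 * N then t1 0 * N + ∑ s ∈ Finset.range 4, (t1 (s + 1) - t1 s) * e1 N i s
  else t2 0 * N + ∑ s ∈ Finset.range 6, (t2 (s + 1) - t2 s) * e2 N (i - 216 * N) s

/-- the constant of the archimedean bound -/
def JJ : ℝ := (612 * Lam + (Real.log 2 / 2) * (42268752 - 1224 * 78000)) / 576 - 5202 * Real.log 24

end

end Pool.Agent.H343X
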