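import Pool.Agent.H343X.G10a
import Pool.Agent.H343X.G1m
import Pool.Agent.H343X.G1c

/-!
# Archimedean part: G1_0
-/

open Polynomial Pool.Agent.H337R2

namespace Pool.Agent.H343X

noncomputable section

/-- the first block of zeros -/
lemma G10_Z1 (N n : ℕ) (hn : n = 24 * N + 1) (ρ : ℝ) (hρ : 0 ≤ ρ) :
    ∏ j ∈ Finset.range (2 * n), qd (((0 : ℕ) : ℝ) + 1 / 2 + j) (N * ρ) ≤
      ((N : ℝ) ^ 96 * ∏ a ∈ Finset.range 48, qd ((a : ℕ) + 1 / 2) ρ) ^ N *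
        (648 * (n : ℝ) ^ 2 * (1 + ρ) ^ 2) ^ 2 := by
  have hN0 : (0 : ℝ) ≤ N := Nat.cast_nonneg N
  have h1 := G10_Zs G1_mid 0 N 48 ρ hρ
  have hA : ∀ j : ℕ, (j : ℝ) ≤ 48 * N + 1 →
      qd (((0 : ℕ) : ℝ) + 1 / 2 + j) (N * ρ) ≤ 648 * (n : ℝ) ^ 2 * (1 + ρ) ^ 2 := by
    intro j hj
    have hj0 : (0 : ℝ) ≤ j := Nat.cast_nonneg j
    refine G10_Y (by omega) hρ ?_ ?_
    · rw [hn]; push_cast; linarith
    · rw [hn]; push_cast; linarith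
  rw [show 2 * n = 48 * N + 1 + 1 by omega, Finset.prod_range_succ, Finset.prod_range_succ, mul_assoc,
    sq (648 * (n : ℝ) ^ 2 * (1 + ρ) ^ 2)]
  refine mul_le_mul ?_ (mul_le_mul (hA _ (by push_cast; linarith)) (hA _ (by push_cast; linarith))
    (G10_qd_nonneg _ _) (by positivity)) (mul_nonneg (G10_qd_nonneg _ _) (G10_qd_nonneg _ _))
    (pow_nonneg (mul_nonneg (by positivity) (Finset.prod_nonneg fun _ _ => G10_qd_nonneg _ _)) _)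
  rw [zero_add, ← Finset.range_eq_Ico] at h1
  refine le_trans (le_of_eq (Finset.prod_congr rfl fun j _ => ?_)) h1
  congr 1
  push_cast
  ring

/-- the second block of zeros -/
lemma G10_Z2 (N n : ℕ) (hN : 1 ≤ N) (hn : n = 24 * N + 1) (ρ : ℝ) (hρ : 0 ≤ ρ) :
    ∏ j ∈ Finset.range (2 * n), qd (((0 : ℕ) : ℝ) + 16 * n - 1 / 2 + j) (N * ρ) ≤
      2 ^ 48 * ((N : ℝ) ^ 96 * ∏ a ∈ Finset.Ico (384 : ℕ) 432, qd ((a : ℕ) + 1 / 2) ρ) ^ N *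
        (648 * (n : ℝ) ^ 2 * (1 + ρ) ^ 2) ^ 2 := by
  have hN0 : (0 : ℝ) ≤ N := Nat.cast_nonneg N
  have h1 := G10_Zshift G1_mid 384 N 48 15 ρ hρ hN (by norm_num) (by norm_num)
  have hA : ∀ j : ℕ, (j : ℝ) ≤ 48 * N + 1 →
      qd (((0 : ℕ) : ℝ) + 16 * n - 1 / 2 + j) (N * ρ) ≤ 648 * (n : ℝ) ^ 2 * (1 + ρ) ^ 2 := by
    intro j hj
    have hj0 : (0 : ℝ) ≤ j := Nat.cast_nonneg j
    refine G10_Y (by omega) hρ ?_ ?_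
    · rw [hn]; push_cast; linarith
    · rw [hn]; push_cast; linarith
  rw [show 2 * n = 48 * N + 1 + 1 by omega, Finset.prod_range_succ, Finset.prod_range_succ,
    mul_assoc (∏ j ∈ Finset.range (48 * N), qd (((0 : ℕ) : ℝ) + 16 * n - 1 / 2 + j) (N * ρ)),
    sq (648 * (n : ℝ) ^ 2 * (1 + ρ) ^ 2)]
  refine mul_le_mul ?_ (mul_le_mul (hA _ (by push_cast; linarith)) (hA _ (by push_cast; linarith))
    (G10_qd_nonneg _ _) (by positivity)) (mul_nonneg (G10_qd_nonneg _ _) (G10_qd_nonneg _ _))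
    (mul_nonneg (by positivity)
      (pow_nonneg (mul_nonneg (by positivity) (Finset.prod_nonneg fun _ _ => G10_qd_nonneg _ _)) _))
  refine le_trans (le_of_eq (Finset.prod_congr rfl fun j _ => ?_)) h1
  congr 1
  rw [hn]
  push_cast
  ring

/-- the poles -/
lemma G10_P (N n : ℕ) (hN : 1 ≤ N) (hn : n = 24 * N + 1) (ρ : ℝ) (hρ : 0 ≤ ρ) :
    GP0 ρ ^ N * (N : ℝ) ^ (11520 * N) ≤
      (∏ j ∈ Finset.range (12 * n + 1), qd (((0 : ℕ) : ℝ) + 3 * n - 1 / 2 + j) (N * ρ)) ^ 20 := by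
  have hN' : (1 : ℝ) ≤ N := by exact_mod_cast hN
  have hr : 0 ≤ (N : ℝ) * ρ := by positivity
  have h1 := G10_Ps G1_trap 72 N 287 (5 / 2) ρ hρ hN (by norm_num) (by norm_num)
  set P : ℝ := ∏ j ∈ Finset.range (12 * n + 1), qd (((0 : ℕ) : ℝ) + 3 * n - 1 / 2 + j) (N * ρ) with hP
  have h2 : ∏ j ∈ Finset.range ((287 + 1) * N), qd (((72 : ℕ) : ℝ) * N + 5 / 2 + j) (N * ρ) ≤ P := by
    rw [hP, show 12 * n + 1 = (287 + 1) * N + 13 by omega, Finset.prod_range_add]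
    have e1 : ∏ j ∈ Finset.range ((287 + 1) * N), qd (((72 : ℕ) : ℝ) * N + 5 / 2 + j) (N * ρ) =
        ∏ j ∈ Finset.range ((287 + 1) * N), qd (((0 : ℕ) : ℝ) + 3 * n - 1 / 2 + j) (N * ρ) := by
      refine Finset.prod_congr rfl fun j _ => ?_
      congr 1
      rw [hn]
      push_cast
      ring
    rw [e1]
    refine le_mul_of_one_le_right (Finset.prod_nonneg fun _ _ => G10_qd_nonneg _ _) ?_
    have h1j : ∏ _x ∈ Finset.range 13, (1 : ℝ) ≤ ∏ x ∈ Finset.range 13,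
        qd (((0 : ℕ) : ℝ) + 3 * n - 1 / 2 + (((287 + 1) * N + x : ℕ) : ℝ)) (N * ρ) := by
      refine Finset.prod_le_prod (fun _ _ => zero_le_one) fun j _ => G10_qd_one ?_ hr
      rw [hn]
      have hj0 : (0 : ℝ) ≤ j := Nat.cast_nonneg j
      push_cast
      linarith
    rwa [Finset.prod_const_one] at h1j
  have h3 : 0 ≤ ∏ j ∈ Finset.range ((287 + 1) * N), qd (((72 : ℕ) : ℝ) * N + 5 / 2 + j) (N * ρ) :=
    Finset.prod_nonneg fun _ _ => G10_qd_nonneg _ _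
  have h4 := h1.trans (pow_le_pow_left₀ h3 h2 2)
  set p : ℝ := qd ((72 : ℕ) : ℝ) ρ * (∏ a ∈ Finset.Ico (72 + 1) (72 + 287 + 1), qd ((a : ℕ) : ℝ) ρ) ^ 2 *
      qd ((72 + (287 + 1) : ℕ) : ℝ) ρ with hp
  have hp0 : 0 ≤ p := by
    rw [hp]
    exact mul_nonneg (mul_nonneg (G10_qd_nonneg _ _) (by positivity)) (G10_qd_nonneg _ _)
  have h5 : GP0 ρ = p ^ 10 := by
    rw [hp]
    unfold GP0
    norm_num only [Nat.cast_ofNat]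
    ring
  have h6 : (((N : ℝ) ^ (4 * (287 + 1)) * p) ^ N) ^ 10 ≤ (P ^ 2) ^ 10 :=
    pow_le_pow_left₀ (by positivity) h4 10
  clear_value p P
  calc GP0 ρ ^ N * (N : ℝ) ^ (11520 * N) = (((N : ℝ) ^ (4 * (287 + 1)) * p) ^ N) ^ 10 := by
        rw [h5, mul_pow, mul_pow, ← pow_mul, ← pow_mul, ← pow_mul, ← pow_mul, mul_comm, mul_comm 10 N]
        congr 2
        ring
    _ ≤ (P ^ 2) ^ 10 := h6
    _ = P ^ 20 := by rw [← pow_mul]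

lemma G10_alg1 {S X E F G M P Y R : ℝ} (k : ℕ) (_hY : 0 ≤ Y) (hF0 : 0 ≤ F) (hF : F ≤ Y)
    (hX : X ^ 2 ≤ Y ^ 2) (hGM : G * M ≤ P) (hGM0 : 0 ≤ G * M) (hR : S ^ 2 * P = R) :
    (S * X ^ k * E * F) ^ 2 * G * M ≤ R * (Y ^ (2 * k + 2) * E ^ 2) := by
  have h1 : (X ^ 2) ^ k ≤ (Y ^ 2) ^ k := pow_le_pow_left₀ (sq_nonneg _) hX _
  have h2 : F ^ 2 ≤ Y ^ 2 := pow_le_pow_left₀ hF0 hF _
  have h3 : (X ^ 2) ^ k * F ^ 2 ≤ (Y ^ 2) ^ k * Y ^ 2 :=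
    mul_le_mul h1 h2 (sq_nonneg _) (by positivity)
  have h4 : (X ^ 2) ^ k * F ^ 2 * (G * M) ≤ (Y ^ 2) ^ k * Y ^ 2 * P :=
    mul_le_mul h3 hGM hGM0 (by positivity)
  calc (S * X ^ k * E * F) ^ 2 * G * M = S ^ 2 * E ^ 2 * ((X ^ 2) ^ k * F ^ 2 * (G * M)) := by
        rw [← pow_mul, mul_comm 2 k, pow_mul]; ring
    _ ≤ S ^ 2 * E ^ 2 * ((Y ^ 2) ^ k * Y ^ 2 * P) :=
        mul_le_mul_of_nonneg_left h4 (by positivity)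
    _ = (S ^ 2 * P) * (Y ^ (2 * k + 2) * E ^ 2) := by
        rw [← pow_mul, pow_add]; ring
    _ = R * (Y ^ (2 * k + 2) * E ^ 2) := by rw [hR]

/-- absorbing the powers of `1 + ρ` -/
lemma G10_E (K : ℕ) : ∃ Ca : ℝ, 0 < Ca ∧ ∀ N : ℕ, 1 ≤ N → ∀ ρ : ℝ, 0 ≤ ρ →
    Real.exp (-(2 * Real.pi * (N * ρ))) ^ 2 * (1 + ρ) ^ K ≤ Ca * Real.exp (-(314 / 25) * ρ) ^ N := by
  have hc : 0 < 4 * Real.pi - 314 / 25 := by
    have := Real.pi_gt_d4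
    linarith
  obtain ⟨Ca, hCa, habs⟩ := G10_absorb (4 * Real.pi - 314 / 25) hc K
  refine ⟨Ca, hCa, fun N hN ρ hρ => ?_⟩
  have hN' : (1 : ℝ) ≤ N := by exact_mod_cast hN
  have h1 := habs ρ hρ
  have h2 : Real.exp ((4 * Real.pi - 314 / 25) * ρ) ≤
      Real.exp ((4 * Real.pi - 314 / 25) * (N * ρ)) := by
    apply Real.exp_le_exp.2
    apply mul_le_mul_of_nonneg_left _ hc.le
    nlinarith
  have h3 : Real.exp (-(2 * Real.pi * (N * ρ))) ^ 2 *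
      Real.exp ((4 * Real.pi - 314 / 25) * (N * ρ)) = Real.exp (-(314 / 25) * ρ) ^ N := by
    rw [← Real.exp_nat_mul, ← Real.exp_nat_mul, ← Real.exp_add]
    congr 1
    push_cast
    ring
  calc Real.exp (-(2 * Real.pi * (N * ρ))) ^ 2 * (1 + ρ) ^ K ≤
        Real.exp (-(2 * Real.pi * (N * ρ))) ^ 2 *
          (Ca * Real.exp ((4 * Real.pi - 314 / 25) * (N * ρ))) := by
        apply mul_le_mul_of_nonneg_left _ (by positivity)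
        exact h1.trans (mul_le_mul_of_nonneg_left h2 hCa.le)
    _ = Ca * (Real.exp (-(2 * Real.pi * (N * ρ))) ^ 2 *
          Real.exp ((4 * Real.pi - 314 / 25) * (N * ρ))) := by ring
    _ = Ca * Real.exp (-(314 / 25) * ρ) ^ N := by rw [h3]

/-- last assembly step, with everything opaque -/
lemma G10_alg3 {cc nk el M1 M2 D gz Y37 Y1002 E s nK rK ca ex : ℝ} (hY : Y37 * Y1002 = s * nK * rK)
    (hE : E * rK ≤ ca * ex) (h0 : 0 ≤ cc * nk * el * M1 * D * M2 * gz * s * nK) :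
    cc * nk * el * M1 * D * (M2 * gz) * Y37 * (Y1002 * E) ≤
      cc * D * s * ca * (nk * nK) * el * (ex * gz) * (M1 * M2) := by
  calc cc * nk * el * M1 * D * (M2 * gz) * Y37 * (Y1002 * E) =
      cc * nk * el * M1 * D * (M2 * gz) * E * (Y37 * Y1002) := by ring
    _ = (cc * nk * el * M1 * D * M2 * gz * s * nK) * (E * rK) := by rw [hY]; ring
    _ ≤ (cc * nk * el * M1 * D * M2 * gz * s * nK) * (ca * ex) :=
        mul_le_mul_of_nonneg_left hE h0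
    _ = _ := by ring

lemma G10_alg2 {c W Z1 Z2 A Y z1 z2 D : ℝ} (hc : 0 ≤ c) (hW : 0 ≤ W) (hZ1 : 0 ≤ Z1) (hZ2 : 0 ≤ Z2)
    (hcA : c ≤ A) (hWY : W ≤ 4 * Y) (h1 : Z1 ≤ z1 * Y ^ 2) (h2 : Z2 ≤ D * z2 * Y ^ 2) :
    c * W * (Z1 ^ 9 * Z2 ^ 9) ≤ A * (4 * D ^ 9) * (z1 ^ 9 * z2 ^ 9) * Y ^ 37 := by
  have h3 : c * W ≤ A * (4 * Y) := mul_le_mul hcA hWY hW (hc.trans hcA)
  have h4 : Z1 ^ 9 ≤ (z1 * Y ^ 2) ^ 9 := pow_le_pow_left₀ hZ1 h1 9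
  have h5 : Z2 ^ 9 ≤ (D * z2 * Y ^ 2) ^ 9 := pow_le_pow_left₀ hZ2 h2 9
  have h6 : Z1 ^ 9 * Z2 ^ 9 ≤ (z1 * Y ^ 2) ^ 9 * (D * z2 * Y ^ 2) ^ 9 :=
    mul_le_mul h4 h5 (pow_nonneg hZ2 9) ((pow_nonneg hZ1 9).trans h4)
  have h7 : c * W * (Z1 ^ 9 * Z2 ^ 9) ≤ A * (4 * Y) * ((z1 * Y ^ 2) ^ 9 * (D * z2 * Y ^ 2) ^ 9) :=
    mul_le_mul h3 h6 (mul_nonneg (pow_nonneg hZ1 9) (pow_nonneg hZ2 9))
      ((mul_nonneg hc hW).trans h3)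
  refine h7.trans (le_of_eq ?_)
  ring

/-- powers of `Y` -/
lemma G10_Ypow (a b : ℕ) (n ρ : ℝ) :
    (648 * n ^ 2 * (1 + ρ) ^ 2) ^ a * (648 * n ^ 2 * (1 + ρ) ^ 2) ^ b =
      648 ^ (a + b) * n ^ (2 * (a + b)) * (1 + ρ) ^ (2 * (a + b)) := by
  rw [← pow_add, mul_pow, mul_pow, ← pow_mul, ← pow_mul]

lemma G10_GZ (N : ℕ) (z1 z2 : ℝ) :
    (((N : ℝ) ^ 96 * z1) ^ N) ^ 9 * (((N : ℝ) ^ 96 * z2) ^ N) ^ 9 =
      (N : ℝ) ^ (1728 * N) * (z1 ^ 9 * z2 ^ 9) ^ N := by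
  have e1 : (N : ℝ) ^ (1728 * N) = (((N : ℝ) ^ 96) ^ N) ^ 9 * (((N : ℝ) ^ 96) ^ N) ^ 9 := by
    rw [← pow_mul, ← pow_mul, ← pow_add]
    congr 1
    ring
  have e2 : ∀ z : ℝ, (z ^ N) ^ 9 = (z ^ 9) ^ N := fun z => by rw [← pow_mul, ← pow_mul, mul_comm]
  rw [e1, mul_pow, mul_pow, mul_pow, mul_pow, mul_pow, ← e2 z1, ← e2 z2]
  ring

lemma G10_F {n N : ℕ} (hn1 : 1 ≤ n) (hNn : N ≤ n) {ρ : ℝ} (hρ : 0 ≤ ρ) :
    1 + ((N : ℝ) * ρ) ^ 2 ≤ 648 * (n : ℝ) ^ 2 * (1 + ρ) ^ 2 := by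
  have hn' : (1 : ℝ) ≤ n := by exact_mod_cast hn1
  have hNn' : (N : ℝ) ≤ n := by exact_mod_cast hNn
  have h1 : ((N : ℝ) * ρ) ^ 2 ≤ ((n : ℝ) * (1 + ρ)) ^ 2 := by
    apply pow_le_pow_left₀ (by positivity)
    exact mul_le_mul hNn' (by linarith) hρ (by linarith)
  have h2 : (1 : ℝ) ≤ ((n : ℝ) * (1 + ρ)) ^ 2 := by
    apply one_le_pow₀
    nlinarith
  nlinarith

theorem G1_0 : ∃ (C : ℝ) (K : ℕ), 0 < C ∧ ∀ N : ℕ, 1 ≤ N → ∀ n : ℕ, n = 24 * N + 1 → ∀ ρ : ℝ, 0 ≤ ρ →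
    (‖Rv n (zv 0 (N * ρ))‖ * ‖xv n (zv 0 (N * ρ))‖ ^ 500 * Real.exp (-(2 * Real.pi * (N * ρ))) *
      (1 + (N * ρ) ^ 2)) ^ 2 * GP0 ρ ^ N ≤
    C * (n : ℝ) ^ K * Real.exp (Lam * N) * (Real.exp (-(314 / 25) * ρ) * GZ0 ρ) ^ N := by
  obtain ⟨Cc, Kc, hCc, hcst⟩ := G1_cst
  obtain ⟨Ca, hCa, habs⟩ := G10_E (2 * (37 + (2 * 500 + 2)))
  refine ⟨Cc * (4 * (2 ^ 48) ^ 9) * 648 ^ (37 + (2 * 500 + 2)) * Ca, Kc + 2 * (37 + (2 * 500 + 2)),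
    mul_pos (mul_pos (mul_pos hCc (by positivity)) (pow_pos (by norm_num) _)) hCa, ?_⟩
  intro N hN n hn ρ hρ
  have hn1 : 1 ≤ n := by omega
  have hN0 : (0 : ℝ) < N := by exact_mod_cast hN
  have hr : 0 ≤ (N : ℝ) * ρ := mul_nonneg hN0.le hρ
  have hNn : N ≤ n := by omega
  have hY0 : 0 ≤ 648 * (n : ℝ) ^ 2 * (1 + ρ) ^ 2 :=
    mul_nonneg (mul_nonneg (by norm_num) (sq_nonneg _)) (sq_nonneg _)
  have hF0 : 0 ≤ 1 + ((N : ℝ) * ρ) ^ 2 := add_nonneg zero_le_one (sq_nonneg _)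
  have hM : 0 < (N : ℝ) ^ (11520 * N) := pow_pos hN0 _
  have hR := G10_R 0 hn1 ((N : ℝ) * ρ) hr
  have hW := G10_2z (U := 0) hNn (by omega) hρ hn1
  have hX := G10_x (U := 0) hNn rfl hρ hn1
  have hZ1 := G10_Z1 N n hn ρ hρ
  have hZ2 := G10_Z2 N n hN hn ρ hρ
  have hP := G10_P N n hN hn ρ hρ
  have hcs := hcst N hN n hn
  have hE := habs N hN ρ hρ
  have hF := G10_F hn1 hNn hρ
  have hGP : 0 ≤ GP0 ρ := by
    unfold GP0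
    exact mul_nonneg (mul_nonneg (pow_nonneg (G10_qd_nonneg _ _) _)
      (pow_nonneg (Finset.prod_nonneg fun _ _ => G10_qd_nonneg _ _) _))
      (pow_nonneg (G10_qd_nonneg _ _) _)
  have hz1 : 0 ≤ ∏ a ∈ Finset.range 48, qd ((a : ℕ) + 1 / 2) ρ :=
    Finset.prod_nonneg fun _ _ => G10_qd_nonneg _ _
  have hz2 : 0 ≤ ∏ a ∈ Finset.Ico (384 : ℕ) 432, qd ((a : ℕ) + 1 / 2) ρ :=
    Finset.prod_nonneg fun _ _ => G10_qd_nonneg _ _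
  have hGZe : GZ0 ρ = (∏ a ∈ Finset.range 48, qd ((a : ℕ) + 1 / 2) ρ) ^ 9 *
      (∏ a ∈ Finset.Ico (384 : ℕ) 432, qd ((a : ℕ) + 1 / 2) ρ) ^ 9 := rfl
  have hZ1p : 0 ≤ ∏ j ∈ Finset.range (2 * n), qd (((0 : ℕ) : ℝ) + 1 / 2 + j) (N * ρ) :=
    Finset.prod_nonneg fun _ _ => G10_qd_nonneg _ _
  have hZ2p : 0 ≤ ∏ j ∈ Finset.range (2 * n), qd (((0 : ℕ) : ℝ) + 16 * n - 1 / 2 + j) (N * ρ) :=
    Finset.prod_nonneg fun _ _ => G10_qd_nonneg _ _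
  have hA1 := G10_alg1 (E := Real.exp (-(2 * Real.pi * (N * ρ)))) 500 hY0 hF0 hF hX hP
    (mul_nonneg (pow_nonneg hGP _) hM.le) hR
  have hA2 := G10_alg2 (sq_nonneg ((cstN n : ℚ) : ℝ)) (sq_nonneg _) hZ1p hZ2p hcs hW hZ1 hZ2
  rw [hGZe]
  generalize (∏ a ∈ Finset.range 48, qd ((a : ℕ) + 1 / 2) ρ) = z1 at *
  generalize (∏ a ∈ Finset.Ico (384 : ℕ) 432, qd ((a : ℕ) + 1 / 2) ρ) = z2 at *
  have hn0 : (0 : ℝ) ≤ n := Nat.cast_nonneg n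
  have hA3 := G10_alg3 (cc := Cc) (nk := (n : ℝ) ^ Kc) (el := Real.exp (Lam * N))
    (M1 := (N : ℝ) ^ (9792 * N)) (M2 := (N : ℝ) ^ (1728 * N)) (D := 4 * (2 ^ 48) ^ 9)
    (gz := (z1 ^ 9 * z2 ^ 9) ^ N) (G10_Ypow 37 (2 * 500 + 2) n ρ) hE
    (mul_nonneg (mul_nonneg (mul_nonneg (mul_nonneg (mul_nonneg (mul_nonneg (mul_nonneg
      (mul_nonneg hCc.le (pow_nonneg hn0 _)) (Real.exp_nonneg _)) (pow_nonneg hN0.le _))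
      (by norm_num)) (pow_nonneg hN0.le _)) (pow_nonneg (mul_nonneg (pow_nonneg hz1 _)
      (pow_nonneg hz2 _)) _)) (pow_nonneg (by norm_num) _)) (pow_nonneg hn0 _))
  have e2 : (N : ℝ) ^ (11520 * N) = (N : ℝ) ^ (9792 * N) * (N : ℝ) ^ (1728 * N) := by
    rw [← pow_add]
    congr 1
    omega
  rw [G10_GZ] at hA2
  rw [← mul_le_mul_iff_left₀ hM]
  refine hA1.trans ((mul_le_mul_of_nonneg_right hA2
    (mul_nonneg (pow_nonneg hY0 _) (sq_nonneg _))).trans ?_)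
  rw [e2, mul_pow (Real.exp (-(314 / 25) * ρ)), pow_add (n : ℝ)]
  exact hA3

end

end Pool.Agent.H343X
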