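import Pool.Agent.H343X.DefsG
import Pool.Agent.H343Z.G1m

/-!
# The node polynomial on the contour: blocks and the bound of `MU`
-/

open Polynomial Pool.Agent.H337R2

namespace Pool.Agent.H343X

noncomputable section

namespace G12

lemma mid (A : ℝ) (L : ℕ) (r : ℝ) (hA : 0 ≤ A) (hr : 0 ≤ r) :
    ∏ j ∈ Finset.range L, qd (A + j + 1 / 2) r ≤ qd (A + L / 2) r ^ L :=
  Pool.Agent.H343Z.G1_mid A L r hA hr

lemma qd_nonneg (w r : ℝ) : 0 ≤ qd w r := by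
  unfold qd
  positivity

lemma qd_scale (N w ρ : ℝ) : qd (N * w) (N * ρ) = N ^ 2 * qd w ρ := by
  unfold qd
  ring

lemma qd_shift {w s r : ℝ} (hw : 0 < w) (hs : 0 ≤ s) (hr : 0 ≤ r) :
    qd (w + s) r ≤ (1 + s / w) ^ 2 * qd w r := by
  unfold qd
  have h1 : 0 ≤ s / w := by positivity
  have h2 : w + s + r ≤ (1 + s / w) * (w + r) := by
    have : (1 + s / w) * (w + r) = w + s + r + s / w * r := by
      field_simp
      ring
    rw [this]
    have := mul_nonneg h1 hr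
    linarith
  have h3 : (w + s + r) ^ 2 ≤ ((1 + s / w) * (w + r)) ^ 2 :=
    pow_le_pow_left₀ (by positivity) h2 2
  have h4 : r ^ 2 ≤ (1 + s / w) ^ 2 * r ^ 2 := by
    have h5 : (1 : ℝ) ≤ (1 + s / w) ^ 2 := one_le_pow₀ (by linarith)
    have := mul_le_mul_of_nonneg_right h5 (sq_nonneg r)
    linarith
  rw [mul_pow] at h3
  rw [mul_add]
  linarith

/-- decomposition of a product in blocks of length `N` -/
lemma prod_blocks (f : ℕ → ℝ) (M N : ℕ) :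
    ∏ j ∈ Finset.range (M * N), f j =
      ∏ a ∈ Finset.range M, ∏ i ∈ Finset.range N, f (a * N + i) := by
  induction M with
  | zero => simp
  | succ M ih =>
    rw [Finset.prod_range_succ, ← ih, Nat.add_mul, one_mul, Finset.prod_range_add]

/-- midpoint bound in blocks -/
lemma blocks_mid (M N : ℕ) (B r : ℝ) (hB : 0 ≤ B) (hr : 0 ≤ r) :
    ∏ j ∈ Finset.range (M * N), qd (B + j + 1 / 2) r ≤
      (∏ a ∈ Finset.range M, qd (B + a * N + N / 2) r) ^ N := by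
  rw [prod_blocks (fun j => qd (B + j + 1 / 2) r) M N, ← Finset.prod_pow]
  refine Finset.prod_le_prod (fun a _ => Finset.prod_nonneg fun i _ => qd_nonneg _ _) ?_
  intro a _
  have h := mid (B + a * N) N r (by positivity) hr
  refine le_trans (le_of_eq ?_) h
  refine Finset.prod_congr rfl fun i _ => ?_
  push_cast
  congr 1
  ring

/-- scaled version, with a shift -/
lemma blocks_sc (M N a₀ : ℕ) (s ρ : ℝ) (hN : 1 ≤ N) (ha : 1 ≤ a₀) (hs : 0 ≤ s) (hρ : 0 ≤ ρ) :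
    ∏ j ∈ Finset.range (M * N), qd ((a₀ : ℝ) * N + s + j + 1 / 2) (N * ρ) ≤
      ((N : ℝ) ^ (2 * M) * (1 + s / (a₀ * N)) ^ (2 * M) *
        ∏ a ∈ Finset.range M, qd (((a₀ + a : ℕ) : ℝ) + 1 / 2) ρ) ^ N := by
  have hN' : (1 : ℝ) ≤ N := by exact_mod_cast hN
  have ha' : (1 : ℝ) ≤ a₀ := by exact_mod_cast ha
  refine (blocks_mid M N ((a₀ : ℝ) * N + s) (N * ρ) (by positivity) (by positivity)).trans ?_
  refine pow_le_pow_left₀ (Finset.prod_nonneg fun i _ => qd_nonneg _ _) ?_ N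
  have e : (N : ℝ) ^ (2 * M) * (1 + s / (a₀ * N)) ^ (2 * M) *
        ∏ a ∈ Finset.range M, qd (((a₀ + a : ℕ) : ℝ) + 1 / 2) ρ =
      ∏ a ∈ Finset.range M, ((N : ℝ) ^ 2 * (1 + s / (a₀ * N)) ^ 2 *
        qd (((a₀ + a : ℕ) : ℝ) + 1 / 2) ρ) := by
    rw [Finset.prod_mul_distrib, Finset.prod_const, Finset.card_range, mul_pow, ← pow_mul,
      ← pow_mul]
  rw [e]
  refine Finset.prod_le_prod (fun i _ => qd_nonneg _ _) ?_
  intro a _
  have e1 : (a₀ : ℝ) * N + s + a * N + N / 2 = N * (((a₀ + a : ℕ) : ℝ) + 1 / 2) + s := by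
    push_cast
    ring
  rw [e1]
  have hw : (0 : ℝ) < N * (((a₀ + a : ℕ) : ℝ) + 1 / 2) := by positivity
  refine (qd_shift hw hs (by positivity)).trans ?_
  rw [qd_scale]
  have h1 : s / (N * (((a₀ + a : ℕ) : ℝ) + 1 / 2)) ≤ s / (a₀ * N) := by
    apply div_le_div_of_nonneg_left hs (by positivity)
    have : (a₀ : ℝ) ≤ ((a₀ + a : ℕ) : ℝ) + 1 / 2 := by
      push_cast
      have : (0 : ℝ) ≤ a := Nat.cast_nonneg a
      linarith
    nlinarith
  have h2 : (1 + s / (N * (((a₀ + a : ℕ) : ℝ) + 1 / 2))) ^ 2 ≤ (1 + s / (a₀ * N)) ^ 2 :=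
    pow_le_pow_left₀ (by positivity) (by linarith) 2
  have h3 : 0 ≤ (N : ℝ) ^ 2 * qd (((a₀ + a : ℕ) : ℝ) + 1 / 2) ρ :=
    mul_nonneg (by positivity) (qd_nonneg _ _)
  calc (1 + s / (N * (((a₀ + a : ℕ) : ℝ) + 1 / 2))) ^ 2 *
        ((N : ℝ) ^ 2 * qd (((a₀ + a : ℕ) : ℝ) + 1 / 2) ρ)
      ≤ (1 + s / (a₀ * N)) ^ 2 * ((N : ℝ) ^ 2 * qd (((a₀ + a : ℕ) : ℝ) + 1 / 2) ρ) :=
        mul_le_mul_of_nonneg_right h2 h3
    _ = _ := by ring

/-- scaled version from `0`, no shift -/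
lemma blocks_sc0 (M N : ℕ) (ρ : ℝ) (hρ : 0 ≤ ρ) :
    ∏ j ∈ Finset.range (M * N), qd ((j : ℝ) + 1 / 2) (N * ρ) ≤
      ((N : ℝ) ^ (2 * M) * ∏ a ∈ Finset.range M, qd ((a : ℝ) + 1 / 2) ρ) ^ N := by
  have h := blocks_mid M N 0 (N * ρ) le_rfl (by positivity)
  simp only [zero_add] at h
  refine h.trans (le_of_eq ?_)
  congr 1
  have e : (N : ℝ) ^ (2 * M) * ∏ a ∈ Finset.range M, qd ((a : ℝ) + 1 / 2) ρ =
      ∏ a ∈ Finset.range M, ((N : ℝ) ^ 2 * qd ((a : ℝ) + 1 / 2) ρ) := by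
    rw [Finset.prod_mul_distrib, Finset.prod_const, Finset.card_range, ← pow_mul]
  rw [e]
  refine Finset.prod_congr rfl fun a _ => ?_
  rw [← qd_scale]
  congr 1
  ring

lemma norm_zv_add (U : ℕ) (r c : ℝ) : ‖zv U r + (c : ℂ)‖ ^ 2 = qd ((U : ℝ) - 1 / 2 + c) r := by
  rw [← Complex.normSq_eq_norm_sq, Complex.normSq_apply]
  have h1 : (zv U r + (c : ℂ)).re = (U : ℝ) - 1 / 2 + r + c := by
    simp [zv]
  have h2 : (zv U r + (c : ℂ)).im = r := by
    simp [zv]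
  rw [h1, h2, qd]
  ring

lemma aeval_MU (N n : ℕ) (hn : n = 24 * N + 1) (z : ℂ) :
    aeval (xv n z) (MU N) =
      ∏ u ∈ Finset.range (24 * N), ((z + ((-(u : ℝ) : ℝ) : ℂ)) *
        (z + (((18 * n : ℕ) : ℝ) + u : ℝ))) ^ 9 := by
  subst hn
  rw [MU, map_prod]
  refine Finset.prod_congr rfl fun u _ => ?_
  rw [map_pow]
  congr 1
  simp only [map_sub, aeval_X, aeval_C, xq, xv]
  rw [eq_ratCast]
  push_cast
  ring

lemma norm_MU (N n : ℕ) (hn : n = 24 * N + 1) (r : ℝ) :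
    ‖aeval (xv n (zv (24 * N) r)) (MU N)‖ ^ 4 =
      (∏ j ∈ Finset.range (24 * N), qd ((j : ℝ) + 1 / 2) r) ^ 18 *
      (∏ j ∈ Finset.range (24 * N), qd (((456 : ℕ) : ℝ) * N + 17 + j + 1 / 2) r) ^ 18 := by
  rw [aeval_MU N n hn, norm_prod, ← Finset.prod_pow]
  have e : ∀ u : ℕ, ‖((zv (24 * N) r + ((-(u : ℝ) : ℝ) : ℂ)) *
        (zv (24 * N) r + (((18 * n : ℕ) : ℝ) + u : ℝ))) ^ 9‖ ^ 4 =
      (qd (((24 * N : ℕ) : ℝ) - 1 / 2 + -(u : ℝ)) r) ^ 18 *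
      (qd (((24 * N : ℕ) : ℝ) - 1 / 2 + (((18 * n : ℕ) : ℝ) + u)) r) ^ 18 := by
    intro u
    rw [norm_pow, norm_mul, ← norm_zv_add, ← norm_zv_add]
    ring
  rw [Finset.prod_congr rfl fun u _ => e u, Finset.prod_mul_distrib, Finset.prod_pow,
    Finset.prod_pow]
  congr 2
  · rw [← Finset.prod_range_reflect]
    refine Finset.prod_congr rfl fun u hu => ?_
    have hu' := Finset.mem_range.1 hu
    congr 1
    have : ((24 * N - 1 - u : ℕ) : ℝ) = ((24 * N : ℕ) : ℝ) - 1 - u := by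
      rw [Nat.cast_sub (by omega), Nat.cast_sub (by omega)]
      push_cast
      ring
    rw [this]
    ring
  · refine Finset.prod_congr rfl fun u _ => ?_
    congr 1
    rw [hn]
    push_cast
    ring

/-- bound of the node polynomial on the contour -/
lemma MU_bound (N n : ℕ) (hN : 1 ≤ N) (hn : n = 24 * N + 1) (ρ : ℝ) (hρ : 0 ≤ ρ) :
    ‖aeval (xv n (zv (24 * N) (N * ρ))) (MU N)‖ ^ 4 ≤
      Real.exp 33 * (N : ℝ) ^ (1728 * N) *
      ((∏ a ∈ Finset.range 24, qd ((a : ℕ) + 1 / 2) ρ) ^ 18 *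
        (∏ a ∈ Finset.Ico (456 : ℕ) 480, qd ((a : ℕ) + 1 / 2) ρ) ^ 18) ^ N := by
  have hN' : (1 : ℝ) ≤ N := by exact_mod_cast hN
  rw [norm_MU N n hn]
  have h1 := blocks_sc0 24 N ρ hρ
  have h2 := blocks_sc 24 N 456 17 ρ hN (by norm_num) (by norm_num) hρ
  have e3 : ∏ a ∈ Finset.Ico (456 : ℕ) 480, qd ((a : ℕ) + 1 / 2) ρ =
      ∏ a ∈ Finset.range 24, qd (((456 + a : ℕ) : ℝ) + 1 / 2) ρ := by
    rw [Finset.prod_Ico_eq_prod_range]
  rw [e3]
  set Z1 : ℝ := ∏ a ∈ Finset.range 24, qd ((a : ℕ) + 1 / 2) ρ with hZ1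
  set Z2 : ℝ := ∏ a ∈ Finset.range 24, qd (((456 + a : ℕ) : ℝ) + 1 / 2) ρ with hZ2
  have hZ1' : 0 ≤ Z1 := Finset.prod_nonneg fun i _ => qd_nonneg _ _
  have hZ2' : 0 ≤ Z2 := Finset.prod_nonneg fun i _ => qd_nonneg _ _
  set y : ℝ := 1 + 17 / (((456 : ℕ) : ℝ) * N) with hy
  have hy0 : 0 ≤ y := by positivity
  have hyE : (y ^ (2 * 24)) ^ N ≤ Real.exp (34 / 19) := by
    have h5 : y ≤ Real.exp (17 / (((456 : ℕ) : ℝ) * N)) := by
      rw [hy, add_comm]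
      exact Real.add_one_le_exp _
    calc (y ^ (2 * 24)) ^ N ≤ (Real.exp (17 / (((456 : ℕ) : ℝ) * N)) ^ (2 * 24)) ^ N := by
          gcongr
      _ = Real.exp (34 / 19) := by
          rw [← pow_mul, ← Real.exp_nat_mul]
          congr 1
          push_cast
          field_simp
          ring
  calc (∏ j ∈ Finset.range (24 * N), qd ((j : ℝ) + 1 / 2) (N * ρ)) ^ 18 *
      (∏ j ∈ Finset.range (24 * N), qd (((456 : ℕ) : ℝ) * N + 17 + j + 1 / 2) (N * ρ)) ^ 18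
      ≤ (((N : ℝ) ^ (2 * 24) * Z1) ^ N) ^ 18 * (((N : ℝ) ^ (2 * 24) * y ^ (2 * 24) * Z2) ^ N) ^ 18 := by
        apply mul_le_mul
        · exact pow_le_pow_left₀ (Finset.prod_nonneg fun i _ => qd_nonneg _ _) h1 18
        · exact pow_le_pow_left₀ (Finset.prod_nonneg fun i _ => qd_nonneg _ _) h2 18
        · exact pow_nonneg (Finset.prod_nonneg fun i _ => qd_nonneg _ _) 18
        · exact pow_nonneg (pow_nonneg (mul_nonneg (pow_nonneg (by linarith) _) hZ1') _) _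
    _ = ((y ^ (2 * 24)) ^ N) ^ 18 * (N : ℝ) ^ (1728 * N) * (Z1 ^ 18 * Z2 ^ 18) ^ N := by
        have e4 : (N : ℝ) ^ (1728 * N) = (((N : ℝ) ^ (2 * 24)) ^ N) ^ 18 *
            (((N : ℝ) ^ (2 * 24)) ^ N) ^ 18 := by
          rw [← pow_add, ← pow_mul, ← pow_mul]
          congr 1
          ring
        rw [e4]
        generalize (N : ℝ) ^ (2 * 24) = P
        generalize y ^ (2 * 24) = Y
        have e5 : (Z1 ^ 18 * Z2 ^ 18) ^ N = (Z1 ^ N) ^ 18 * (Z2 ^ N) ^ 18 := by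
          rw [mul_pow, ← pow_mul, ← pow_mul, ← pow_mul, ← pow_mul, mul_comm 18 N]
        rw [e5, mul_pow P Z1, mul_pow (P * Y) Z2, mul_pow P Y]
        generalize P ^ N = P'
        generalize Y ^ N = Y'
        generalize Z1 ^ N = Z1'
        generalize Z2 ^ N = Z2'
        ring
    _ ≤ Real.exp 33 * (N : ℝ) ^ (1728 * N) * (Z1 ^ 18 * Z2 ^ 18) ^ N := by
        have h6 : ((y ^ (2 * 24)) ^ N) ^ 18 ≤ Real.exp 33 := by
          calc ((y ^ (2 * 24)) ^ N) ^ 18 ≤ Real.exp (34 / 19) ^ 18 :=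
                pow_le_pow_left₀ (by positivity) hyE 18
            _ = Real.exp (612 / 19) := by
                rw [← Real.exp_nat_mul]
                congr 1
                norm_num
            _ ≤ Real.exp 33 := by
                apply Real.exp_le_exp.2
                norm_num
        have h7 : 0 ≤ (N : ℝ) ^ (1728 * N) := by positivity
        have h8 : 0 ≤ (Z1 ^ 18 * Z2 ^ 18) ^ N := by positivity
        exact mul_le_mul_of_nonneg_right (mul_le_mul_of_nonneg_right h6 h7) h8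

end G12

end

end Pool.Agent.H343X
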