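import Pool.Agent.H343X.DefsG
import Pool.Agent.H343X.G1m
import Pool.Agent.H337R2.PBd

/-! # Block bookkeeping on the slanted contours (general start `U = c N`) -/

open Polynomial Pool.Agent.H337R2

namespace Pool.Agent.H343X

noncomputable section

lemma G1L_norm (U m : ℕ) (r : ℝ) : ‖zv U r + (m : ℂ)‖ ^ 2 = qd ((U : ℝ) - 1 / 2 + m) r := by
  rw [← Complex.normSq_eq_norm_sq, Complex.normSq_apply]
  simp [zv]
  unfold qd
  ring

lemma G1L_norm0 (U : ℕ) (r : ℝ) : ‖zv U r‖ ^ 2 = qd ((U : ℝ) - 1 / 2) r := by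
  have := G1L_norm U 0 r
  simpa using this

lemma G1L_norm2 (U n : ℕ) (r : ℝ) :
    ‖2 * zv U r + ((18 * n : ℕ) : ℂ)‖ ^ 2 = 4 * qd ((U : ℝ) - 1 / 2 + 9 * n) r := by
  rw [← Complex.normSq_eq_norm_sq, Complex.normSq_apply]
  simp [zv]
  unfold qd
  ring

lemma G1L_prodIcc (a b L : ℕ) (h : b + 1 = a + L) (f : ℕ → ℝ) :
    ∏ m ∈ Finset.Icc a b, f m = ∏ j ∈ Finset.range L, f (a + j) := by
  have e1 : Finset.Icc a b = Finset.Ico a (b + 1) := by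
    ext m; rw [Finset.mem_Icc, Finset.mem_Ico]; omega
  rw [e1, Finset.prod_Ico_eq_prod_range]
  have e2 : b + 1 - a = L := by omega
  rw [e2]

lemma G1L_PP (z : ℂ) {n : ℕ} (hn : 1 ≤ n) :
    ‖aeval z (PPn n)‖ = |(cstN n : ℝ)| * ‖2 * z + ((18 * n : ℕ) : ℂ)‖ *
      ((∏ m ∈ Finset.Icc 1 (2 * n), ‖z + m‖ ^ 9) *
        (∏ m ∈ Finset.Icc (16 * n) (18 * n - 1), ‖z + m‖ ^ 9)) := by
  have e2 : Finset.Icc (18 * n - 2 * n) (18 * n - 1) = Finset.Icc (16 * n) (18 * n - 1) := by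
    ext m; rw [Finset.mem_Icc, Finset.mem_Icc]; omega
  have h1 : PPn n = C (cstN n) * (2 * X + C (18 * n : ℚ)) * NN 9 18 2 n := rfl
  rw [h1, NN_eq 9 18 2 n (by norm_num) (by omega), e2]
  simp only [map_mul, map_prod, map_pow, map_add, aeval_X, aeval_C, norm_mul, norm_prod, norm_pow,
    eq_ratCast, map_natCast, map_ofNat, Complex.norm_ratCast]
  push_cast
  rfl

lemma G1L_QQ (z : ℂ) {n : ℕ} (hn : 1 ≤ n) :
    ‖aeval z (QQ (sN n) (muN n))‖ = ∏ m ∈ Finset.Icc (3 * n) (15 * n), ‖z + m‖ ^ 20 := by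
  unfold QQ
  simp only [map_prod, map_pow, map_add, aeval_X, norm_prod, norm_pow,
    map_natCast]
  have h1 := prod_mu 18 2 n ds20 hn (by intro d hd; simp [ds20] at hd; omega)
    (by intro d hd; simp [ds20] at hd; omega) (fun m => ‖z + (m : ℂ)‖)
  have e1 : Finset.Icc (3 * n) (18 * n - 3 * n) = Finset.Icc (3 * n) (15 * n) := by
    ext m; rw [Finset.mem_Icc, Finset.mem_Icc]; omega
  refine h1.trans ?_
  simp only [ds20, List.map_cons, List.map_nil, List.prod_cons, List.prod_nil, e1]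
  rw [Finset.prod_pow]
  ring

lemma G1L_zpos (U m : ℕ) (r : ℝ) (hm : 1 ≤ m) (hr : 0 ≤ r) : 0 < qd ((U : ℝ) - 1 / 2 + m) r := by
  unfold qd
  have h1 : (1 : ℝ) ≤ m := by exact_mod_cast hm
  have h2 : (0 : ℝ) ≤ U := by positivity
  have h3 : 0 < (U : ℝ) - 1 / 2 + m + r := by linarith
  positivity

/-- the square of `|R|` as a product -/
lemma G1L_Rv (U : ℕ) {n : ℕ} (hn : 1 ≤ n) (r : ℝ) :
    ‖Rv n (zv U r)‖ ^ 2 = ((cstN n : ℚ) : ℝ) ^ 2 * (4 * qd ((U : ℝ) - 1 / 2 + 9 * n) r) *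
      ((∏ j ∈ Finset.range (2 * n), qd ((U : ℝ) + j + 1 / 2) r) ^ 9 *
        (∏ j ∈ Finset.range (2 * n), qd ((U : ℝ) + 16 * n + j - 1 / 2) r) ^ 9) /
      (∏ j ∈ Finset.range (12 * n + 1), qd ((U : ℝ) + 3 * n + j - 1 / 2) r) ^ 20 := by
  have hz : ∀ (b : ℕ) (s : Finset ℕ), (∏ m ∈ s, ‖zv U r + (m : ℂ)‖ ^ b) ^ 2 =
      (∏ m ∈ s, qd ((U : ℝ) - 1 / 2 + m) r) ^ b := by
    intro b s
    rw [← Finset.prod_pow, ← Finset.prod_pow]
    refine Finset.prod_congr rfl fun m _ => ?_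
    rw [← pow_mul, mul_comm b 2, pow_mul, G1L_norm]
  unfold Rv
  rw [norm_div, div_pow, G1L_PP _ hn, G1L_QQ _ hn, mul_pow, mul_pow, mul_pow, hz 9, hz 9, hz 20,
    G1L_norm2, sq_abs, G1L_prodIcc 1 (2 * n) (2 * n) (by omega),
    G1L_prodIcc (16 * n) (18 * n - 1) (2 * n) (by omega),
    G1L_prodIcc (3 * n) (15 * n) (12 * n + 1) (by omega)]
  congr 1
  · congr 1
    congr 1
    · congr 1
      refine Finset.prod_congr rfl fun j _ => ?_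
      congr 1
      push_cast
      ring
    · congr 1
      refine Finset.prod_congr rfl fun j _ => ?_
      congr 1
      push_cast
      ring
  · congr 1
    refine Finset.prod_congr rfl fun j _ => ?_
    congr 1
    push_cast
    ring

lemma G1L_scale (a : ℝ) (w ρ : ℝ) : qd (a * w) (a * ρ) = a ^ 2 * qd w ρ := by
  unfold qd
  ring

lemma G1L_shift (w s r : ℝ) (hw : 0 < w) (hs : 0 ≤ s) (hr : 0 ≤ r) :
    qd (w + s) r ≤ (1 + s / w) ^ 2 * qd w r := by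
  unfold qd
  have h1 : (1 + s / w) ^ 2 * ((w + r) ^ 2 + r ^ 2) =
      ((1 + s / w) * (w + r)) ^ 2 + (1 + s / w) ^ 2 * r ^ 2 := by ring
  rw [h1]
  have h2 : (1 + s / w) * (w + r) = w + s + r + s / w * r := by
    field_simp
    ring
  have h3 : 0 ≤ s / w := by positivity
  have h4 : 0 ≤ s / w * r := by positivity
  have h5 : (w + s + r) ^ 2 ≤ ((1 + s / w) * (w + r)) ^ 2 := by
    rw [h2]
    apply pow_le_pow_left₀ (by linarith)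
    linarith
  have h6 : r ^ 2 ≤ (1 + s / w) ^ 2 * r ^ 2 := by
    have : (1 : ℝ) ≤ (1 + s / w) ^ 2 := one_le_pow₀ (by linarith)
    nlinarith [sq_nonneg r]
  linarith

lemma G1L_shift_prod (A s r : ℝ) (L : ℕ) (hA : 0 < A) (hs : 0 ≤ s) (hr : 0 ≤ r) :
    ∏ j ∈ Finset.range L, qd (A + j + 1 / 2 + s) r ≤
      Real.exp (2 * s * L / A) * ∏ j ∈ Finset.range L, qd (A + j + 1 / 2) r := by
  have h0 : Real.exp (2 * s * L / A) = ∏ _j ∈ Finset.range L, Real.exp (2 * s / A) := by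
    rw [Finset.prod_const, Finset.card_range, ← Real.exp_nat_mul]
    congr 1
    ring
  rw [h0, ← Finset.prod_mul_distrib]
  refine Finset.prod_le_prod (fun j _ => G1m_qd_nonneg _ _) fun j _ => ?_
  have hw : 0 < A + (j : ℝ) + 1 / 2 := by positivity
  refine (G1L_shift _ s r hw hs hr).trans ?_
  apply mul_le_mul_of_nonneg_right _ (G1m_qd_nonneg _ _)
  have h1 : 1 + s / (A + (j : ℝ) + 1 / 2) ≤ Real.exp (s / A) := by
    have h2 : s / (A + (j : ℝ) + 1 / 2) ≤ s / A := by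
      apply div_le_div_of_nonneg_left hs hA
      have : (0 : ℝ) ≤ j := by positivity
      linarith
    have h3 := Real.add_one_le_exp (s / A)
    linarith
  calc (1 + s / (A + (j : ℝ) + 1 / 2)) ^ 2 ≤ Real.exp (s / A) ^ 2 :=
        pow_le_pow_left₀ (by positivity) h1 2
    _ = Real.exp (2 * s / A) := by
        rw [← Real.exp_nat_mul]
        congr 1
        push_cast
        ring

/-- `M` blocks of `N` zeros, midpoints -/
lemma G1L_mid (N M : ℕ) (a₀ ρ : ℝ) (ha : 0 ≤ a₀) (hρ : 0 ≤ ρ) :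
    ∏ j ∈ Finset.range (M * N), qd (N * a₀ + j + 1 / 2) (N * ρ) ≤
      ((N : ℝ) ^ 2) ^ (M * N) * (∏ a ∈ Finset.range M, qd (a₀ + a + 1 / 2) ρ) ^ N := by
  induction M with
  | zero => simp
  | succ M ih =>
    rw [Nat.succ_mul, Finset.prod_range_add, Finset.prod_range_succ, mul_pow, pow_add]
    have h1 : ∏ j ∈ Finset.range N, qd (N * a₀ + ((M * N + j : ℕ) : ℝ) + 1 / 2) (N * ρ) ≤
        ((N : ℝ) ^ 2) ^ N * qd (a₀ + M + 1 / 2) ρ ^ N := by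
      have h2 := G1_mid (N * (a₀ + M)) N (N * ρ) (by positivity) (by positivity)
      have h3 : (N : ℝ) * (a₀ + M) + N / 2 = N * (a₀ + M + 1 / 2) := by ring
      rw [h3, G1L_scale, mul_pow] at h2
      refine le_trans (le_of_eq ?_) h2
      refine Finset.prod_congr rfl fun j _ => ?_
      congr 1
      push_cast
      ring
    calc _ ≤ (((N : ℝ) ^ 2) ^ (M * N) * (∏ a ∈ Finset.range M, qd (a₀ + a + 1 / 2) ρ) ^ N) *
          (((N : ℝ) ^ 2) ^ N * qd (a₀ + M + 1 / 2) ρ ^ N) := by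
          apply mul_le_mul ih h1
          · exact Finset.prod_nonneg fun j _ => G1m_qd_nonneg _ _
          · have : 0 ≤ ∏ a ∈ Finset.range M, qd (a₀ + a + 1 / 2) ρ :=
              Finset.prod_nonneg fun j _ => G1m_qd_nonneg _ _
            positivity
      _ = _ := by ring

/-- `M` blocks of `N` poles, trapezoids -/
lemma G1L_trap (N M : ℕ) (a₀ θ ρ : ℝ) (hN : 1 ≤ N) (ha : 0 < a₀) (hρ : 0 ≤ ρ) (hθ : 1 / 2 ≤ θ) :
    ((N : ℝ) ^ 4) ^ (M * N) *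
        (∏ a ∈ Finset.range M, (qd (a₀ + a) ρ * qd (a₀ + a + 1) ρ)) ^ N ≤
      (∏ j ∈ Finset.range (M * N), qd (N * a₀ + j + θ) (N * ρ)) ^ 2 := by
  induction M with
  | zero => simp
  | succ M ih =>
    have e0 := Finset.prod_range_add (fun j : ℕ => qd (N * a₀ + j + θ) (N * ρ)) (M * N) N
    rw [Nat.succ_mul, e0, Finset.prod_range_succ, mul_pow (_ : ℝ) _ N, pow_add, mul_pow _ _ 2]
    have hN0 : (0 : ℝ) < N := by exact_mod_cast hN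
    have h1 : ((N : ℝ) ^ 4) ^ N * (qd (a₀ + M) ρ * qd (a₀ + M + 1) ρ) ^ N ≤
        (∏ j ∈ Finset.range N, qd (N * a₀ + ((M * N + j : ℕ) : ℝ) + θ) (N * ρ)) ^ 2 := by
      have h2 := G1_trap (N * (a₀ + M)) θ N (N * ρ) (by positivity) (by positivity) hθ
      have h3 : (N : ℝ) * (a₀ + M) + N = N * (a₀ + M + 1) := by ring
      rw [h3, G1L_scale, G1L_scale] at h2
      have h4 : (∏ j ∈ Finset.range N, qd (N * a₀ + ((M * N + j : ℕ) : ℝ) + θ) (N * ρ)) =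
          ∏ j ∈ Finset.range N, qd (N * (a₀ + M) + j + θ) (N * ρ) := by
        refine Finset.prod_congr rfl fun j _ => ?_
        congr 1
        push_cast
        ring
      rw [h4]
      refine le_trans (le_of_eq ?_) h2
      rw [← mul_pow]
      congr 1
      ring
    calc _ = (((N : ℝ) ^ 4) ^ (M * N) *
          (∏ a ∈ Finset.range M, (qd (a₀ + a) ρ * qd (a₀ + a + 1) ρ)) ^ N) *
          (((N : ℝ) ^ 4) ^ N * (qd (a₀ + M) ρ * qd (a₀ + M + 1) ρ) ^ N) := by ring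
      _ ≤ _ := by
          apply mul_le_mul ih h1
          · have h5 := G1m_qd_nonneg (a₀ + M) ρ
            have h6 := G1m_qd_nonneg (a₀ + M + 1) ρ
            positivity
          · positivity

lemma G1L_Y (n N : ℕ) (w ρ : ℝ) (hn : n = 24 * N + 1) (hρ : 0 ≤ ρ) (hw : |w| ≤ 500 * n) :
    qd w (N * ρ) ≤ (1000 * n * (1 + ρ)) ^ 2 := by
  unfold qd
  have h1 : (N : ℝ) ≤ n := by
    rw [hn]; push_cast
    have : (0 : ℝ) ≤ N := by positivity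
    linarith
  have h2 : (N : ℝ) * ρ ≤ n * ρ := mul_le_mul_of_nonneg_right h1 hρ
  have h0 : 0 ≤ (N : ℝ) * ρ := by positivity
  have h3 : (w + N * ρ) ^ 2 ≤ (500 * n + n * ρ) ^ 2 := by
    rw [← sq_abs]
    apply pow_le_pow_left₀ (abs_nonneg _)
    calc |w + N * ρ| ≤ |w| + |N * ρ| := abs_add_le _ _
      _ ≤ 500 * n + n * ρ := by
          rw [abs_of_nonneg h0]
          linarith
  have h4 : ((N : ℝ) * ρ) ^ 2 ≤ (n * ρ) ^ 2 := pow_le_pow_left₀ h0 h2 2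
  have h5 : (0 : ℝ) ≤ n := by positivity
  have h6 : (0 : ℝ) ≤ (n : ℝ) ^ 2 * ρ := by positivity
  have h7 : (0 : ℝ) ≤ (n : ℝ) ^ 2 * ρ ^ 2 := by positivity
  have h8 : (0 : ℝ) ≤ (n : ℝ) ^ 2 := by positivity
  nlinarith

/-- `(1+ρ)^K` is absorbed -/
lemma G1L_extra (K : ℕ) : ∃ C : ℝ, 0 < C ∧ ∀ N : ℕ, 1 ≤ N → ∀ ρ : ℝ, 0 ≤ ρ →
    (1 + ρ) ^ K * Real.exp (-(2 * Real.pi * (N * ρ))) ^ 2 ≤ C * Real.exp (-(314 / 25) * ρ) ^ N := by
  refine ⟨K.factorial * (500 / 3) ^ K * Real.exp (3 / 500), by positivity, fun N hN ρ hρ => ?_⟩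
  have hN1 : (1 : ℝ) ≤ N := by exact_mod_cast hN
  have h1 : (3 / 500 * (1 + ρ)) ^ K / K.factorial ≤ Real.exp (3 / 500 * (1 + ρ)) :=
    Real.pow_div_factorial_le_exp _ (by positivity) K
  rw [div_le_iff₀ (by positivity), mul_pow] at h1
  have h2 : (1 + ρ) ^ K ≤ K.factorial * (500 / 3) ^ K * Real.exp (3 / 500 * (1 + ρ)) := by
    have h3 : (1 + ρ) ^ K = (500 / 3) ^ K * ((3 / 500) ^ K * (1 + ρ) ^ K) := by
      rw [← mul_assoc, ← mul_pow]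
      norm_num
    rw [h3]
    calc (500 / 3 : ℝ) ^ K * ((3 / 500) ^ K * (1 + ρ) ^ K)
        ≤ (500 / 3 : ℝ) ^ K * (Real.exp (3 / 500 * (1 + ρ)) * K.factorial) :=
          mul_le_mul_of_nonneg_left h1 (by positivity)
      _ = _ := by ring
  have h4 : Real.exp (3 / 500 * (1 + ρ)) * Real.exp (-(2 * Real.pi * (N * ρ))) ^ 2 ≤
      Real.exp (3 / 500) * Real.exp (-(314 / 25) * ρ) ^ N := by
    rw [← Real.exp_nat_mul, ← Real.exp_nat_mul, ← Real.exp_add, ← Real.exp_add]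
    apply Real.exp_le_exp.mpr
    have hpi := Real.pi_gt_d4
    have h5 : 0 ≤ (N : ℝ) * ρ := by positivity
    have h6 : ρ ≤ N * ρ := by nlinarith
    have h7 : 0 ≤ (Real.pi - 3.1415) * (N * ρ) := mul_nonneg (by linarith) h5
    push_cast
    nlinarith
  calc (1 + ρ) ^ K * Real.exp (-(2 * Real.pi * (N * ρ))) ^ 2
      ≤ (K.factorial * (500 / 3) ^ K * Real.exp (3 / 500 * (1 + ρ))) *
        Real.exp (-(2 * Real.pi * (N * ρ))) ^ 2 :=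
        mul_le_mul_of_nonneg_right h2 (by positivity)
    _ = K.factorial * (500 / 3) ^ K * (Real.exp (3 / 500 * (1 + ρ)) *
        Real.exp (-(2 * Real.pi * (N * ρ))) ^ 2) := by ring
    _ ≤ K.factorial * (500 / 3) ^ K * (Real.exp (3 / 500) * Real.exp (-(314 / 25) * ρ) ^ N) :=
        mul_le_mul_of_nonneg_left h4 (by positivity)
    _ = _ := by ring

lemma G1L_alg (R2 cst2 q Z1 Z2 P gp ga gb u v w Y C0 e4 : ℝ) (hR : R2 = cst2 * (4 * q) * (Z1 ^ 9 * Z2 ^ 9) / P ^ 20)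
    (hP : 0 < P) (hu : 0 < u) (hv : 0 < v) (hw : 0 < w) (huv : w * u ^ 18 = v ^ 10)
    (hgp : 0 ≤ gp) (hga : 0 ≤ ga) (hgb : 0 ≤ gb) (hY : 0 ≤ Y) (hC0 : 0 ≤ C0)
    (he : 0 ≤ e4) (hq0 : 0 ≤ q) (hc0 : 0 ≤ cst2) (hZ10 : 0 ≤ Z1) (hZ20 : 0 ≤ Z2)
    (h1 : Z1 ≤ u * ga * Y ^ 4) (h2 : Z2 ≤ e4 * (u * gb) * Y ^ 4)
    (h3 : v * gp ≤ P ^ 2) (h4 : cst2 ≤ C0 * w) (h5 : q ≤ Y ^ 2) :
    R2 * gp ^ 10 ≤ C0 * 4 * e4 ^ 9 * (ga ^ 9 * gb ^ 9) * Y ^ 74 := by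
  have hR0 : 0 ≤ R2 := by rw [hR]; positivity
  have h6 : (v * gp) ^ 10 ≤ (P ^ 2) ^ 10 := pow_le_pow_left₀ (by positivity) h3 10
  have h7 : R2 * P ^ 20 = cst2 * (4 * q) * (Z1 ^ 9 * Z2 ^ 9) := by
    rw [hR]
    field_simp
  have h8 : Z1 ^ 9 ≤ (u * ga * Y ^ 4) ^ 9 := pow_le_pow_left₀ hZ10 h1 9
  have h9 : Z2 ^ 9 ≤ (e4 * (u * gb) * Y ^ 4) ^ 9 := pow_le_pow_left₀ hZ20 h2 9
  have h10 : R2 * gp ^ 10 * v ^ 10 ≤ C0 * 4 * e4 ^ 9 * (ga ^ 9 * gb ^ 9) * Y ^ 74 * v ^ 10 := by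
    calc R2 * gp ^ 10 * v ^ 10 = R2 * (v * gp) ^ 10 := by ring
      _ ≤ R2 * (P ^ 2) ^ 10 := mul_le_mul_of_nonneg_left h6 hR0
      _ = R2 * P ^ 20 := by ring
      _ = cst2 * (4 * q) * (Z1 ^ 9 * Z2 ^ 9) := h7
      _ ≤ (C0 * w) * (4 * Y ^ 2) * ((u * ga * Y ^ 4) ^ 9 * (e4 * (u * gb) * Y ^ 4) ^ 9) := by
          gcongr
      _ = C0 * 4 * e4 ^ 9 * (ga ^ 9 * gb ^ 9) * Y ^ 74 * (w * u ^ 18) := by ring
      _ = _ := by rw [huv]
  exact le_of_mul_le_mul_right h10 (by positivity)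

/-- the comparison on the contour starting at `c N - 1/2` -/
theorem G1L_gen (c : ℕ) (hc : c ≤ 24)
    (hcst : ∃ (C : ℝ) (K : ℕ), 0 < C ∧ ∀ N : ℕ, 1 ≤ N → ∀ n : ℕ, n = 24 * N + 1 →
      ((cstN n : ℚ) : ℝ) ^ 2 ≤ C * (n : ℝ) ^ K * Real.exp (Lam * N) * (N : ℝ) ^ (9792 * N)) :
    ∃ (C : ℝ) (K : ℕ), 0 < C ∧ ∀ N : ℕ, 1 ≤ N → ∀ n : ℕ, n = 24 * N + 1 → ∀ ρ : ℝ, 0 ≤ ρ →
    (‖Rv n (zv (c * N) (N * ρ))‖ * ‖xv n (zv (c * N) (N * ρ))‖ ^ 500 * Real.exp (-(2 * Real.pi * (N * ρ))) *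
      (1 + (N * ρ) ^ 2)) ^ 2 *
      ((∏ a ∈ Finset.range 288, (qd ((c : ℝ) + 72 + a) ρ * qd ((c : ℝ) + 72 + a + 1) ρ)) ^ 10) ^ N ≤
    C * (n : ℝ) ^ K * Real.exp (Lam * N) * (Real.exp (-(314 / 25) * ρ) *
      ((∏ a ∈ Finset.range 48, qd ((c : ℝ) + a + 1 / 2) ρ) ^ 9 *
        (∏ a ∈ Finset.range 48, qd ((c : ℝ) + 384 + a + 1 / 2) ρ) ^ 9)) ^ N := by
  obtain ⟨C0, K0, hC0, hcst⟩ := hcst
  obtain ⟨κ, hκ⟩ : ∃ κ : ℕ, κ = 2078 := ⟨_, rfl⟩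
  obtain ⟨C1, hC1, hex⟩ := G1L_extra κ
  obtain ⟨D, hD⟩ : ∃ D : ℝ, D = 1000 ^ κ := ⟨_, rfl⟩
  have hD0 : 0 < D := by rw [hD]; exact pow_pos (by norm_num) _
  refine ⟨C0 * 4 * Real.exp 4 ^ 9 * D * C1, K0 + κ, by positivity, ?_⟩
  intro N hN n hn ρ hρ
  have hN0 : (0 : ℝ) < N := by exact_mod_cast hN
  have hn1 : 1 ≤ n := by omega
  have hnR : (n : ℝ) = 24 * N + 1 := by rw [hn]; push_cast; ring
  have hc0 : (0 : ℝ) ≤ c := by positivity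
  have hc24 : (c : ℝ) ≤ 24 := by exact_mod_cast hc
  have hcN : (c : ℝ) * N ≤ n := by nlinarith
  have hcN0 : (0 : ℝ) ≤ (c : ℝ) * N := by positivity
  set r : ℝ := N * ρ with hr
  have hr0 : 0 ≤ r := by positivity
  set Y : ℝ := 1000 * n * (1 + ρ) with hY
  have hY0 : 0 ≤ Y := by positivity
  have hqY : ∀ w : ℝ, |w| ≤ 500 * n → qd w r ≤ Y ^ 2 := fun w hw => G1L_Y n N w ρ hn hρ hw
  have hUcast : ((c * N : ℕ) : ℝ) = c * N := by push_cast; ring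
  have hn1R : (1 : ℝ) ≤ n := by exact_mod_cast hn1
  obtain ⟨u, hu⟩ : ∃ u : ℝ, u = ((N : ℝ) ^ 2) ^ (48 * N) := ⟨_, rfl⟩
  obtain ⟨v, hv⟩ : ∃ v : ℝ, v = ((N : ℝ) ^ 4) ^ (288 * N) := ⟨_, rfl⟩
  obtain ⟨w, hw⟩ : ∃ w : ℝ, w = (N : ℝ) ^ (9792 * N) := ⟨_, rfl⟩
  have hu0 : 0 < u := by rw [hu]; exact pow_pos (pow_pos hN0 _) _
  have hv0 : 0 < v := by rw [hv]; exact pow_pos (pow_pos hN0 _) _
  have hw0 : 0 < w := by rw [hw]; exact pow_pos hN0 _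
  have huv : w * u ^ 18 = v ^ 10 := by
    rw [hu, hv, hw, ← pow_mul, ← pow_mul, ← pow_mul, ← pow_mul, ← pow_add]
    congr 1
    ring
  -- zeros 1
  have hZ1 : ∏ j ∈ Finset.range (2 * n), qd (((c * N : ℕ) : ℝ) + j + 1 / 2) r ≤
      u * (∏ a ∈ Finset.range 48, qd ((c : ℝ) + a + 1 / 2) ρ) ^ N * Y ^ 4 := by
    have e : 2 * n = 48 * N + 1 + 1 := by omega
    rw [e, Finset.prod_range_succ, Finset.prod_range_succ, mul_assoc]
    have h1 := G1L_mid N 48 c ρ hc0 hρ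
    rw [← hu] at h1
    have e2 : ∏ j ∈ Finset.range (48 * N), qd (((c * N : ℕ) : ℝ) + j + 1 / 2) r =
        ∏ j ∈ Finset.range (48 * N), qd (N * c + j + 1 / 2) (N * ρ) := by
      refine Finset.prod_congr rfl fun j _ => ?_
      rw [hUcast, mul_comm (c : ℝ)]
    rw [e2]
    have h2 : qd (((c * N : ℕ) : ℝ) + ((48 * N : ℕ) : ℝ) + 1 / 2) r ≤ Y ^ 2 := by
      apply hqY
      rw [hUcast, abs_of_nonneg (by positivity)]
      push_cast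
      nlinarith
    have h3 : qd (((c * N : ℕ) : ℝ) + ((48 * N + 1 : ℕ) : ℝ) + 1 / 2) r ≤ Y ^ 2 := by
      apply hqY
      rw [hUcast, abs_of_nonneg (by positivity)]
      push_cast
      nlinarith
    have h4 : qd (((c * N : ℕ) : ℝ) + ((48 * N : ℕ) : ℝ) + 1 / 2) r *
        qd (((c * N : ℕ) : ℝ) + ((48 * N + 1 : ℕ) : ℝ) + 1 / 2) r ≤ Y ^ 4 := by
      calc _ ≤ Y ^ 2 * Y ^ 2 := mul_le_mul h2 h3 (G1m_qd_nonneg _ _) (by positivity)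
        _ = Y ^ 4 := by ring
    refine mul_le_mul h1 h4 (mul_nonneg (G1m_qd_nonneg _ _) (G1m_qd_nonneg _ _)) ?_
    have : 0 ≤ ∏ a ∈ Finset.range 48, qd ((c : ℝ) + a + 1 / 2) ρ :=
      Finset.prod_nonneg fun j _ => G1m_qd_nonneg _ _
    positivity
  -- zeros 2
  have hZ2 : ∏ j ∈ Finset.range (2 * n), qd (((c * N : ℕ) : ℝ) + 16 * n + j - 1 / 2) r ≤
      Real.exp 4 * (u *
        (∏ a ∈ Finset.range 48, qd ((c : ℝ) + 384 + a + 1 / 2) ρ) ^ N) * Y ^ 4 := by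
    have e : 2 * n = 48 * N + 1 + 1 := by omega
    rw [e, Finset.prod_range_succ, Finset.prod_range_succ, mul_assoc]
    have h1 := G1L_mid N 48 (c + 384) ρ (by positivity) hρ
    rw [← hu] at h1
    have h0 := G1L_shift_prod (N * (c + 384)) 15 r (48 * N) (by positivity) (by norm_num) hr0
    have e2 : ∏ j ∈ Finset.range (48 * N), qd (((c * N : ℕ) : ℝ) + 16 * n + j - 1 / 2) r =
        ∏ j ∈ Finset.range (48 * N), qd (N * (c + 384) + j + 1 / 2 + 15) r := by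
      refine Finset.prod_congr rfl fun j _ => ?_
      congr 1
      rw [hUcast, hnR]
      ring
    rw [e2]
    have h5 : Real.exp (2 * 15 * ((48 * N : ℕ) : ℝ) / (N * (c + 384))) ≤ Real.exp 4 := by
      apply Real.exp_le_exp.mpr
      rw [div_le_iff₀ (by positivity)]
      push_cast
      nlinarith
    have h6 : ∏ j ∈ Finset.range (48 * N), qd (N * ((c : ℝ) + 384) + j + 1 / 2 + 15) r ≤
        Real.exp 4 * (u *
        (∏ a ∈ Finset.range 48, qd ((c : ℝ) + 384 + a + 1 / 2) ρ) ^ N) := by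
      refine h0.trans ?_
      apply mul_le_mul h5 h1
      · exact Finset.prod_nonneg fun j _ => G1m_qd_nonneg _ _
      · positivity
    have h2 : qd (((c * N : ℕ) : ℝ) + 16 * n + ((48 * N : ℕ) : ℝ) - 1 / 2) r ≤ Y ^ 2 := by
      apply hqY
      rw [hUcast, abs_of_nonneg (by push_cast; nlinarith)]
      push_cast
      nlinarith
    have h3 : qd (((c * N : ℕ) : ℝ) + 16 * n + ((48 * N + 1 : ℕ) : ℝ) - 1 / 2) r ≤ Y ^ 2 := by
      apply hqY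
      rw [hUcast, abs_of_nonneg (by push_cast; nlinarith)]
      push_cast
      nlinarith
    have h4 : qd (((c * N : ℕ) : ℝ) + 16 * n + ((48 * N : ℕ) : ℝ) - 1 / 2) r *
        qd (((c * N : ℕ) : ℝ) + 16 * n + ((48 * N + 1 : ℕ) : ℝ) - 1 / 2) r ≤ Y ^ 4 := by
      calc _ ≤ Y ^ 2 * Y ^ 2 := mul_le_mul h2 h3 (G1m_qd_nonneg _ _) (by positivity)
        _ = Y ^ 4 := by ring
    refine mul_le_mul h6 h4 (mul_nonneg (G1m_qd_nonneg _ _) (G1m_qd_nonneg _ _)) ?_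
    have : 0 ≤ ∏ a ∈ Finset.range 48, qd ((c : ℝ) + 384 + a + 1 / 2) ρ :=
      Finset.prod_nonneg fun j _ => G1m_qd_nonneg _ _
    positivity
  -- poles
  have hPpos : 0 < ∏ j ∈ Finset.range (12 * n + 1), qd (((c * N : ℕ) : ℝ) + 3 * n + j - 1 / 2) r := by
    refine Finset.prod_pos fun j _ => ?_
    unfold qd
    have h1 : (0 : ℝ) ≤ j := by positivity
    have h2 : 0 < ((c * N : ℕ) : ℝ) + 3 * n + j - 1 / 2 + r := by
      rw [hUcast]; linarith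
    positivity
  have hP : v *
      (∏ a ∈ Finset.range 288, (qd ((c : ℝ) + 72 + a) ρ * qd ((c : ℝ) + 72 + a + 1) ρ)) ^ N ≤
      (∏ j ∈ Finset.range (12 * n + 1), qd (((c * N : ℕ) : ℝ) + 3 * n + j - 1 / 2) r) ^ 2 := by
    have h1 := G1L_trap N 288 (c + 72) (5 / 2) ρ hN (by positivity) hρ (by norm_num)
    rw [← hv] at h1
    refine h1.trans ?_
    have e : 12 * n + 1 = 288 * N + 13 := by omega
    rw [e, Finset.prod_range_add]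
    have e2 : ∏ j ∈ Finset.range (288 * N), qd (((c * N : ℕ) : ℝ) + 3 * n + j - 1 / 2) r =
        ∏ j ∈ Finset.range (288 * N), qd (N * ((c : ℝ) + 72) + j + 5 / 2) (N * ρ) := by
      refine Finset.prod_congr rfl fun j _ => ?_
      rw [← hr]
      congr 1
      rw [hUcast, hnR]
      ring
    rw [e2]
    have h0 : 0 ≤ ∏ j ∈ Finset.range (288 * N), qd (N * ((c : ℝ) + 72) + j + 5 / 2) (N * ρ) :=
      Finset.prod_nonneg fun j _ => G1m_qd_nonneg _ _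
    apply pow_le_pow_left₀ h0
    apply le_mul_of_one_le_right h0
    have h2 : (1 : ℝ) = ∏ _j ∈ Finset.range 13, (1 : ℝ) := by simp
    rw [h2]
    refine Finset.prod_le_prod (fun _ _ => zero_le_one) fun j _ => ?_
    unfold qd
    have h3 : (0 : ℝ) ≤ ((288 * N + j : ℕ) : ℝ) := by positivity
    have h4 : 1 ≤ ((c * N : ℕ) : ℝ) + 3 * n + ((288 * N + j : ℕ) : ℝ) - 1 / 2 + r := by
      rw [hUcast]; linarith
    have h5 : (1 : ℝ) ≤ (((c * N : ℕ) : ℝ) + 3 * n + ((288 * N + j : ℕ) : ℝ) - 1 / 2 + r) ^ 2 :=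
      one_le_pow₀ h4
    nlinarith [sq_nonneg r]
  have hcst' := hcst N hN n hn
  rw [← hw] at hcst'
  have hq9 : qd (((c * N : ℕ) : ℝ) - 1 / 2 + 9 * n) r ≤ Y ^ 2 := by
    apply hqY
    rw [hUcast, abs_of_nonneg (by linarith)]
    linarith
  have hA := G1L_alg _ _ _ _ _ _
    ((∏ a ∈ Finset.range 288, (qd ((c : ℝ) + 72 + a) ρ * qd ((c : ℝ) + 72 + a + 1) ρ)) ^ N)
    ((∏ a ∈ Finset.range 48, qd ((c : ℝ) + a + 1 / 2) ρ) ^ N)
    ((∏ a ∈ Finset.range 48, qd ((c : ℝ) + 384 + a + 1 / 2) ρ) ^ N)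
    u v w Y (C0 * (n : ℝ) ^ K0 * Real.exp (Lam * N)) (Real.exp 4)
    (G1L_Rv (c * N) hn1 r) hPpos hu0 hv0 hw0 huv
    (pow_nonneg (Finset.prod_nonneg fun j _ => mul_nonneg (G1m_qd_nonneg _ _) (G1m_qd_nonneg _ _)) _)
    (pow_nonneg (Finset.prod_nonneg fun j _ => G1m_qd_nonneg _ _) _)
    (pow_nonneg (Finset.prod_nonneg fun j _ => G1m_qd_nonneg _ _) _)
    hY0 (by positivity) (by positivity) (G1m_qd_nonneg _ _) (sq_nonneg _)
    (Finset.prod_nonneg fun j _ => G1m_qd_nonneg _ _)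
    (Finset.prod_nonneg fun j _ => G1m_qd_nonneg _ _) hZ1 hZ2 hP hcst' hq9
  -- the other factors
  have hx : ‖xv n (zv (c * N) r)‖ ^ 2 ≤ Y ^ 4 := by
    unfold xv
    rw [norm_mul, mul_pow, G1L_norm0, G1L_norm]
    have h1 : qd (((c * N : ℕ) : ℝ) - 1 / 2) r ≤ Y ^ 2 := by
      apply hqY
      rw [hUcast, abs_le]
      constructor <;> linarith
    have h2 : qd (((c * N : ℕ) : ℝ) - 1 / 2 + ((18 * n : ℕ) : ℝ)) r ≤ Y ^ 2 := by
      apply hqY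
      rw [hUcast, abs_le]
      push_cast
      constructor <;> linarith
    calc _ ≤ Y ^ 2 * Y ^ 2 := mul_le_mul h1 h2 (G1m_qd_nonneg _ _) (by positivity)
      _ = Y ^ 4 := by ring
  have hs : 1 + r ^ 2 ≤ Y ^ 2 := by
    have h1 : r ≤ n * ρ := by
      rw [hr]
      apply mul_le_mul_of_nonneg_right _ hρ
      rw [hnR]; linarith
    have h2 : r ^ 2 ≤ (n * ρ) ^ 2 := pow_le_pow_left₀ hr0 h1 2
    rw [hY]
    have h3 : (0 : ℝ) ≤ (n : ℝ) ^ 2 * ρ := by positivity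
    have h4 : (0 : ℝ) ≤ (n : ℝ) ^ 2 * ρ ^ 2 := by positivity
    have h5 : (1 : ℝ) ≤ (n : ℝ) ^ 2 := one_le_pow₀ hn1R
    nlinarith
  have hx500 : (‖xv n (zv (c * N) r)‖ ^ 2) ^ 500 ≤ (Y ^ 4) ^ 500 :=
    pow_le_pow_left₀ (by positivity) hx 500
  have hs2 : (1 + r ^ 2) ^ 2 ≤ (Y ^ 2) ^ 2 := pow_le_pow_left₀ (by positivity) hs 2
  have hE := hex N hN ρ hρ
  rw [← hr] at hE
  have hY846 : Y ^ κ = D * (n : ℝ) ^ κ * (1 + ρ) ^ κ := by
    rw [hY, mul_pow, mul_pow, hD]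
  have hYκ : Y ^ 74 * ((Y ^ 4) ^ 500 * (Y ^ 2) ^ 2) = Y ^ κ := by
    rw [hκ, ← pow_mul, ← pow_mul, ← pow_add, ← pow_add]
  obtain ⟨X4, hX4⟩ : ∃ X4 : ℝ, X4 = (Y ^ 4) ^ 500 := ⟨_, rfl⟩
  have hX40 : 0 ≤ X4 := by rw [hX4]; exact pow_nonneg (pow_nonneg hY0 _) _
  rw [← hX4] at hx500 hYκ
  have e5 : ∀ (b : ℕ) (G : ℝ), (G ^ b) ^ N = (G ^ N) ^ b := fun b G => by rw [← pow_mul, ← pow_mul, mul_comm]
  rw [mul_pow _ (_ * _ : ℝ) N, mul_pow _ _ N, e5 10, e5 9, e5 9, pow_add]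
  generalize ((∏ a ∈ Finset.range 288, (qd ((c : ℝ) + 72 + a) ρ * qd ((c : ℝ) + 72 + a + 1) ρ)) ^ N) = gp at hA ⊢
  have hga : 0 ≤ ((∏ a ∈ Finset.range 48, qd ((c : ℝ) + a + 1 / 2) ρ) ^ N) :=
    pow_nonneg (Finset.prod_nonneg fun j _ => G1m_qd_nonneg _ _) _
  have hgb : 0 ≤ ((∏ a ∈ Finset.range 48, qd ((c : ℝ) + 384 + a + 1 / 2) ρ) ^ N) :=
    pow_nonneg (Finset.prod_nonneg fun j _ => G1m_qd_nonneg _ _) _
  generalize ((∏ a ∈ Finset.range 48, qd ((c : ℝ) + a + 1 / 2) ρ) ^ N) = ga at hA hga ⊢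
  generalize ((∏ a ∈ Finset.range 48, qd ((c : ℝ) + 384 + a + 1 / 2) ρ) ^ N) = gb at hA hgb ⊢
  have hE0 : 0 ≤ Real.exp (-(2 * Real.pi * r)) ^ 2 := by positivity
  have hx0 : 0 ≤ ‖xv n (zv (c * N) r)‖ := norm_nonneg _
  generalize ‖xv n (zv (c * N) r)‖ = x at hx500 hx0 ⊢
  generalize ‖Rv n (zv (c * N) r)‖ = R at hA ⊢
  have hs0 : 0 ≤ 1 + r ^ 2 := by positivity
  generalize 1 + r ^ 2 = s at hs2 hs0 ⊢
  generalize Real.exp (-(2 * Real.pi * r)) = E at hE hE0 ⊢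
  generalize Real.exp (-(314 / 25) * ρ) ^ N = E' at hE ⊢
  have hexp : 0 ≤ Real.exp (Lam * N) := (Real.exp_pos _).le
  generalize Real.exp (Lam * N) = L at hA hexp ⊢
  have he4 : 0 ≤ Real.exp 4 := (Real.exp_pos _).le
  generalize Real.exp 4 = e4 at hA he4 ⊢
  have hnn : (0 : ℝ) ≤ n := by positivity
  obtain ⟨x2, hx2⟩ : ∃ x2 : ℝ, x2 = (x ^ 2) ^ 500 := ⟨_, rfl⟩
  have hx20 : 0 ≤ x2 := by rw [hx2]; exact pow_nonneg (sq_nonneg _) _
  rw [← hx2] at hx500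
  have hxx : (x ^ 500) ^ 2 = x2 := by
    rw [hx2, ← pow_mul, ← pow_mul]
  obtain ⟨nK, hnK⟩ : ∃ nK : ℝ, nK = (n : ℝ) ^ K0 := ⟨_, rfl⟩
  have hnK0 : 0 ≤ nK := by rw [hnK]; positivity
  rw [← hnK] at hA ⊢
  obtain ⟨nκ, hnκ⟩ : ∃ nκ : ℝ, nκ = (n : ℝ) ^ κ := ⟨_, rfl⟩
  have hnκ0 : 0 ≤ nκ := by rw [hnκ]; positivity
  rw [← hnκ] at hY846 ⊢
  calc (R * x ^ 500 * E * s) ^ 2 * gp ^ 10
      = (R ^ 2 * gp ^ 10) * ((x ^ 500) ^ 2 * s ^ 2 * E ^ 2) := by ring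
    _ = (R ^ 2 * gp ^ 10) * (x2 * s ^ 2 * E ^ 2) := by rw [hxx]
    _ ≤ (C0 * nK * L * 4 * e4 ^ 9 * (ga ^ 9 * gb ^ 9) * Y ^ 74) *
        (X4 * (Y ^ 2) ^ 2 * E ^ 2) := by
        apply mul_le_mul hA
        · apply mul_le_mul_of_nonneg_right _ hE0
          exact mul_le_mul hx500 hs2 (by positivity) hX40
        · positivity
        · positivity
    _ = C0 * nK * L * 4 * e4 ^ 9 * (ga ^ 9 * gb ^ 9) * ((Y ^ 74 * (X4 * (Y ^ 2) ^ 2)) * E ^ 2) := by ring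
    _ = C0 * nK * L * 4 * e4 ^ 9 * (ga ^ 9 * gb ^ 9) * D * nκ *
        ((1 + ρ) ^ κ * E ^ 2) := by rw [hYκ, hY846]; ring
    _ ≤ C0 * nK * L * 4 * e4 ^ 9 * (ga ^ 9 * gb ^ 9) * D * nκ * (C1 * E') :=
        mul_le_mul_of_nonneg_left hE (by positivity)
    _ = _ := by ring

end

end Pool.Agent.H343X
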