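import Pool.Agent.H343X.G3L

set_option autoImplicit false

/-! # G3A: numerical certificate (break points in units of `1/80`) -/

namespace Pool.Agent.H343X

namespace G3A

open G3L

/-- break points -/
def br : List ℕ :=
  [39, 97, 147, 192, 238, 297, 367, 421, 493, 604, 677, 742, 828, 968, 1042, 1131, 1252, 1333,
   1440, 1601, 1707, 1838, 1970, 2117, 2356, 2996, 5177, 13734, 57075, 80000]

theorem c1 : chkL PL0 stA lt1 (0 :: br) = true := by
  decide +kernel

theorem c2 : chkT PL0 stA lt1 ((0 :: br).getLast (by simp)) 4 = true := by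
  decide +kernel

end G3A

theorem G3_A (s : ℕ) (hs : s ≤ 4) (ρ : ℝ) (hρ : 0 ≤ ρ) :
    2 ^ 78000 * (Real.exp (-(314 / 25) * ρ) * GZ0 ρ * ∏ s' ∈ Finset.range s, Q1 0 s' ρ) ≤ 2 ^ t1 s * GP0 ρ :=
  G3L.mainA G3A.br (by simp [G3A.br]) G3A.c1 G3A.c2 s hs ρ hρ

end Pool.Agent.H343X
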