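import Pool.Agent.H343X.G3L

set_option autoImplicit false

/-! # G3B: numerical certificate (break points in units of `1/80`) -/

namespace Pool.Agent.H343X

namespace G3B

open G3L

/-- break points -/
def br : List ℕ :=
  [401, 1070, 2256, 5700, 19641, 80000]

theorem c1 : chkL PL1 stB lt1 (0 :: br) = true := by
  decide +kernel

theorem c2 : chkT PL1 stB lt1 ((0 :: br).getLast (by simp)) 4 = true := by
  decide +kernel

end G3B

theorem G3_B (s : ℕ) (hs : s ≤ 4) (ρ : ℝ) (hρ : 0 ≤ ρ) :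
    2 ^ 78000 * (Real.exp (-(314 / 25) * ρ) * GZ1 ρ * ∏ s' ∈ Finset.range s, Q1 24 s' ρ) ≤ 2 ^ t1 s * GP1 ρ :=
  G3L.mainB G3B.br (by simp [G3B.br]) G3B.c1 G3B.c2 s hs ρ hρ

end Pool.Agent.H343X
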