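import Pool.Agent.H343X.G3L

set_option autoImplicit false

/-! # G3C: numerical certificate (break points in units of `1/80`) -/

namespace Pool.Agent.H343X

namespace G3C

open G3L

/-- break points -/
def br : List ℕ :=
  [32, 72, 122, 187, 279, 409, 528, 617, 705, 838, 1030, 1184, 1280, 1364, 1458, 1631, 1912,
   2018, 2110, 2203, 2354, 2676, 2789, 2898, 3002, 3118, 3313, 3628, 3748, 3851, 3958, 4138,
   4475, 4583, 4705, 4872, 5135, 5510, 5651, 5787, 5923, 6122, 6563, 6873, 7038, 7211, 7375,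
   7570, 7915, 8507, 8710, 8922, 9158, 9554, 10101, 10313, 10532, 10749, 11027, 11536, 12523,
   12824, 13144, 13448, 13786, 14361, 15543, 15864, 16288, 16752, 17212, 17704, 18400, 19756,
   22784, 29822, 47243, 99196, 200000]

theorem c1 : chkL PL1 stC lt2 (0 :: br) = true := by
  decide +kernel

theorem c2 : chkT PL1 stC lt2 ((0 :: br).getLast (by simp)) 2 = true := by
  decide +kernel

end G3C

theorem G3_C (s : ℕ) (hs : s ≤ 6) (ρ : ℝ) (hρ : 0 ≤ ρ) :
    2 ^ 78000 * (Real.exp (-(314 / 25) * ρ) * GZ2 ρ * ∏ s' ∈ Finset.range s, Q2 s' ρ) ≤ 2 ^ t2 s * GP1 ρ :=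
  G3L.mainC G3C.br (by simp [G3C.br]) G3C.c1 G3C.c2 s hs ρ hρ

end Pool.Agent.H343X
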