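import Pool.Agent.H343X.Defs

/-!
# The local Hankel determinant is nonzero (task H5)

Everything is computed modulo `101`; the certificate is the inverse matrix.
-/

set_option autoImplicit false

open Polynomial Pool.Agent.H337R2

namespace Pool.Agent.H343X

namespace H5

theorem prime101 : Nat.Prime 101 := by norm_num

local instance fact101 : Fact (Nat.Prime 101) := ⟨prime101⟩

/-- `x` is integral at `101` with residue `a` -/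
def Rd (x : ℚ) (a : ZMod 101) : Prop := ∃ m : ℤ, (m : ZMod 101) = a ∧ padicNorm 101 (x - m) < 1

theorem Rd.le_one {x : ℚ} {a : ZMod 101} (h : Rd x a) : padicNorm 101 x ≤ 1 := by
  obtain ⟨m, -, h2⟩ := h
  have e : x = (x - m) + m := by ring
  rw [e]
  exact (padicNorm.nonarchimedean).trans (max_le h2.le (padicNorm.of_int m))

theorem Rd.int (m : ℤ) : Rd (m : ℚ) (m : ZMod 101) := ⟨m, rfl, by simp⟩

theorem Rd.nat (m : ℕ) : Rd (m : ℚ) (m : ZMod 101) := by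
  have := Rd.int (m : ℤ)
  push_cast at this
  exact this

theorem Rd.zero : Rd 0 0 := by
  have := Rd.int 0
  push_cast at this
  exact this

theorem Rd.one : Rd 1 1 := by
  have := Rd.int 1
  push_cast at this
  exact this

theorem Rd.add {x y : ℚ} {a b : ZMod 101} (h : Rd x a) (h' : Rd y b) : Rd (x + y) (a + b) := by
  obtain ⟨m, h1, h2⟩ := h
  obtain ⟨m', h1', h2'⟩ := h'
  refine ⟨m + m', by push_cast; rw [h1, h1'], ?_⟩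
  have e : x + y - ((m + m' : ℤ) : ℚ) = (x - m) + (y - m') := by push_cast; ring
  rw [e]
  exact (padicNorm.nonarchimedean).trans_lt (max_lt h2 h2')

theorem Rd.neg {x : ℚ} {a : ZMod 101} (h : Rd x a) : Rd (-x) (-a) := by
  obtain ⟨m, h1, h2⟩ := h
  refine ⟨-m, by push_cast; rw [h1], ?_⟩
  have e : -x - ((-m : ℤ) : ℚ) = -(x - m) := by push_cast; ring
  rw [e, padicNorm.neg]
  exact h2

theorem Rd.sub {x y : ℚ} {a b : ZMod 101} (h : Rd x a) (h' : Rd y b) : Rd (x - y) (a - b) := by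
  rw [sub_eq_add_neg, sub_eq_add_neg]
  exact h.add h'.neg

theorem Rd.mul {x y : ℚ} {a b : ZMod 101} (h : Rd x a) (h' : Rd y b) : Rd (x * y) (a * b) := by
  have hy := h'.le_one
  obtain ⟨m, h1, h2⟩ := h
  obtain ⟨m', h1', h2'⟩ := h'
  refine ⟨m * m', by push_cast; rw [h1, h1'], ?_⟩
  have e : x * y - ((m * m' : ℤ) : ℚ) = (x - m) * y + m * (y - m') := by push_cast; ring
  rw [e]
  refine (padicNorm.nonarchimedean).trans_lt (max_lt ?_ ?_)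
  · rw [padicNorm.mul]
    exact mul_lt_one_of_nonneg_of_lt_one_left (padicNorm.nonneg _) h2 hy
  · rw [padicNorm.mul]
    exact mul_lt_one_of_nonneg_of_lt_one_right (padicNorm.of_int m) (padicNorm.nonneg _) h2'

theorem Rd.pow {x : ℚ} {a : ZMod 101} (h : Rd x a) (n : ℕ) : Rd (x ^ n) (a ^ n) := by
  induction n with
  | zero => simpa using Rd.one
  | succ n ih => rw [pow_succ, pow_succ]; exact ih.mul h

theorem Rd.sum {ι : Type*} (s : Finset ι) (f : ι → ℚ) (g : ι → ZMod 101)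
    (h : ∀ i ∈ s, Rd (f i) (g i)) : Rd (∑ i ∈ s, f i) (∑ i ∈ s, g i) := by
  classical
  induction s using Finset.induction_on with
  | empty => simpa using Rd.zero
  | insert a s ha ih =>
    rw [Finset.sum_insert ha, Finset.sum_insert ha]
    exact (h a (Finset.mem_insert_self _ _)).add
      (ih fun i hi => h i (Finset.mem_insert_of_mem hi))

theorem Rd.prod {ι : Type*} (s : Finset ι) (f : ι → ℚ) (g : ι → ZMod 101)
    (h : ∀ i ∈ s, Rd (f i) (g i)) : Rd (∏ i ∈ s, f i) (∏ i ∈ s, g i) := by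
  classical
  induction s using Finset.induction_on with
  | empty => simpa using Rd.one
  | insert a s ha ih =>
    rw [Finset.prod_insert ha, Finset.prod_insert ha]
    exact (h a (Finset.mem_insert_self _ _)).mul
      (ih fun i hi => h i (Finset.mem_insert_of_mem hi))

theorem Rd.det {n : ℕ} (M : Matrix (Fin n) (Fin n) ℚ) (A : Matrix (Fin n) (Fin n) (ZMod 101))
    (h : ∀ i j, Rd (M i j) (A i j)) : Rd M.det A.det := by
  rw [Matrix.det_apply', Matrix.det_apply']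
  apply Rd.sum
  intro σ _
  apply Rd.mul (Rd.int _)
  apply Rd.prod
  intro i _
  exact h _ _

theorem zmod_zero (m : ℤ) : ((m : ZMod 101) = 0) ↔ padicNorm 101 (m : ℚ) < 1 := by
  rw [padicNorm.int_lt_one_iff, ZMod.intCast_zmod_eq_zero_iff_dvd]

theorem Rd.ne_zero {x : ℚ} {a : ZMod 101} (h : Rd x a) (ha : a ≠ 0) : x ≠ 0 := by
  rintro rfl
  obtain ⟨m, h1, h2⟩ := h
  apply ha
  rw [← h1, zmod_zero]
  rwa [zero_sub, padicNorm.neg] at h2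

theorem Rd.inv {x : ℚ} {a b : ZMod 101} (h : Rd x a) (hab : a * b = 1) : Rd x⁻¹ b := by
  have hx0 : x ≠ 0 := h.ne_zero (by rintro rfl; simp at hab)
  obtain ⟨m, h1, h2⟩ := h
  obtain ⟨m', h1'⟩ := ZMod.intCast_surjective b
  have hm : ((m : ZMod 101)) ≠ 0 := by
    rw [h1]; rintro rfl; simp at hab
  have hm1 : padicNorm 101 (m : ℚ) = 1 := by
    rw [padicNorm.int_eq_one_iff]
    intro hd
    exact hm ((ZMod.intCast_zmod_eq_zero_iff_dvd m 101).2 hd)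
  have hx1 : padicNorm 101 x = 1 := by
    have e : x = (x - m) + m := by ring
    rw [e, padicNorm.add_eq_max_of_ne (by rw [hm1]; exact h2.ne), hm1]
    exact max_eq_right h2.le
  refine ⟨m', h1', ?_⟩
  have e : x⁻¹ - m' = (((1 - m * m' : ℤ) : ℚ) + m' * ((m : ℚ) - x)) / x := by
    push_cast; field_simp; ring
  rw [e, padicNorm.div, hx1, div_one]
  refine (padicNorm.nonarchimedean).trans_lt (max_lt ?_ ?_)
  · rw [← zmod_zero]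
    push_cast
    rw [h1, h1', hab, sub_self]
  · rw [padicNorm.mul, ← padicNorm.neg ((m : ℚ) - x), neg_sub]
    exact mul_lt_one_of_nonneg_of_lt_one_right (padicNorm.of_int m') (padicNorm.nonneg _) h2

/-! ### lists modulo 101 -/

/-- multiplication by `X + c`, with carry -/
def mulS (c : ℕ) : ℕ → List ℕ → List ℕ
  | _, [] => []
  | prev, a :: l => ((prev + c * a) % 101) :: mulS c a l

/-- division by `X + a`, where `a' = 1 / a`, with carry -/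
def divS (a' : ℕ) : ℕ → List ℕ → List ℕ
  | _, [] => []
  | prev, x :: l => ((x + (101 - prev)) * a' % 101) :: divS a' ((x + (101 - prev)) * a' % 101) l

theorem mulS_length (c : ℕ) (l : List ℕ) : ∀ prev, (mulS c prev l).length = l.length := by
  induction l with
  | nil => intro _; rfl
  | cons a l ih => intro prev; simp [mulS, ih]

theorem divS_length (c : ℕ) (l : List ℕ) : ∀ prev, (divS c prev l).length = l.length := by
  induction l with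
  | nil => intro _; rfl
  | cons a l ih => intro prev; simp [divS, ih]

theorem mulS_spec (c : ℕ) (c' : ℚ) (hc : Rd c' (c : ZMod 101)) (l : List ℕ) : ∀ (prev : ℕ) (x : ℚ)
    (f : ℕ → ℚ), Rd x (prev : ZMod 101) →
    (∀ d < l.length, Rd (f d) ((l.getD d 0 : ℕ) : ZMod 101)) →
    ((0 < l.length → Rd (x + c' * f 0) (((mulS c prev l).getD 0 0 : ℕ) : ZMod 101)) ∧
      ∀ d, d + 1 < l.length → Rd (f d + c' * f (d + 1))
        (((mulS c prev l).getD (d + 1) 0 : ℕ) : ZMod 101)) := by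
  induction l with
  | nil =>
    intro prev x f _ _
    refine ⟨fun h => absurd h (by simp), fun d h => absurd h (by simp)⟩
  | cons a l ih =>
    intro prev x f hx hf
    have h0 : Rd (f 0) (a : ZMod 101) := by
      have := hf 0 (by simp)
      simpa using this
    have hih := ih a (f 0) (fun d => f (d + 1)) h0 (fun d hd => by
      have := hf (d + 1) (by simpa using hd)
      simpa using this)
    refine ⟨fun _ => ?_, fun d hd => ?_⟩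
    · have e : (((mulS c prev (a :: l)).getD 0 0 : ℕ) : ZMod 101) =
          (prev : ZMod 101) + (c : ZMod 101) * (a : ZMod 101) := by
        simp only [mulS, List.getD_cons_zero, ZMod.natCast_mod]
        push_cast
        rfl
      rw [e]
      exact hx.add (hc.mul h0)
    · have e : (mulS c prev (a :: l)).getD (d + 1) 0 = (mulS c a l).getD d 0 := by
        simp only [mulS, List.getD_cons_succ]
      rw [e]
      cases d with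
      | zero => exact hih.1 (by simpa using hd)
      | succ d => exact hih.2 d (by simpa using hd)

theorem divS_spec (c : ℕ) (c' : ℚ) (hc : Rd c' (c : ZMod 101)) (l : List ℕ) : ∀ (prev : ℕ) (x : ℚ)
    (f g : ℕ → ℚ), prev ≤ 101 → Rd x (prev : ZMod 101) →
    (∀ d < l.length, Rd (f d) ((l.getD d 0 : ℕ) : ZMod 101)) →
    (g 0 = (f 0 - x) * c') → (∀ d, g (d + 1) = (f (d + 1) - g d) * c') →
    ∀ d, d < l.length → Rd (g d) (((divS c prev l).getD d 0 : ℕ) : ZMod 101) := by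
  induction l with
  | nil =>
    intro prev x f g _ _ _ _ _ d h
    exact absurd h (by simp)
  | cons a l ih =>
    intro prev x f g hp hx hf hg0 hg d hd
    have h0 : Rd (f 0) (a : ZMod 101) := by
      have := hf 0 (by simp)
      simpa using this
    have hz : ((101 : ℕ) : ZMod 101) = 0 := ZMod.natCast_self 101
    have h1 : Rd (g 0) ((((a + (101 - prev)) * c % 101 : ℕ)) : ZMod 101) := by
      rw [ZMod.natCast_mod, Nat.cast_mul, Nat.cast_add, Nat.cast_sub hp, hz, hg0]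
      have := (h0.sub hx).mul hc
      rw [zero_sub, ← sub_eq_add_neg]
      exact this
    cases d with
    | zero =>
      simp only [divS, List.getD_cons_zero]
      exact h1
    | succ d =>
      simp only [divS, List.getD_cons_succ]
      exact ih _ (g 0) (fun d => f (d + 1)) (fun d => g (d + 1)) (Nat.mod_lt _ (by norm_num)).le h1
        (fun d hd => by
          have := hf (d + 1) (by simpa using hd)
          simpa using this) (hg 0) (fun d => hg (d + 1)) d (by simpa using hd)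

/-- `l` is the list of the first twenty coefficients of `f` modulo `101` -/
def Rp (f : PowerSeries ℚ) (l : List ℕ) : Prop :=
  l.length = 20 ∧ ∀ d < 20, Rd (PowerSeries.coeff d f) ((l.getD d 0 : ℕ) : ZMod 101)

theorem Rp.mulS {f : PowerSeries ℚ} {l : List ℕ} (h : Rp f l) {c' : ℚ} {c : ℕ}
    (hc : Rd c' (c : ZMod 101)) :
    Rp (f * (PowerSeries.X + PowerSeries.C c')) (mulS c 0 l) := by
  refine ⟨by rw [mulS_length, h.1], ?_⟩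
  have key := mulS_spec c c' hc l 0 0 (fun d => PowerSeries.coeff d f)
    (by simpa using Rd.zero) (fun d hd => h.2 d (by rw [h.1] at hd; exact hd))
  intro d hd
  rw [mul_add, map_add, PowerSeries.coeff_mul_C]
  cases d with
  | zero =>
    have := key.1 (by rw [h.1]; norm_num)
    rw [PowerSeries.coeff_zero_mul_X, mul_comm]
    exact this
  | succ d =>
    have := key.2 d (by rw [h.1]; exact hd)
    rw [PowerSeries.coeff_succ_mul_X, mul_comm (PowerSeries.coeff (d + 1) f)]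
    exact this

theorem Rp.divS {f : PowerSeries ℚ} {l : List ℕ} (h : Rp f l) {a : ℚ} (ha : a ≠ 0) {c : ℕ}
    (hc : Rd a⁻¹ (c : ZMod 101)) :
    Rp (f * iv a) (divS c 0 l) := by
  refine ⟨by rw [divS_length, h.1], ?_⟩
  have hg : (f * iv a) * (PowerSeries.X + PowerSeries.C a) = f := by
    rw [mul_assoc, mul_comm (iv a), lin_mul_iv ha, mul_one]
  intro d hd
  refine divS_spec c a⁻¹ hc l 0 0 (fun d => PowerSeries.coeff d f)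
    (fun d => PowerSeries.coeff d (f * iv a)) (by norm_num)
    (by simpa using Rd.zero) (fun d hd => h.2 d (by rw [h.1] at hd; exact hd)) ?_ ?_ d
    (by rw [h.1]; exact hd)
  · have := congrArg (PowerSeries.coeff 0) hg
    rw [mul_add, map_add, PowerSeries.coeff_mul_C, PowerSeries.coeff_zero_mul_X] at this
    rw [← this]
    field_simp
    ring
  · intro d
    have := congrArg (PowerSeries.coeff (d + 1)) hg
    rw [mul_add, map_add, PowerSeries.coeff_mul_C, PowerSeries.coeff_succ_mul_X] at this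
    rw [← this]
    field_simp
    ring

/-- iteration -/
def it (f : List ℕ → List ℕ) : ℕ → List ℕ → List ℕ
  | 0, l => l
  | n + 1, l => it f n (f l)

theorem Rp.mulS_pow {c' : ℚ} {c : ℕ} (hc : Rd c' (c : ZMod 101)) (n : ℕ) :
    ∀ {f : PowerSeries ℚ} {l : List ℕ}, Rp f l →
    Rp (f * (PowerSeries.X + PowerSeries.C c') ^ n) (it (H5.mulS c 0) n l) := by
  induction n with
  | zero => intro f l h; simpa [it] using h
  | succ n ih =>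
    intro f l h
    rw [pow_succ', ← mul_assoc]
    exact ih (h.mulS hc)

theorem Rp.divS_pow {a : ℚ} (ha : a ≠ 0) {c : ℕ} (hc : Rd a⁻¹ (c : ZMod 101)) (n : ℕ) :
    ∀ {f : PowerSeries ℚ} {l : List ℕ}, Rp f l →
    Rp (f * iv a ^ n) (it (H5.divS c 0) n l) := by
  induction n with
  | zero => intro f l h; simpa [it] using h
  | succ n ih =>
    intro f l h
    rw [pow_succ', ← mul_assoc]
    exact ih (h.divS ha hc)

/-- inverse modulo 101 -/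
def iv101 (k : ℕ) : ℕ := k ^ 99 % 101

theorem iv101_spec : ∀ k < 120, k ≠ 0 → k ≠ 101 → k * iv101 k % 101 = 1 := by
  decide +kernel

theorem iv101_mul {k : ℕ} (h : k < 120) (h0 : k ≠ 0) (h1 : k ≠ 101) :
    (k : ZMod 101) * (iv101 k : ZMod 101) = 1 := by
  have := congrArg (fun z : ℕ => (z : ZMod 101)) (iv101_spec k h h0 h1)
  simp only [ZMod.natCast_mod, Nat.cast_mul, Nat.cast_one] at this
  exact this

/-- the other poles -/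
def bs (j : ℕ) : List ℕ := (List.range' 3 12).filter (fun b => b ≠ j)

/-- the base list -/
def bl (j : ℕ) : List ℕ :=
  (bs j).foldl (fun l b => it (divS (iv101 (101 + b - j)) 0) 20 l)
    (it (mulS (118 - j) 0) 9 (it (mulS (117 - j) 0) 9 (it (mulS (102 - j) 0) 9
      (it (mulS (101 - j) 0) 9 [1, 0, 0, 0, 0, 0, 0, 0, 0, 0, 0, 0, 0, 0, 0, 0, 0, 0, 0, 0]))))

/-- the base series -/
noncomputable def bser (j : ℕ) : PowerSeries ℚ :=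
  ((PowerSeries.X + PowerSeries.C (-(j : ℚ))) * (PowerSeries.X + PowerSeries.C (1 - (j : ℚ))) *
    (PowerSeries.X + PowerSeries.C (16 - (j : ℚ))) * (PowerSeries.X + PowerSeries.C (17 - (j : ℚ)))) ^ 9 *
  (∏ b ∈ (Finset.Icc 3 14).erase j, iv ((b : ℚ) - j) ^ 20)

theorem ser_eq (j e : ℕ) : ser j e =
    bser j * (PowerSeries.X + PowerSeries.C (-(j : ℚ))) ^ e := rfl

theorem rd_shift (j r c : ℕ) (hc : c = 101 + r) (hj : j ≤ 14) :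
    Rd ((r : ℚ) - (j : ℚ)) ((c - j : ℕ) : ZMod 101) := by
  have h := Rd.int ((r : ℤ) - (j : ℤ))
  have e : (((r : ℤ) - (j : ℤ) : ℤ) : ZMod 101) = ((c - j : ℕ) : ZMod 101) := by
    rw [Nat.cast_sub (by omega), hc, Nat.cast_add, ZMod.natCast_self]
    push_cast
    ring
  rw [e] at h
  push_cast at h
  exact h

theorem fold_rep (j : ℕ) (hj : j ≤ 14) (bl : List ℕ) : ∀ (f : PowerSeries ℚ) (l : List ℕ),
    (∀ b ∈ bl, b ≠ j ∧ b ≤ 14) → Rp f l →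
    Rp (f * (bl.map (fun b : ℕ => iv ((b : ℚ) - j) ^ 20)).prod)
      (bl.foldl (fun l b => it (divS (iv101 (101 + b - j)) 0) 20 l) l) := by
  induction bl with
  | nil => intro f l _ h; simpa using h
  | cons b bl ih =>
    intro f l hb h
    rw [List.map_cons, List.prod_cons, List.foldl_cons, ← mul_assoc]
    apply ih _ _ (fun b' hb' => hb b' (List.mem_cons_of_mem _ hb'))
    obtain ⟨h1, h2⟩ := hb b (List.mem_cons_self)
    have hne : (b : ℚ) - (j : ℚ) ≠ 0 := by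
      rw [sub_ne_zero]
      exact_mod_cast h1
    apply Rp.divS_pow hne _ 20 h
    exact (rd_shift j b (101 + b) rfl hj).inv (iv101_mul (by omega) (by omega) (by omega))

theorem bser_rep (j : ℕ) (h3 : 3 ≤ j) (hj : j ≤ 14) : Rp (bser j) (bl j) := by
  have h0 : Rp (1 : PowerSeries ℚ) [1, 0, 0, 0, 0, 0, 0, 0, 0, 0, 0, 0, 0, 0, 0, 0, 0, 0, 0, 0] := by
    refine ⟨rfl, ?_⟩
    intro d hd
    rw [PowerSeries.coeff_one]
    interval_cases d <;> simp [Rd.one, Rd.zero]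
  have h1 := Rp.mulS_pow (rd_shift j 0 101 rfl hj) 9 h0
  have h2 := Rp.mulS_pow (rd_shift j 1 102 rfl hj) 9 h1
  have h4 := Rp.mulS_pow (rd_shift j 16 117 rfl hj) 9 h2
  have h5 := Rp.mulS_pow (rd_shift j 17 118 rfl hj) 9 h4
  have h6 := fold_rep j hj (bs j) _ _ (by
    intro b hb
    unfold bs at hb
    rw [List.mem_filter, List.mem_range'_1] at hb
    refine ⟨by simpa using hb.2, by omega⟩) h5
  have e1 : bser j = 1 * (PowerSeries.X + PowerSeries.C (((0 : ℕ) : ℚ) - (j : ℚ))) ^ 9 *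
      (PowerSeries.X + PowerSeries.C (((1 : ℕ) : ℚ) - (j : ℚ))) ^ 9 *
      (PowerSeries.X + PowerSeries.C (((16 : ℕ) : ℚ) - (j : ℚ))) ^ 9 *
      (PowerSeries.X + PowerSeries.C (((17 : ℕ) : ℚ) - (j : ℚ))) ^ 9 *
      ((bs j).map (fun b : ℕ => iv ((b : ℚ) - j) ^ 20)).prod := by
    have e2 : ((bs j).map (fun b : ℕ => iv ((b : ℚ) - j) ^ 20)).prod =
        ∏ b ∈ (Finset.Icc 3 14).erase j, iv ((b : ℚ) - j) ^ 20 := by
      have e3 : (Finset.Icc 3 14).erase j = (bs j).toFinset := by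
        ext b
        unfold bs
        rw [Finset.mem_erase, Finset.mem_Icc, List.mem_toFinset, List.mem_filter,
          List.mem_range'_1]
        simp only [decide_eq_true_eq, ne_eq]
        omega
      rw [e3, List.prod_toFinset]
      unfold bs
      exact (List.nodup_range').filter _
    rw [e2]
    unfold bser
    rw [one_mul, mul_pow, mul_pow, mul_pow]
    push_cast
    rw [zero_sub]
  rw [e1]
  exact h6

theorem ser_rep (j : ℕ) (h3 : 3 ≤ j) (hj : j ≤ 14) (e : ℕ) :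
    Rp (ser j e) (it (mulS (101 - j) 0) e (bl j)) := by
  rw [ser_eq]
  have := rd_shift j 0 101 rfl hj
  rw [Nat.cast_zero, zero_sub] at this
  exact Rp.mulS_pow this e (bser_rep j h3 hj)

/-! ### weights -/

/-- harmonic sums -/
def hsm (e n : ℕ) : ℕ := ((List.range n).map (fun l => (iv101 (l + 1)) ^ e)).sum

/-- sign -/
def sg (d : ℕ) : ℕ := if d % 2 = 1 then 1 else 100

/-- weights -/
def wl (j : ℕ) : List ℕ := (List.range 20).map (fun d =>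
  (Nat.choose (27 - d) 8 * (hsm (28 - d) (j - 2) + sg d * hsm (28 - d) (15 - j))) % 101)

theorem sum_range_list {R : Type*} [Semiring R] (f : ℕ → R) (n : ℕ) :
    ((List.range n).map f).sum = ∑ m ∈ Finset.range n, f m := by
  induction n with
  | zero => simp
  | succ n ih => rw [List.range_succ, List.map_append, List.sum_append, ih, Finset.sum_range_succ]; simp

theorem hs_rd (e n : ℕ) (hn : n < 100) : Rd (hs e n) ((hsm e n : ℕ) : ZMod 101) := by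
  unfold hs hsm
  rw [sum_range_list, Nat.cast_sum]
  apply Rd.sum
  intro l hl
  rw [Finset.mem_range] at hl
  rw [one_div, ← inv_pow, Nat.cast_pow]
  apply Rd.pow
  apply Rd.inv (a := ((l + 1 : ℕ) : ZMod 101))
  · have := Rd.nat (l + 1)
    rw [Nat.cast_add, Nat.cast_one] at this
    exact this
  · exact iv101_mul (by omega) (by omega) (by omega)

theorem wl_rd (j d : ℕ) (h3 : 3 ≤ j) (hj : j ≤ 14) (hd : d < 20) :
    Rd (((Nat.choose (27 - d) 8 : ℕ) : ℚ) * (hs (28 - d) (j - 2) + (-1) ^ (21 - d) * hs (28 - d) (15 - j)))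
      (((wl j).getD d 0 : ℕ) : ZMod 101) := by
  have e1 : (wl j).getD d 0 =
      (Nat.choose (27 - d) 8 * (hsm (28 - d) (j - 2) + sg d * hsm (28 - d) (15 - j))) % 101 := by
    unfold wl
    rw [List.getD_eq_getElem?_getD, List.getElem?_map, List.getElem?_range hd]
    rfl
  rw [e1, ZMod.natCast_mod, Nat.cast_mul, Nat.cast_add, Nat.cast_mul]
  refine (Rd.nat _).mul ((hs_rd _ _ (by omega)).add (Rd.mul ?_ (hs_rd _ _ (by omega))))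
  unfold sg
  split_ifs with h
  · have : Even (21 - d) := by
      rw [Nat.even_iff]; omega
    rw [this.neg_one_pow, Nat.cast_one]
    exact Rd.one
  · have : Odd (21 - d) := by
      rw [Nat.odd_iff]; omega
    rw [this.neg_one_pow]
    have h100 : (((100 : ℕ)) : ZMod 101) = -1 := by decide
    rw [h100]
    exact Rd.one.neg

/-- dot product -/
def dot : List ℕ → List ℕ → ℕ
  | a :: l, b :: m => a * b + dot l m
  | _, _ => 0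

theorem dot_eq (m : List ℕ) : ∀ l : List ℕ,
    dot l m = ∑ k ∈ Finset.range m.length, l.getD k 0 * m.getD k 0 := by
  induction m with
  | nil =>
    intro l
    cases l <;> simp [dot]
  | cons b m ih =>
    intro l
    cases l with
    | nil => simp [dot]
    | cons a l =>
      rw [dot, ih, List.length_cons, Finset.sum_range_succ']
      simp only [List.getD_cons_succ, List.getD_cons_zero]
      rw [add_comm]

/-- values of the functional at the pole `j` -/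
def run (c : ℕ) (w : List ℕ) : ℕ → List ℕ → List ℕ
  | 0, _ => []
  | n + 1, l => (dot w l) % 101 :: run c w n (mulS c 0 l)

theorem run_getD (c : ℕ) (w : List ℕ) (n : ℕ) : ∀ (l : List ℕ) (e : ℕ), e < n →
    (run c w n l).getD e 0 = dot w (it (mulS c 0) e l) % 101 := by
  induction n with
  | zero => intro l e h; exact absurd h (Nat.not_lt_zero _)
  | succ n ih =>
    intro l e h
    cases e with
    | zero => simp [run, it]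
    | succ e =>
      rw [run, List.getD_cons_succ, ih _ e (by omega)]
      rfl

/-- values of the functional at the pole `j` -/
def Rl (j : ℕ) : List ℕ := run (101 - j) (wl j) 203 (bl j)

theorem inner_rd (j e : ℕ) (h3 : 3 ≤ j) (hj : j ≤ 14) (he : e < 203) :
    Rd (∑ i ∈ Finset.Icc 1 20, ((Nat.choose (i + 7) 8 : ℕ) : ℚ) *
      PowerSeries.coeff (20 - i) (ser j e) * (hs (i + 8) (j - 2) + (-1) ^ (i + 1) * hs (i + 8) (15 - j)))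
      (((Rl j).getD e 0 : ℕ) : ZMod 101) := by
  have hr := ser_rep j h3 hj e
  have e1 : ∑ i ∈ Finset.Icc 1 20, ((Nat.choose (i + 7) 8 : ℕ) : ℚ) *
      PowerSeries.coeff (20 - i) (ser j e) * (hs (i + 8) (j - 2) + (-1) ^ (i + 1) * hs (i + 8) (15 - j)) =
      ∑ d ∈ Finset.range 20, (((Nat.choose (27 - d) 8 : ℕ) : ℚ) *
        (hs (28 - d) (j - 2) + (-1) ^ (21 - d) * hs (28 - d) (15 - j))) * PowerSeries.coeff d (ser j e) := by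
    refine Finset.sum_nbij' (fun i => 20 - i) (fun d => 20 - d) ?_ ?_ ?_ ?_ ?_
    · intro i hi
      rw [Finset.mem_Icc] at hi
      rw [Finset.mem_range]
      omega
    · intro d hd
      rw [Finset.mem_range] at hd
      rw [Finset.mem_Icc]
      omega
    · intro i hi
      rw [Finset.mem_Icc] at hi
      omega
    · intro d hd
      rw [Finset.mem_range] at hd
      omega
    · intro i hi
      rw [Finset.mem_Icc] at hi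
      rw [show 27 - (20 - i) = i + 7 by omega, show 28 - (20 - i) = i + 8 by omega,
        show 21 - (20 - i) = i + 1 by omega]
      ring
  have e2 : (((Rl j).getD e 0 : ℕ) : ZMod 101) =
      ∑ d ∈ Finset.range 20, (((wl j).getD d 0 : ℕ) : ZMod 101) *
        (((it (mulS (101 - j) 0) e (bl j)).getD d 0 : ℕ) : ZMod 101) := by
    unfold Rl
    rw [run_getD _ _ _ _ _ he, ZMod.natCast_mod, dot_eq, hr.1]
    push_cast
    rfl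
  rw [e1, e2]
  apply Rd.sum
  intro d hd
  rw [Finset.mem_range] at hd
  exact (wl_rd j d h3 hj hd).mul (hr.2 d hd)

/-- the values of `Fm` modulo 101 -/
def Fl : List ℕ := [
    0, 64, 23, 70, 63, 93, 19, 11, 74, 56, 22, 2, 73, 42, 1, 15, 91, 22, 0, 81, 77, 38, 99, 74,
    21, 55, 55, 71, 4, 92, 35, 33, 74, 34, 32, 13, 56, 59, 66, 0, 79, 48, 87, 92, 23, 29, 20, 37,
    80, 41, 52, 61, 30, 32, 40, 88, 25, 6, 91, 18, 21, 93, 65, 75, 54, 65, 1, 24, 84, 60, 43, 64,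
    75, 70, 17, 17, 14, 76, 65, 45, 94, 22, 36, 54, 69, 99, 25, 21, 94, 60, 79, 2, 87, 96, 68,
    75, 21, 6, 61, 48, 19, 77, 64, 54, 51, 81, 6, 41, 91, 42, 15, 6, 59, 16, 84, 13, 8, 28, 88,
    66, 1, 82, 1, 90, 42, 24, 81, 75, 5, 86, 90, 100, 2, 86, 4, 50, 0, 20, 40, 37, 23, 90, 28,
    26, 96, 42, 60, 39, 50, 76, 27, 59, 53, 43, 94, 72, 72, 89, 6, 18, 47, 85, 57, 70, 88, 29, 7,
    83, 54, 55, 62, 73, 80, 84, 36, 10, 22, 24, 59, 53, 5, 56, 38, 98, 84, 81, 97, 25, 89, 67, 9,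
    53, 84, 6, 6, 5, 78, 53, 82, 47, 10, 29, 4]

/-- the values at the poles -/
def Rt : List (List ℕ) := [
  [
    17, 94, 70, 82, 68, 29, 56, 9, 67, 23, 69, 26, 31, 43, 30, 18, 4, 67, 50, 20, 26, 98, 71, 28,
    53, 87, 91, 88, 1, 33, 59, 47, 12, 77, 92, 49, 78, 60, 48, 17, 43, 23, 50, 80, 68, 19, 95, 0,
    36, 75, 82, 84, 58, 68, 43, 74, 88, 72, 2, 79, 24, 46, 23, 71, 55, 14, 99, 20, 88, 85, 56,
    28, 30, 64, 34, 21, 83, 63, 72, 24, 29, 62, 84, 56, 10, 91, 9, 67, 38, 20, 78, 30, 69, 17,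
    88, 82, 21, 73, 72, 19, 23, 50, 21, 93, 57, 99, 14, 34, 74, 1, 32, 96, 23, 8, 73, 11, 47, 89,
    1, 52, 41, 23, 9, 90, 17, 43, 42, 30, 39, 98, 2, 25, 61, 65, 72, 27, 55, 69, 22, 58, 50, 73,
    32, 52, 63, 99, 44, 18, 0, 94, 78, 57, 51, 28, 99, 73, 81, 39, 87, 95, 66, 29, 64, 32, 90,
    37, 59, 6, 41, 39, 48, 34, 17, 11, 10, 100, 38, 54, 13, 87, 29, 14, 16, 51, 34, 71, 30, 74,
    1, 88, 41, 69, 11, 96, 50, 39, 57, 38, 84, 87, 44, 32, 52],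
  [
    84, 30, 59, 58, 76, 56, 8, 46, 11, 58, 62, 80, 1, 26, 7, 83, 41, 63, 27, 78, 54, 31, 69, 44,
    62, 73, 36, 52, 76, 40, 53, 3, 22, 93, 8, 0, 3, 96, 0, 14, 67, 70, 39, 54, 7, 51, 100, 95,
    56, 76, 4, 72, 43, 48, 11, 35, 62, 30, 1, 83, 45, 22, 0, 33, 99, 16, 98, 56, 22, 93, 1, 88,
    40, 9, 29, 19, 30, 67, 52, 60, 2, 66, 29, 85, 93, 16, 53, 40, 41, 53, 43, 64, 72, 5, 19, 97,
    66, 42, 88, 29, 79, 68, 82, 67, 71, 100, 79, 69, 18, 57, 71, 55, 84, 97, 98, 73, 72, 38, 51,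
    94, 92, 87, 78, 27, 26, 55, 11, 58, 95, 100, 42, 91, 89, 13, 32, 69, 0, 89, 20, 0, 45, 35,
    23, 46, 87, 73, 99, 4, 24, 79, 100, 85, 15, 30, 10, 57, 62, 55, 82, 97, 72, 22, 13, 0, 70, 8,
    37, 12, 79, 13, 32, 97, 52, 42, 65, 86, 25, 82, 35, 95, 63, 93, 39, 86, 64, 32, 37, 91, 42,
    38, 91, 30, 47, 15, 81, 25, 16, 39, 34, 52, 86, 88, 31],
  [
    59, 0, 51, 26, 58, 98, 78, 61, 91, 78, 87, 15, 66, 12, 42, 65, 26, 14, 37, 96, 7, 40, 69, 5,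
    14, 24, 14, 28, 81, 86, 40, 88, 55, 38, 7, 86, 66, 77, 57, 80, 20, 74, 6, 18, 31, 85, 18, 88,
    3, 36, 74, 26, 73, 29, 34, 70, 99, 24, 54, 37, 53, 69, 40, 36, 92, 66, 83, 24, 7, 61, 3, 26,
    97, 29, 84, 15, 85, 86, 55, 57, 75, 0, 53, 64, 92, 55, 48, 29, 76, 33, 8, 73, 23, 0, 9, 15,
    67, 77, 95, 51, 91, 8, 0, 48, 72, 13, 15, 14, 99, 50, 14, 70, 26, 74, 41, 93, 79, 72, 31, 17,
    25, 66, 2, 59, 76, 31, 82, 31, 62, 100, 75, 2, 65, 28, 12, 66, 75, 74, 19, 18, 4, 1, 34, 71,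
    11, 47, 80, 11, 65, 86, 22, 34, 72, 39, 57, 32, 54, 10, 82, 33, 17, 38, 59, 2, 22, 45, 74,
    90, 82, 66, 99, 86, 72, 20, 57, 85, 26, 80, 75, 28, 18, 29, 0, 38, 84, 45, 28, 63, 57, 24,
    37, 61, 39, 87, 0, 56, 26, 69, 19, 30, 48, 50, 61],
  [
    96, 42, 20, 87, 45, 25, 88, 40, 32, 33, 86, 29, 46, 35, 68, 69, 43, 41, 51, 22, 35, 59, 92,
    90, 54, 31, 76, 29, 62, 90, 34, 13, 64, 78, 39, 98, 48, 72, 49, 14, 23, 66, 58, 98, 41, 31,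
    54, 24, 8, 71, 92, 87, 27, 39, 30, 4, 11, 2, 91, 80, 7, 60, 76, 46, 94, 0, 56, 98, 0, 12, 44,
    71, 77, 96, 33, 30, 26, 42, 3, 7, 0, 96, 59, 87, 48, 8, 92, 12, 65, 36, 39, 83, 29, 86, 37,
    42, 73, 46, 64, 51, 62, 30, 51, 82, 84, 33, 52, 78, 63, 10, 4, 90, 28, 27, 93, 97, 91, 45,
    57, 98, 70, 93, 50, 54, 66, 80, 16, 49, 28, 32, 66, 99, 23, 20, 37, 69, 18, 15, 73, 9, 17,
    64, 8, 56, 18, 57, 16, 80, 58, 53, 79, 54, 84, 40, 69, 22, 77, 35, 89, 60, 25, 59, 44, 49,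
    27, 42, 0, 68, 18, 0, 29, 39, 79, 43, 30, 4, 22, 46, 51, 83, 59, 0, 30, 50, 84, 15, 53, 54,
    29, 14, 87, 69, 7, 28, 90, 81, 51, 67, 27, 20, 98, 32, 22],
  [
    15, 28, 100, 9, 71, 10, 0, 21, 29, 37, 31, 65, 94, 61, 75, 73, 67, 50, 33, 88, 78, 36, 95, 6,
    76, 61, 90, 47, 34, 52, 60, 58, 20, 28, 46, 90, 69, 81, 45, 24, 22, 79, 72, 53, 24, 95, 57,
    2, 89, 57, 76, 83, 75, 45, 9, 16, 57, 100, 26, 30, 84, 96, 49, 85, 3, 39, 81, 33, 91, 93, 78,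
    13, 90, 40, 3, 95, 14, 74, 51, 91, 24, 22, 40, 8, 49, 43, 64, 24, 66, 73, 13, 8, 91, 92, 68,
    99, 57, 85, 36, 14, 73, 97, 6, 7, 38, 8, 31, 0, 55, 100, 44, 86, 50, 49, 78, 81, 95, 36, 54,
    72, 91, 60, 51, 42, 59, 74, 78, 77, 75, 65, 40, 85, 99, 62, 6, 82, 77, 22, 39, 89, 34, 48,
    53, 1, 33, 34, 42, 5, 87, 84, 5, 74, 25, 81, 89, 38, 90, 5, 7, 20, 93, 18, 35, 61, 11, 80,
    30, 39, 72, 70, 56, 60, 10, 77, 23, 80, 42, 3, 88, 47, 70, 34, 48, 23, 45, 61, 2, 57, 34, 43,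
    95, 10, 45, 70, 63, 29, 14, 5, 11, 51, 3, 95, 28],
  [
    62, 24, 31, 67, 84, 17, 41, 39, 77, 96, 96, 2, 13, 7, 66, 36, 33, 0, 94, 26, 2, 12, 84, 94,
    19, 100, 91, 56, 95, 53, 69, 62, 11, 63, 27, 8, 52, 55, 41, 100, 30, 85, 32, 81, 87, 97, 73,
    88, 67, 51, 64, 20, 74, 23, 29, 22, 70, 15, 84, 6, 22, 80, 59, 7, 6, 15, 14, 58, 26, 7, 6,
    51, 39, 22, 2, 98, 65, 56, 67, 69, 33, 83, 0, 2, 80, 38, 90, 8, 36, 89, 28, 53, 9, 56, 41,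
    84, 99, 98, 43, 2, 0, 9, 10, 55, 70, 35, 66, 76, 92, 91, 40, 40, 85, 98, 45, 78, 15, 39, 0,
    56, 95, 85, 5, 35, 56, 50, 8, 80, 57, 48, 81, 54, 9, 13, 1, 87, 37, 89, 65, 76, 8, 63, 27,
    47, 59, 11, 32, 22, 3, 70, 97, 94, 42, 14, 18, 71, 26, 46, 82, 35, 53, 26, 67, 33, 45, 53,
    82, 90, 41, 95, 45, 53, 97, 92, 26, 85, 24, 86, 57, 70, 54, 39, 43, 0, 85, 67, 100, 88, 37,
    15, 96, 79, 81, 29, 57, 76, 35, 16, 24, 60, 85, 0, 29],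
  [
    39, 68, 21, 24, 75, 76, 19, 86, 2, 46, 34, 42, 94, 42, 57, 98, 8, 91, 46, 68, 4, 52, 28, 51,
    36, 41, 33, 22, 14, 97, 56, 91, 24, 0, 21, 72, 82, 72, 4, 50, 83, 32, 5, 38, 87, 88, 93, 92,
    86, 36, 23, 84, 89, 86, 89, 36, 80, 47, 44, 55, 63, 8, 60, 8, 86, 31, 27, 69, 84, 31, 94, 61,
    88, 32, 64, 93, 13, 16, 52, 7, 53, 18, 26, 2, 17, 9, 29, 5, 28, 73, 33, 82, 96, 25, 79, 34,
    100, 74, 7, 74, 15, 53, 95, 13, 87, 32, 23, 31, 34, 83, 91, 98, 26, 63, 26, 93, 27, 29, 90,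
    91, 95, 65, 37, 51, 46, 80, 35, 6, 4, 76, 36, 1, 90, 87, 0, 13, 59, 70, 59, 65, 55, 61, 15,
    56, 62, 25, 16, 72, 81, 34, 80, 96, 52, 7, 34, 7, 80, 88, 82, 8, 10, 39, 29, 66, 29, 34, 24,
    60, 86, 52, 24, 63, 57, 16, 15, 30, 72, 85, 58, 37, 38, 28, 40, 69, 83, 49, 20, 42, 56, 51,
    50, 6, 70, 45, 78, 97, 98, 9, 41, 38, 41, 67, 28],
  [
    86, 81, 67, 60, 22, 48, 99, 95, 17, 56, 64, 45, 2, 40, 97, 6, 93, 22, 90, 0, 61, 13, 83, 41,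
    58, 65, 56, 90, 83, 66, 47, 42, 86, 72, 13, 83, 30, 9, 48, 63, 77, 12, 52, 98, 78, 72, 46,
    22, 47, 6, 79, 43, 24, 65, 14, 11, 67, 44, 70, 37, 85, 92, 79, 42, 99, 47, 8, 94, 19, 41, 40,
    7, 73, 24, 24, 22, 1, 90, 74, 87, 63, 63, 41, 42, 68, 69, 2, 0, 35, 23, 88, 50, 26, 76, 28,
    97, 95, 99, 38, 55, 29, 49, 99, 37, 6, 83, 25, 20, 60, 32, 46, 67, 55, 81, 4, 40, 41, 80, 83,
    9, 0, 97, 72, 79, 95, 26, 57, 46, 9, 79, 47, 35, 85, 49, 88, 72, 79, 3, 11, 25, 77, 38, 82,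
    86, 30, 28, 88, 45, 83, 35, 41, 18, 75, 63, 57, 62, 92, 37, 65, 7, 34, 59, 90, 18, 85, 20,
    35, 21, 70, 12, 95, 4, 31, 78, 63, 63, 83, 91, 9, 68, 39, 77, 77, 95, 85, 27, 17, 81, 0, 54,
    73, 29, 5, 43, 48, 23, 40, 60, 20, 24, 56, 13, 15],
  [
    5, 58, 98, 28, 20, 82, 12, 70, 21, 34, 7, 33, 52, 39, 37, 3, 23, 66, 62, 56, 73, 95, 6, 96,
    23, 17, 3, 34, 36, 77, 3, 93, 42, 28, 100, 74, 98, 48, 12, 96, 8, 89, 23, 4, 52, 13, 97, 58,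
    62, 30, 70, 37, 10, 85, 49, 97, 85, 40, 17, 48, 0, 89, 74, 47, 44, 84, 40, 80, 54, 42, 77,
    87, 8, 73, 73, 33, 31, 90, 93, 0, 19, 91, 75, 77, 76, 60, 47, 59, 40, 23, 58, 14, 68, 67, 21,
    13, 4, 0, 92, 88, 26, 46, 69, 33, 96, 83, 7, 70, 38, 72, 30, 24, 41, 34, 76, 98, 68, 50, 82,
    25, 91, 5, 66, 35, 55, 50, 15, 68, 30, 8, 62, 68, 88, 43, 96, 11, 95, 33, 78, 70, 55, 13, 31,
    50, 57, 34, 59, 44, 69, 25, 74, 38, 98, 92, 75, 67, 44, 75, 65, 15, 78, 0, 31, 95, 89, 21,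
    86, 65, 29, 12, 43, 62, 53, 13, 5, 5, 41, 63, 20, 88, 0, 94, 9, 84, 62, 73, 47, 89, 58, 65,
    50, 69, 48, 60, 71, 72, 59, 57, 0, 99, 42, 17, 100],
  [
    42, 94, 68, 99, 85, 38, 58, 19, 75, 36, 19, 9, 75, 87, 38, 48, 79, 49, 74, 7, 54, 13, 41, 98,
    35, 21, 1, 94, 91, 46, 37, 99, 4, 64, 48, 69, 24, 72, 52, 96, 14, 22, 89, 56, 87, 43, 70, 81,
    83, 59, 65, 43, 67, 45, 73, 55, 63, 39, 62, 11, 23, 75, 29, 61, 72, 3, 36, 42, 74, 65, 34,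
    11, 72, 7, 64, 39, 53, 44, 51, 39, 52, 44, 80, 55, 18, 58, 44, 73, 60, 84, 90, 76, 64, 63,
    25, 64, 14, 68, 53, 17, 35, 1, 84, 93, 24, 91, 49, 11, 75, 9, 73, 75, 94, 9, 67, 49, 30, 62,
    18, 21, 17, 59, 46, 13, 36, 85, 51, 89, 84, 19, 54, 61, 24, 53, 40, 30, 81, 15, 45, 83, 60,
    34, 39, 43, 35, 67, 90, 69, 38, 14, 100, 28, 90, 4, 66, 33, 47, 52, 37, 64, 70, 27, 9, 56,
    76, 45, 65, 73, 1, 21, 28, 97, 70, 45, 17, 40, 37, 71, 78, 95, 37, 83, 78, 50, 47, 87, 11,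
    78, 33, 88, 2, 31, 98, 40, 52, 3, 40, 34, 93, 71, 99, 85, 89],
  [
    17, 44, 97, 96, 3, 8, 35, 19, 84, 80, 2, 11, 68, 6, 1, 8, 97, 28, 88, 76, 57, 37, 15, 41, 57,
    59, 29, 48, 99, 65, 52, 53, 48, 46, 28, 31, 6, 17, 26, 98, 26, 15, 61, 40, 80, 45, 74, 11, 4,
    47, 30, 79, 63, 7, 36, 41, 75, 15, 40, 32, 84, 89, 44, 92, 32, 39, 73, 44, 60, 67, 41, 61,
    34, 98, 100, 92, 70, 4, 55, 56, 4, 27, 13, 77, 4, 95, 94, 84, 33, 16, 79, 55, 99, 29, 4, 61,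
    5, 10, 31, 85, 32, 82, 34, 52, 65, 62, 98, 50, 56, 19, 71, 75, 59, 25, 23, 88, 98, 52, 40,
    68, 22, 67, 24, 7, 73, 67, 41, 27, 83, 26, 64, 31, 18, 83, 8, 40, 1, 23, 82, 66, 39, 66, 7,
    15, 86, 71, 21, 48, 59, 49, 96, 14, 84, 90, 10, 37, 73, 35, 7, 86, 89, 19, 55, 34, 16, 89,
    99, 61, 34, 28, 38, 73, 15, 63, 39, 13, 16, 100, 49, 93, 80, 49, 53, 33, 9, 49, 78, 91, 19,
    76, 95, 84, 93, 26, 27, 49, 15, 36, 72, 1, 6, 89, 45],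
  [
    84, 80, 2, 1, 37, 26, 93, 90, 26, 74, 27, 45, 92, 65, 87, 84, 1, 93, 55, 89, 78, 82, 56, 39,
    98, 73, 31, 48, 31, 11, 61, 25, 43, 86, 44, 34, 95, 90, 57, 55, 13, 92, 32, 96, 42, 39, 11,
    8, 86, 21, 97, 89, 74, 34, 48, 57, 26, 71, 24, 90, 95, 90, 8, 3, 72, 86, 91, 65, 98, 50, 89,
    38, 85, 42, 79, 32, 20, 100, 17, 64, 57, 12, 70, 98, 83, 66, 9, 83, 95, 23, 71, 16, 75, 95,
    18, 45, 85, 29, 27, 73, 21, 36, 92, 73, 87, 88, 40, 11, 53, 40, 75, 26, 77, 25, 100, 95, 36,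
    87, 11, 38, 67, 19, 64, 24, 60, 42, 89, 71, 35, 71, 48, 55, 54, 4, 8, 91, 29, 84, 53, 10, 38,
    20, 25, 57, 70, 18, 60, 48, 90, 8, 9, 56, 67, 75, 29, 35, 10, 40, 16, 68, 53, 84, 53, 90, 59,
    2, 8, 39, 100, 42, 7, 67, 74, 22, 18, 5, 57, 23, 14, 65, 13, 10, 34, 30, 42, 50, 86, 76, 50,
    84, 82, 16, 79, 61, 84, 51, 77, 22, 99, 26, 89, 9, 1]]

theorem Rl3 : Rl 3 = Rt.getD 0 [] := by decide +kernel

theorem Rl4 : Rl 4 = Rt.getD 1 [] := by decide +kernel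

theorem Rl5 : Rl 5 = Rt.getD 2 [] := by decide +kernel

theorem Rl6 : Rl 6 = Rt.getD 3 [] := by decide +kernel

theorem Rl7 : Rl 7 = Rt.getD 4 [] := by decide +kernel

theorem Rl8 : Rl 8 = Rt.getD 5 [] := by decide +kernel

theorem Rl9 : Rl 9 = Rt.getD 6 [] := by decide +kernel

theorem Rl10 : Rl 10 = Rt.getD 7 [] := by decide +kernel

theorem Rl11 : Rl 11 = Rt.getD 8 [] := by decide +kernel

theorem Rl12 : Rl 12 = Rt.getD 9 [] := by decide +kernel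

theorem Rl13 : Rl 13 = Rt.getD 10 [] := by decide +kernel

theorem Rl14 : Rl 14 = Rt.getD 11 [] := by decide +kernel

theorem hF : ((List.range 203).all fun e =>
    ((Rt.map (fun l => l.getD e 0)).sum + Fl.getD e 0) % 101 == 0) = true := by
  decide +kernel

set_option maxRecDepth 100000 in
/-- the inverse matrix modulo 101 -/
def Nl : List (List ℕ) := [
  [
    72, 40, 15, 39, 22, 31, 17, 18, 56, 18, 54, 22, 77, 4, 70, 44, 40, 0, 54, 44, 10, 6, 7, 83,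
    28, 64, 70, 94, 68, 52, 28, 19, 18, 64, 74, 2, 87, 5, 76, 52, 31, 33, 17, 62, 43, 38, 27, 62,
    90, 28, 55, 15, 42, 77, 58, 20, 28, 23, 35, 43, 44, 34, 92, 17, 2, 90, 34, 97, 22, 18, 39,
    83, 27, 46, 73, 42, 20, 10, 9, 56, 74, 81, 96, 11, 69, 92, 42, 85, 74, 62, 31, 54, 33, 71,
    67, 5, 81, 27, 45, 66, 61, 25],
  [
    40, 96, 87, 73, 66, 82, 1, 87, 3, 70, 84, 25, 91, 94, 86, 47, 83, 49, 25, 22, 31, 76, 98, 23,
    21, 47, 43, 90, 52, 62, 3, 35, 30, 47, 4, 45, 42, 76, 73, 34, 26, 6, 71, 51, 67, 75, 77, 20,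
    73, 15, 1, 76, 62, 98, 87, 27, 7, 31, 19, 24, 10, 32, 91, 7, 46, 57, 2, 45, 9, 71, 4, 97, 58,
    68, 42, 70, 98, 6, 83, 29, 82, 42, 30, 84, 65, 25, 95, 31, 8, 0, 98, 51, 68, 61, 44, 64, 2,
    88, 82, 71, 96, 44],
  [
    15, 87, 87, 21, 29, 85, 43, 14, 66, 53, 52, 57, 1, 78, 0, 43, 95, 11, 4, 5, 59, 37, 95, 2,
    87, 48, 25, 23, 36, 70, 90, 84, 78, 18, 33, 8, 59, 80, 78, 87, 50, 46, 100, 55, 75, 2, 19,
    85, 65, 9, 33, 57, 34, 24, 13, 12, 86, 40, 26, 95, 87, 11, 40, 3, 78, 51, 69, 88, 16, 38, 92,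
    47, 99, 52, 51, 14, 38, 28, 97, 95, 7, 73, 9, 82, 46, 55, 37, 47, 13, 98, 56, 93, 18, 66, 65,
    22, 91, 18, 98, 75, 5, 37],
  [
    39, 73, 21, 1, 65, 99, 37, 31, 42, 77, 76, 26, 49, 36, 64, 4, 90, 24, 45, 49, 65, 17, 72, 18,
    33, 7, 12, 20, 92, 54, 62, 31, 41, 31, 18, 91, 76, 41, 87, 37, 87, 21, 75, 69, 93, 71, 7, 68,
    72, 6, 9, 90, 56, 71, 42, 43, 18, 94, 33, 71, 44, 89, 16, 13, 91, 18, 75, 95, 93, 53, 34, 33,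
    87, 74, 100, 12, 33, 35, 82, 15, 87, 70, 43, 46, 16, 10, 80, 61, 29, 4, 31, 11, 56, 8, 57,
    21, 64, 9, 82, 22, 49, 43],
  [
    22, 66, 29, 65, 14, 25, 35, 25, 25, 13, 55, 81, 37, 91, 95, 50, 28, 97, 72, 74, 95, 42, 38,
    22, 27, 51, 48, 71, 90, 52, 53, 62, 84, 38, 6, 35, 92, 54, 24, 56, 71, 12, 45, 45, 31, 65,
    57, 7, 55, 18, 14, 68, 71, 47, 34, 58, 15, 44, 29, 49, 28, 52, 30, 48, 18, 70, 91, 62, 62,
    47, 72, 3, 74, 10, 15, 64, 18, 27, 99, 44, 56, 70, 43, 50, 98, 94, 3, 97, 57, 25, 76, 78, 84,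
    75, 62, 26, 98, 2, 3, 75, 13, 44],
  [
    31, 82, 85, 99, 25, 44, 41, 65, 85, 82, 26, 2, 3, 5, 26, 34, 44, 34, 70, 38, 56, 73, 33, 23,
    100, 80, 27, 37, 47, 83, 94, 0, 89, 48, 81, 81, 16, 37, 90, 27, 100, 27, 97, 51, 74, 56, 70,
    68, 89, 5, 44, 25, 22, 13, 11, 19, 76, 18, 99, 8, 85, 26, 82, 80, 64, 15, 95, 85, 56, 59, 9,
    34, 30, 36, 72, 83, 61, 82, 10, 1, 68, 25, 40, 79, 48, 12, 60, 32, 9, 42, 89, 38, 37, 100,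
    32, 2, 63, 97, 51, 99, 15, 56],
  [
    17, 1, 43, 37, 35, 41, 76, 33, 32, 98, 8, 87, 1, 72, 45, 62, 21, 44, 47, 100, 6, 11, 54, 65,
    32, 0, 29, 67, 16, 14, 52, 96, 62, 13, 88, 41, 81, 42, 53, 81, 97, 26, 76, 86, 97, 76, 8, 59,
    82, 52, 10, 75, 57, 5, 53, 0, 70, 19, 32, 53, 4, 90, 26, 48, 70, 98, 12, 12, 3, 43, 77, 82,
    21, 69, 69, 39, 85, 60, 55, 64, 47, 32, 44, 81, 98, 58, 4, 40, 81, 80, 50, 97, 10, 6, 6, 68,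
    58, 76, 33, 100, 82, 9],
  [
    18, 87, 14, 31, 25, 65, 33, 59, 67, 2, 19, 36, 49, 46, 66, 12, 52, 36, 76, 8, 88, 17, 73, 42,
    68, 99, 28, 49, 2, 19, 82, 20, 99, 28, 87, 94, 32, 64, 52, 16, 99, 84, 22, 49, 93, 76, 10,
    24, 46, 24, 44, 84, 24, 68, 73, 31, 5, 94, 57, 95, 33, 90, 90, 78, 46, 99, 100, 65, 11, 86,
    95, 95, 74, 38, 38, 45, 35, 30, 22, 51, 96, 63, 31, 34, 9, 68, 13, 32, 23, 98, 60, 27, 72,
    48, 79, 72, 78, 86, 12, 27, 57, 71],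
  [
    56, 3, 66, 42, 25, 85, 32, 67, 5, 91, 3, 63, 36, 31, 12, 32, 76, 100, 81, 44, 47, 54, 75, 24,
    79, 48, 51, 54, 29, 12, 32, 60, 37, 5, 43, 1, 40, 26, 25, 97, 17, 85, 79, 15, 97, 87, 54,
    100, 47, 50, 47, 5, 63, 26, 34, 27, 5, 98, 8, 67, 37, 80, 12, 75, 17, 67, 21, 83, 35, 70, 29,
    74, 42, 45, 29, 21, 49, 45, 16, 41, 37, 71, 90, 1, 61, 0, 8, 50, 33, 48, 99, 28, 12, 82, 1,
    73, 7, 49, 100, 90, 19, 83],
  [
    18, 70, 53, 77, 13, 82, 98, 2, 91, 22, 86, 31, 60, 82, 54, 85, 27, 21, 4, 15, 11, 71, 75, 91,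
    26, 24, 71, 18, 43, 30, 59, 64, 30, 69, 32, 33, 21, 5, 45, 47, 79, 17, 55, 46, 61, 74, 71,
    70, 28, 61, 21, 7, 82, 4, 94, 14, 97, 70, 43, 29, 20, 65, 90, 9, 36, 38, 19, 24, 76, 38, 81,
    45, 81, 88, 32, 77, 11, 41, 26, 81, 90, 27, 47, 96, 6, 42, 2, 86, 13, 85, 28, 12, 15, 49, 71,
    86, 31, 3, 1, 77, 85, 24],
  [
    54, 84, 52, 76, 55, 26, 8, 19, 3, 86, 85, 87, 67, 3, 7, 33, 2, 28, 74, 94, 61, 32, 96, 54,
    94, 37, 43, 22, 71, 84, 65, 16, 6, 98, 90, 83, 37, 100, 55, 71, 28, 87, 8, 38, 24, 97, 93,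
    36, 27, 16, 53, 3, 33, 42, 88, 39, 71, 93, 4, 84, 38, 45, 80, 98, 49, 30, 46, 63, 0, 85, 25,
    52, 85, 57, 72, 31, 81, 9, 10, 13, 8, 66, 71, 55, 62, 25, 96, 3, 27, 71, 61, 58, 83, 93, 50,
    6, 4, 31, 71, 56, 31, 84],
  [
    22, 25, 57, 26, 81, 2, 87, 36, 63, 31, 87, 82, 30, 44, 94, 90, 53, 45, 8, 77, 73, 50, 48, 30,
    62, 52, 89, 29, 3, 85, 36, 8, 57, 96, 32, 15, 36, 3, 69, 50, 27, 5, 75, 72, 20, 57, 24, 67,
    48, 55, 77, 54, 3, 4, 87, 39, 12, 85, 5, 0, 34, 45, 35, 83, 57, 11, 27, 74, 6, 84, 77, 52,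
    68, 9, 100, 15, 69, 30, 76, 13, 90, 87, 96, 75, 80, 91, 8, 45, 79, 4, 11, 50, 96, 4, 0, 15,
    94, 80, 4, 49, 23, 76],
  [
    77, 91, 1, 49, 37, 3, 1, 49, 36, 60, 67, 30, 28, 93, 58, 28, 74, 71, 12, 86, 34, 65, 20, 11,
    17, 30, 78, 72, 78, 11, 57, 17, 93, 84, 41, 19, 7, 67, 58, 29, 0, 59, 73, 56, 38, 10, 49, 77,
    58, 85, 67, 13, 55, 37, 20, 57, 33, 26, 46, 87, 47, 30, 43, 68, 100, 85, 5, 41, 27, 10, 42,
    82, 49, 84, 6, 8, 4, 29, 53, 69, 65, 37, 80, 28, 40, 44, 84, 1, 69, 94, 69, 90, 69, 27, 22,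
    84, 100, 17, 92, 12, 66, 82],
  [
    4, 94, 78, 36, 91, 5, 72, 46, 31, 82, 3, 44, 93, 62, 22, 69, 96, 81, 86, 61, 53, 15, 27, 32,
    61, 42, 97, 16, 13, 67, 39, 77, 82, 40, 72, 27, 80, 73, 48, 54, 87, 41, 3, 53, 62, 46, 52,
    99, 37, 97, 48, 55, 67, 2, 74, 26, 48, 49, 99, 48, 69, 64, 50, 82, 72, 99, 40, 41, 79, 18,
    57, 39, 60, 11, 25, 46, 26, 84, 87, 46, 23, 38, 74, 68, 58, 29, 90, 69, 31, 97, 0, 23, 26,
    35, 70, 87, 100, 24, 7, 25, 73, 94],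
  [
    70, 86, 0, 64, 95, 26, 45, 66, 12, 54, 7, 94, 58, 22, 48, 20, 33, 24, 70, 39, 86, 12, 81, 5,
    92, 80, 74, 39, 78, 46, 78, 71, 77, 66, 81, 77, 18, 80, 13, 53, 92, 98, 31, 53, 95, 42, 74,
    91, 19, 14, 92, 19, 4, 73, 16, 2, 50, 35, 35, 76, 48, 69, 33, 61, 51, 73, 30, 76, 27, 64, 16,
    25, 70, 15, 89, 26, 71, 33, 95, 86, 19, 44, 9, 72, 55, 64, 78, 62, 2, 73, 60, 9, 7, 46, 50,
    2, 91, 6, 67, 74, 72, 39],
  [
    44, 47, 43, 4, 50, 34, 62, 12, 32, 85, 33, 90, 28, 69, 20, 45, 0, 96, 76, 72, 95, 52, 66, 78,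
    92, 62, 58, 67, 40, 19, 84, 60, 0, 9, 47, 77, 54, 69, 88, 73, 17, 74, 35, 61, 90, 48, 73, 27,
    81, 48, 21, 76, 76, 24, 81, 57, 48, 71, 7, 68, 20, 39, 40, 74, 1, 70, 62, 4, 34, 31, 4, 70,
    53, 4, 76, 39, 62, 61, 6, 52, 100, 86, 99, 80, 48, 5, 36, 6, 11, 47, 87, 94, 7, 28, 85, 94,
    13, 65, 10, 32, 50, 31],
  [
    40, 83, 95, 90, 28, 44, 21, 52, 76, 27, 2, 53, 74, 96, 33, 0, 25, 0, 86, 70, 13, 15, 43, 43,
    33, 77, 15, 92, 18, 38, 98, 38, 51, 86, 57, 59, 6, 30, 56, 25, 12, 91, 41, 58, 91, 79, 63,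
    35, 92, 78, 13, 35, 36, 18, 39, 23, 8, 43, 85, 5, 93, 87, 71, 1, 85, 14, 24, 26, 43, 19, 53,
    33, 55, 32, 81, 52, 96, 6, 55, 39, 71, 96, 43, 7, 87, 84, 95, 48, 4, 48, 80, 38, 44, 59, 51,
    40, 18, 7, 36, 2, 39, 96],
  [
    0, 49, 11, 24, 97, 34, 44, 36, 100, 21, 28, 45, 71, 81, 24, 96, 0, 72, 0, 98, 37, 66, 11, 65,
    4, 7, 98, 93, 55, 85, 81, 68, 66, 58, 73, 0, 19, 32, 22, 94, 64, 74, 42, 38, 75, 15, 8, 63,
    75, 9, 55, 39, 37, 44, 13, 91, 86, 24, 93, 73, 51, 63, 9, 78, 63, 20, 21, 66, 70, 36, 69, 95,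
    37, 28, 45, 95, 15, 39, 31, 60, 87, 8, 64, 56, 61, 30, 36, 21, 87, 39, 73, 17, 74, 57, 70, 7,
    33, 47, 53, 33, 2, 84],
  [
    54, 25, 4, 45, 72, 70, 47, 76, 81, 4, 74, 8, 12, 86, 70, 76, 86, 0, 26, 12, 19, 3, 22, 28,
    37, 80, 67, 98, 28, 79, 98, 7, 34, 55, 36, 50, 17, 49, 60, 62, 100, 99, 49, 26, 25, 92, 27,
    26, 91, 85, 33, 17, 89, 45, 81, 93, 54, 96, 60, 61, 38, 31, 90, 74, 51, 2, 88, 8, 74, 45, 43,
    61, 93, 51, 65, 60, 46, 85, 48, 46, 44, 57, 29, 80, 39, 48, 66, 41, 75, 24, 43, 2, 13, 9, 86,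
    60, 40, 17, 74, 15, 70, 34],
  [
    44, 22, 5, 49, 74, 38, 100, 8, 44, 15, 94, 77, 86, 61, 39, 72, 70, 98, 12, 34, 30, 8, 93, 79,
    86, 47, 67, 16, 24, 25, 8, 70, 9, 13, 57, 73, 45, 1, 95, 29, 36, 20, 19, 67, 76, 59, 57, 24,
    92, 16, 14, 89, 28, 71, 80, 95, 97, 28, 34, 61, 19, 68, 64, 41, 6, 28, 86, 93, 16, 97, 92,
    65, 4, 79, 47, 2, 16, 54, 56, 11, 38, 73, 27, 77, 67, 13, 68, 75, 90, 81, 53, 66, 87, 82, 41,
    44, 7, 25, 1, 36, 29, 41],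
  [
    10, 31, 59, 65, 95, 56, 6, 88, 47, 11, 61, 73, 34, 53, 86, 95, 13, 37, 19, 30, 16, 50, 87,
    13, 89, 3, 91, 33, 81, 65, 78, 5, 79, 13, 17, 19, 54, 10, 46, 46, 33, 18, 36, 93, 92, 80, 96,
    95, 79, 41, 32, 7, 38, 86, 87, 65, 36, 67, 91, 95, 46, 89, 26, 96, 12, 57, 91, 70, 71, 30,
    100, 61, 65, 98, 74, 62, 82, 2, 26, 18, 22, 31, 67, 7, 86, 3, 18, 72, 2, 63, 26, 89, 41, 76,
    23, 7, 86, 34, 100, 69, 63, 62],
  [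
    6, 76, 37, 17, 42, 73, 11, 17, 54, 71, 32, 50, 65, 15, 12, 52, 15, 66, 3, 8, 50, 44, 87, 16,
    35, 74, 97, 43, 47, 31, 66, 93, 89, 78, 2, 11, 20, 12, 59, 35, 75, 16, 14, 80, 20, 53, 33,
    73, 16, 56, 7, 81, 2, 56, 71, 71, 27, 53, 22, 83, 76, 76, 7, 11, 53, 91, 45, 84, 66, 0, 94,
    95, 44, 91, 10, 94, 69, 67, 6, 44, 84, 44, 24, 52, 30, 37, 56, 10, 27, 17, 10, 50, 1, 41, 13,
    30, 1, 98, 57, 5, 10, 83],
  [
    7, 98, 95, 72, 38, 33, 54, 73, 75, 75, 96, 48, 20, 27, 81, 66, 43, 11, 22, 93, 87, 87, 40,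
    35, 52, 59, 39, 85, 50, 19, 48, 68, 100, 31, 16, 23, 79, 50, 6, 17, 32, 53, 35, 37, 10, 9,
    61, 77, 24, 61, 65, 62, 65, 30, 21, 33, 8, 88, 18, 71, 15, 62, 30, 75, 77, 28, 94, 97, 96,
    71, 30, 25, 3, 16, 3, 75, 72, 13, 25, 35, 91, 5, 71, 67, 57, 59, 80, 64, 51, 49, 45, 77, 47,
    16, 49, 100, 73, 81, 60, 57, 1, 26],
  [
    83, 23, 2, 18, 22, 23, 65, 42, 24, 91, 54, 30, 11, 32, 5, 78, 43, 65, 28, 79, 13, 16, 35, 23,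
    56, 8, 36, 55, 89, 4, 55, 50, 52, 80, 19, 24, 100, 26, 100, 93, 15, 100, 68, 68, 73, 83, 56,
    66, 34, 16, 59, 75, 24, 86, 12, 36, 75, 3, 74, 56, 0, 76, 49, 1, 71, 34, 40, 64, 95, 49, 12,
    36, 41, 28, 64, 12, 23, 10, 61, 96, 50, 11, 25, 73, 42, 69, 45, 74, 62, 95, 65, 88, 93, 21,
    73, 17, 14, 81, 59, 78, 23, 65],
  [
    28, 21, 87, 33, 27, 100, 32, 68, 79, 26, 94, 62, 17, 61, 92, 92, 33, 4, 37, 86, 89, 35, 52,
    56, 74, 49, 67, 76, 48, 95, 84, 14, 14, 33, 9, 91, 27, 26, 79, 88, 52, 52, 1, 22, 10, 27, 1,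
    53, 11, 99, 22, 46, 59, 34, 85, 57, 37, 78, 49, 15, 57, 86, 45, 5, 76, 91, 34, 2, 64, 81, 29,
    98, 90, 46, 83, 5, 96, 40, 52, 96, 72, 82, 16, 32, 9, 36, 66, 52, 94, 49, 2, 67, 3, 64, 61,
    20, 55, 88, 14, 84, 8, 23],
  [
    64, 47, 48, 7, 51, 80, 0, 99, 48, 24, 37, 52, 30, 42, 80, 62, 77, 7, 80, 47, 3, 74, 59, 8,
    49, 57, 11, 65, 29, 89, 75, 53, 67, 76, 49, 82, 18, 89, 63, 73, 72, 1, 9, 81, 85, 62, 96, 18,
    44, 40, 72, 91, 28, 75, 70, 71, 38, 71, 42, 23, 30, 56, 27, 39, 33, 49, 5, 93, 71, 55, 5, 70,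
    71, 44, 50, 76, 2, 54, 74, 15, 34, 56, 35, 20, 12, 47, 95, 6, 75, 41, 90, 17, 11, 66, 85, 64,
    100, 23, 68, 99, 66, 11],
  [
    70, 43, 25, 12, 48, 27, 29, 28, 51, 71, 43, 89, 78, 97, 74, 58, 15, 98, 67, 67, 91, 97, 39,
    36, 67, 11, 28, 87, 49, 4, 87, 98, 88, 23, 99, 29, 8, 66, 43, 52, 65, 28, 79, 53, 44, 47, 61,
    10, 33, 51, 33, 56, 33, 53, 6, 94, 4, 50, 90, 47, 88, 21, 50, 5, 47, 57, 11, 6, 40, 42, 95,
    91, 17, 35, 39, 29, 32, 10, 4, 68, 16, 76, 90, 5, 24, 70, 76, 99, 98, 57, 59, 19, 36, 28, 85,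
    43, 0, 91, 28, 9, 95, 99],
  [
    94, 90, 23, 20, 71, 37, 67, 49, 54, 18, 22, 29, 72, 16, 39, 67, 92, 93, 98, 16, 33, 43, 85,
    55, 76, 65, 87, 50, 69, 11, 63, 24, 56, 76, 2, 78, 64, 76, 0, 29, 67, 51, 78, 48, 79, 42, 90,
    79, 7, 42, 7, 36, 85, 84, 88, 20, 15, 0, 19, 92, 12, 41, 86, 12, 97, 41, 78, 96, 32, 7, 32,
    19, 70, 5, 26, 29, 48, 25, 88, 54, 34, 57, 55, 59, 80, 4, 1, 14, 99, 84, 15, 16, 19, 100, 40,
    81, 89, 23, 41, 14, 92, 17],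
  [
    68, 52, 36, 92, 90, 47, 16, 2, 29, 43, 71, 3, 78, 13, 78, 40, 18, 55, 28, 24, 81, 47, 50, 89,
    48, 29, 49, 69, 80, 41, 17, 78, 71, 51, 58, 31, 36, 63, 36, 41, 38, 76, 77, 20, 5, 12, 23,
    65, 48, 36, 43, 21, 60, 69, 14, 16, 94, 32, 64, 99, 86, 59, 30, 31, 11, 16, 71, 38, 25, 29,
    33, 21, 4, 98, 60, 78, 44, 67, 36, 90, 89, 86, 18, 85, 15, 4, 3, 73, 47, 65, 78, 26, 86, 75,
    89, 26, 61, 44, 52, 40, 63, 47],
  [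
    52, 62, 70, 54, 52, 83, 14, 19, 12, 30, 84, 85, 11, 67, 46, 19, 38, 85, 79, 25, 65, 31, 19,
    4, 95, 89, 4, 11, 41, 94, 18, 59, 75, 83, 89, 30, 25, 36, 44, 24, 75, 61, 79, 35, 45, 1, 96,
    38, 28, 95, 19, 36, 38, 63, 40, 65, 73, 49, 9, 11, 70, 7, 56, 55, 53, 31, 10, 86, 71, 52, 53,
    14, 42, 16, 78, 80, 94, 50, 65, 97, 14, 68, 30, 46, 29, 15, 60, 12, 14, 88, 90, 2, 89, 16,
    46, 73, 26, 87, 100, 50, 86, 64],
  [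
    28, 3, 90, 62, 53, 94, 52, 82, 32, 59, 65, 36, 57, 39, 78, 84, 98, 81, 98, 8, 78, 66, 48, 55,
    84, 75, 87, 63, 17, 18, 23, 25, 78, 0, 47, 33, 2, 22, 65, 47, 89, 19, 98, 72, 83, 51, 95, 66,
    85, 33, 42, 19, 66, 69, 86, 46, 13, 71, 8, 10, 25, 92, 65, 57, 60, 29, 35, 39, 80, 62, 76,
    73, 54, 19, 82, 71, 48, 2, 87, 28, 45, 79, 20, 15, 5, 66, 5, 41, 87, 72, 50, 26, 74, 39, 5,
    31, 84, 65, 88, 34, 50, 34],
  [
    19, 35, 84, 31, 62, 0, 96, 20, 60, 64, 16, 8, 17, 77, 71, 60, 38, 68, 7, 70, 5, 93, 68, 50,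
    14, 53, 98, 24, 78, 59, 25, 72, 2, 90, 39, 31, 95, 10, 44, 40, 40, 73, 40, 55, 55, 66, 61,
    94, 20, 100, 37, 4, 22, 85, 12, 90, 71, 34, 87, 38, 70, 38, 95, 4, 46, 92, 4, 60, 69, 70, 79,
    66, 97, 51, 76, 88, 7, 60, 91, 68, 79, 17, 83, 75, 54, 2, 43, 5, 45, 91, 50, 93, 62, 97, 33,
    28, 34, 49, 39, 91, 92, 90],
  [
    18, 30, 78, 41, 84, 89, 62, 99, 37, 30, 6, 57, 93, 82, 77, 0, 51, 66, 34, 9, 79, 89, 100, 52,
    14, 67, 88, 56, 71, 75, 78, 2, 88, 35, 87, 61, 89, 33, 29, 72, 47, 77, 73, 6, 13, 17, 100,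
    43, 78, 3, 28, 12, 8, 17, 0, 59, 40, 23, 22, 70, 83, 1, 100, 91, 21, 80, 76, 69, 47, 86, 64,
    58, 52, 54, 89, 72, 28, 64, 73, 2, 4, 37, 84, 75, 88, 21, 37, 22, 20, 37, 51, 54, 80, 89, 87,
    62, 85, 58, 86, 51, 27, 52],
  [
    64, 47, 18, 31, 38, 48, 13, 28, 5, 69, 98, 96, 84, 40, 66, 9, 86, 58, 55, 13, 13, 78, 31, 80,
    33, 76, 23, 76, 51, 83, 0, 90, 35, 74, 74, 57, 16, 51, 43, 19, 45, 69, 78, 5, 67, 57, 9, 0,
    82, 20, 99, 32, 92, 66, 33, 52, 21, 1, 16, 45, 27, 73, 80, 92, 98, 99, 8, 20, 24, 30, 23, 61,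
    95, 73, 70, 94, 73, 91, 13, 22, 75, 33, 83, 24, 30, 79, 78, 55, 36, 8, 60, 9, 87, 4, 8, 27,
    90, 59, 51, 27, 20, 20],
  [
    74, 4, 33, 18, 6, 81, 88, 87, 43, 32, 90, 32, 41, 72, 81, 47, 57, 73, 36, 57, 17, 2, 16, 19,
    9, 49, 99, 2, 58, 89, 47, 39, 87, 74, 22, 72, 59, 7, 83, 84, 73, 82, 32, 16, 47, 7, 95, 29,
    18, 1, 50, 3, 60, 82, 80, 22, 59, 87, 41, 52, 85, 31, 52, 99, 41, 65, 97, 71, 5, 61, 4, 13,
    98, 80, 33, 35, 14, 73, 62, 56, 42, 78, 32, 18, 43, 2, 60, 3, 13, 8, 92, 98, 60, 84, 91, 95,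
    91, 25, 9, 34, 12, 5],
  [
    2, 45, 8, 91, 35, 81, 41, 94, 1, 33, 83, 15, 19, 27, 77, 77, 59, 0, 50, 73, 19, 11, 23, 24,
    91, 82, 29, 78, 31, 30, 33, 31, 61, 57, 72, 27, 37, 52, 67, 55, 1, 31, 36, 3, 30, 3, 10, 79,
    70, 53, 46, 30, 57, 32, 64, 49, 81, 11, 46, 38, 50, 96, 21, 12, 59, 48, 65, 54, 82, 42, 71,
    47, 100, 35, 47, 53, 17, 39, 33, 98, 91, 50, 4, 2, 6, 54, 57, 45, 29, 50, 61, 77, 80, 52, 21,
    79, 70, 30, 52, 99, 37, 81],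
  [
    87, 42, 59, 76, 92, 16, 81, 32, 40, 21, 37, 36, 7, 80, 18, 54, 6, 19, 17, 45, 54, 20, 79,
    100, 27, 18, 8, 64, 36, 25, 2, 95, 89, 16, 59, 37, 14, 11, 41, 23, 4, 83, 30, 72, 85, 84, 11,
    93, 31, 50, 14, 19, 14, 96, 37, 73, 83, 6, 83, 10, 20, 56, 6, 41, 76, 48, 74, 27, 63, 88, 90,
    69, 9, 26, 3, 99, 98, 64, 3, 13, 96, 75, 95, 97, 43, 12, 81, 83, 58, 43, 43, 11, 88, 37, 35,
    50, 99, 97, 78, 87, 40, 13],
  [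
    5, 76, 80, 41, 54, 37, 42, 64, 26, 5, 100, 3, 67, 73, 80, 69, 30, 32, 49, 1, 10, 12, 50, 26,
    26, 89, 66, 76, 63, 36, 22, 10, 33, 51, 7, 52, 11, 23, 50, 30, 53, 25, 4, 60, 24, 13, 72, 38,
    96, 13, 65, 60, 10, 64, 47, 14, 34, 93, 57, 6, 10, 3, 13, 20, 92, 85, 28, 69, 56, 10, 4, 86,
    14, 14, 18, 19, 31, 77, 41, 90, 48, 26, 58, 19, 87, 23, 23, 83, 80, 34, 30, 82, 8, 60, 15,
    31, 42, 74, 79, 35, 45, 81],
  [
    76, 73, 78, 87, 24, 90, 53, 52, 25, 45, 55, 69, 58, 48, 13, 88, 56, 22, 60, 95, 46, 59, 6,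
    100, 79, 63, 43, 0, 36, 44, 65, 44, 29, 43, 83, 67, 41, 50, 2, 49, 68, 86, 48, 47, 8, 8, 18,
    21, 54, 51, 45, 32, 84, 61, 93, 69, 47, 96, 38, 3, 35, 93, 56, 18, 9, 31, 61, 59, 22, 96, 23,
    89, 99, 92, 19, 99, 27, 45, 54, 7, 92, 29, 61, 67, 59, 12, 36, 70, 5, 4, 57, 85, 64, 23, 80,
    31, 40, 89, 81, 99, 20, 76],
  [
    52, 34, 87, 37, 56, 27, 81, 16, 97, 47, 71, 50, 29, 54, 53, 73, 25, 94, 62, 29, 46, 35, 17,
    93, 88, 73, 52, 29, 41, 24, 47, 40, 72, 19, 84, 55, 23, 30, 49, 56, 85, 45, 81, 18, 92, 66,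
    50, 49, 47, 90, 11, 58, 75, 30, 19, 85, 99, 93, 39, 28, 38, 8, 30, 50, 99, 45, 47, 25, 38,
    88, 77, 7, 0, 48, 23, 3, 3, 90, 96, 45, 73, 94, 31, 59, 77, 81, 15, 26, 18, 9, 20, 42, 6, 74,
    40, 22, 46, 61, 20, 59, 56, 63],
  [
    31, 26, 50, 87, 71, 100, 97, 99, 17, 79, 28, 27, 0, 87, 92, 17, 12, 64, 100, 36, 33, 75, 32,
    15, 52, 72, 65, 67, 38, 75, 89, 40, 47, 45, 73, 1, 4, 53, 68, 85, 12, 31, 28, 98, 8, 41, 4,
    64, 43, 9, 47, 33, 9, 4, 44, 75, 41, 59, 5, 40, 73, 61, 94, 50, 44, 29, 70, 66, 89, 18, 90,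
    99, 85, 82, 21, 57, 91, 85, 1, 55, 72, 77, 7, 100, 46, 55, 96, 83, 9, 82, 29, 42, 41, 79, 60,
    77, 55, 85, 28, 24, 43, 63],
  [
    33, 6, 46, 21, 12, 27, 26, 84, 85, 17, 87, 5, 59, 41, 98, 74, 91, 74, 99, 20, 18, 16, 53,
    100, 52, 1, 28, 51, 76, 61, 19, 73, 77, 69, 82, 31, 83, 25, 86, 45, 31, 91, 39, 82, 24, 48,
    31, 75, 75, 83, 73, 77, 90, 14, 66, 86, 38, 49, 99, 84, 83, 35, 88, 45, 86, 62, 27, 41, 85,
    41, 80, 18, 94, 64, 15, 10, 7, 61, 17, 23, 72, 80, 60, 90, 8, 85, 97, 24, 94, 82, 85, 54, 22,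
    4, 47, 65, 26, 80, 3, 93, 49, 34],
  [
    17, 71, 100, 75, 45, 97, 76, 22, 79, 55, 8, 75, 73, 3, 31, 35, 41, 42, 49, 19, 36, 14, 35,
    68, 1, 9, 79, 78, 77, 79, 98, 40, 73, 78, 32, 36, 30, 4, 48, 81, 28, 39, 27, 68, 37, 56, 86,
    58, 29, 87, 86, 70, 43, 47, 40, 42, 74, 60, 4, 79, 70, 18, 6, 46, 73, 5, 77, 29, 22, 89, 13,
    56, 61, 52, 45, 70, 9, 41, 62, 95, 9, 35, 25, 39, 100, 71, 35, 48, 91, 48, 27, 89, 75, 6, 37,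
    33, 22, 10, 2, 30, 45, 31],
  [
    62, 51, 55, 69, 45, 51, 86, 49, 15, 46, 38, 72, 56, 53, 53, 61, 58, 38, 26, 67, 93, 80, 37,
    68, 22, 81, 53, 48, 20, 35, 72, 55, 6, 5, 16, 3, 72, 60, 47, 18, 98, 82, 68, 62, 21, 0, 75,
    44, 99, 45, 50, 73, 34, 30, 66, 39, 92, 10, 90, 8, 91, 97, 66, 44, 14, 81, 43, 63, 21, 66,
    97, 91, 22, 3, 23, 38, 20, 39, 75, 4, 33, 40, 89, 18, 56, 77, 90, 59, 26, 47, 38, 22, 18, 73,
    17, 37, 8, 20, 52, 84, 71, 76],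
  [
    43, 67, 75, 93, 31, 74, 97, 93, 97, 61, 24, 20, 38, 62, 95, 90, 91, 75, 25, 76, 92, 20, 10,
    73, 10, 85, 44, 79, 5, 45, 83, 55, 13, 67, 47, 30, 85, 24, 8, 92, 8, 24, 37, 21, 23, 56, 96,
    15, 99, 91, 38, 56, 4, 47, 65, 30, 38, 84, 62, 69, 49, 33, 47, 8, 99, 50, 70, 16, 53, 44,
    100, 45, 44, 22, 86, 64, 34, 18, 1, 75, 13, 84, 77, 20, 4, 96, 91, 16, 54, 97, 34, 78, 92,
    32, 94, 91, 54, 72, 3, 33, 49, 80],
  [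
    38, 75, 2, 71, 65, 56, 76, 76, 87, 74, 97, 57, 10, 46, 42, 48, 79, 15, 92, 59, 80, 53, 9, 83,
    27, 62, 47, 42, 12, 1, 51, 66, 17, 57, 7, 3, 84, 13, 8, 66, 41, 48, 56, 0, 56, 28, 72, 21,
    69, 87, 83, 87, 59, 20, 20, 56, 80, 77, 56, 52, 29, 62, 46, 25, 65, 4, 62, 95, 48, 81, 27,
    65, 73, 21, 36, 75, 12, 5, 37, 80, 59, 50, 53, 45, 10, 48, 78, 53, 63, 34, 96, 81, 59, 52,
    34, 25, 2, 15, 9, 34, 81, 12],
  [
    27, 77, 19, 7, 57, 70, 8, 10, 54, 71, 93, 24, 49, 52, 74, 73, 63, 8, 27, 57, 96, 33, 61, 56,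
    1, 96, 61, 90, 23, 96, 95, 61, 100, 9, 95, 10, 11, 72, 18, 50, 4, 31, 86, 75, 96, 72, 53, 30,
    76, 32, 71, 95, 43, 1, 5, 97, 5, 61, 16, 1, 20, 59, 42, 3, 58, 45, 25, 60, 70, 88, 45, 49,
    43, 56, 60, 16, 83, 54, 63, 40, 4, 21, 78, 19, 13, 61, 92, 65, 74, 86, 5, 83, 20, 34, 43, 43,
    46, 67, 91, 3, 6, 29],
  [
    62, 20, 85, 68, 7, 68, 59, 24, 100, 70, 36, 67, 77, 99, 91, 27, 35, 63, 26, 24, 95, 73, 77,
    66, 53, 18, 10, 79, 65, 38, 66, 94, 43, 0, 29, 79, 93, 38, 21, 49, 64, 75, 58, 44, 15, 21,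
    30, 20, 68, 67, 32, 40, 75, 25, 89, 72, 66, 56, 31, 33, 24, 4, 20, 90, 87, 78, 72, 50, 59,
    28, 87, 73, 17, 78, 5, 93, 66, 64, 23, 47, 27, 3, 44, 50, 87, 37, 60, 57, 84, 52, 72, 66, 26,
    47, 10, 47, 66, 51, 88, 97, 85, 66],
  [
    90, 73, 65, 72, 55, 89, 82, 46, 47, 28, 27, 48, 58, 37, 19, 81, 92, 75, 91, 92, 79, 16, 24,
    34, 11, 44, 33, 7, 48, 28, 85, 20, 78, 82, 18, 70, 31, 96, 54, 47, 43, 75, 29, 99, 99, 69,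
    76, 68, 67, 36, 73, 88, 95, 44, 43, 93, 47, 92, 66, 57, 71, 7, 58, 91, 14, 25, 77, 16, 22, 3,
    99, 71, 22, 37, 77, 4, 47, 61, 79, 96, 73, 51, 11, 4, 64, 31, 84, 23, 55, 13, 19, 94, 26, 43,
    84, 45, 97, 11, 90, 68, 63, 65],
  [
    28, 15, 9, 6, 18, 5, 52, 24, 50, 61, 16, 55, 85, 97, 14, 48, 78, 9, 85, 16, 41, 56, 61, 16,
    99, 40, 51, 42, 36, 95, 33, 100, 3, 20, 1, 53, 50, 13, 51, 90, 9, 83, 87, 45, 91, 87, 32, 67,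
    36, 56, 74, 65, 100, 7, 90, 8, 4, 34, 43, 57, 0, 88, 25, 98, 95, 100, 78, 28, 79, 52, 11, 45,
    73, 42, 72, 58, 7, 69, 61, 7, 6, 57, 94, 38, 93, 81, 85, 87, 76, 93, 16, 40, 6, 70, 14, 60,
    68, 89, 22, 9, 2, 52],
  [
    55, 1, 33, 9, 14, 44, 10, 44, 47, 21, 53, 77, 67, 48, 92, 21, 13, 55, 33, 14, 32, 7, 65, 59,
    22, 72, 33, 7, 43, 19, 42, 37, 28, 99, 50, 46, 14, 65, 45, 11, 47, 73, 86, 50, 38, 83, 71,
    32, 73, 74, 34, 43, 75, 81, 27, 54, 77, 43, 11, 61, 47, 43, 32, 11, 84, 64, 38, 24, 100, 11,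
    64, 79, 28, 90, 20, 61, 47, 71, 73, 14, 48, 17, 37, 32, 92, 79, 2, 56, 57, 44, 7, 43, 3, 96,
    17, 81, 85, 93, 29, 65, 63, 31],
  [
    15, 76, 57, 90, 68, 25, 75, 84, 5, 7, 3, 54, 13, 55, 19, 76, 35, 39, 17, 89, 7, 81, 62, 75,
    46, 91, 56, 36, 21, 36, 19, 4, 12, 32, 3, 30, 19, 60, 32, 58, 33, 77, 70, 73, 56, 87, 95, 40,
    88, 65, 43, 59, 23, 8, 87, 17, 25, 4, 13, 99, 22, 4, 77, 28, 42, 38, 38, 20, 7, 19, 8, 92,
    96, 63, 78, 12, 86, 46, 49, 68, 56, 62, 75, 6, 76, 56, 69, 0, 48, 8, 63, 2, 37, 15, 13, 80,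
    63, 18, 100, 47, 48, 2],
  [
    42, 62, 34, 56, 71, 22, 57, 24, 63, 82, 33, 3, 55, 67, 4, 76, 36, 37, 89, 28, 38, 2, 65, 24,
    59, 28, 33, 85, 60, 38, 66, 22, 8, 92, 60, 57, 14, 10, 84, 75, 9, 90, 43, 34, 4, 59, 43, 75,
    95, 100, 75, 23, 65, 73, 19, 42, 66, 49, 41, 34, 68, 26, 14, 28, 84, 55, 8, 74, 39, 23, 95,
    77, 78, 37, 14, 85, 10, 17, 82, 30, 96, 76, 53, 8, 22, 15, 58, 48, 60, 96, 33, 91, 3, 68, 13,
    8, 4, 92, 88, 61, 96, 17],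
  [
    77, 98, 24, 71, 47, 13, 5, 68, 26, 4, 42, 4, 37, 2, 73, 24, 18, 44, 45, 71, 86, 56, 30, 86,
    34, 75, 53, 84, 69, 63, 69, 85, 17, 66, 82, 32, 96, 64, 61, 30, 4, 14, 47, 30, 47, 20, 1, 25,
    44, 7, 81, 8, 73, 71, 9, 78, 96, 14, 82, 19, 38, 45, 23, 61, 55, 57, 93, 60, 56, 8, 18, 73,
    37, 88, 96, 90, 22, 15, 35, 73, 92, 51, 98, 12, 1, 42, 71, 40, 21, 11, 60, 50, 10, 79, 91,
    33, 48, 64, 25, 23, 8, 94],
  [
    58, 87, 13, 42, 34, 11, 53, 73, 34, 94, 88, 87, 20, 74, 16, 81, 39, 13, 81, 80, 87, 71, 21,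
    12, 85, 70, 6, 88, 14, 40, 86, 12, 0, 33, 80, 64, 37, 47, 93, 19, 44, 66, 40, 66, 65, 20, 5,
    89, 43, 90, 27, 87, 19, 9, 1, 74, 15, 93, 30, 32, 51, 69, 75, 100, 93, 69, 84, 73, 10, 31,
    44, 91, 69, 16, 27, 83, 98, 8, 59, 31, 32, 71, 87, 46, 80, 48, 47, 33, 44, 92, 63, 75, 28,
    76, 95, 6, 61, 63, 60, 69, 14, 50],
  [
    20, 27, 12, 43, 58, 19, 0, 31, 27, 14, 39, 39, 57, 26, 2, 57, 23, 91, 93, 95, 65, 71, 33, 36,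
    57, 71, 94, 20, 16, 65, 46, 90, 59, 52, 22, 49, 73, 14, 69, 85, 75, 86, 42, 39, 30, 56, 97,
    72, 93, 8, 54, 17, 42, 78, 74, 4, 26, 18, 32, 58, 48, 82, 74, 77, 85, 30, 49, 7, 65, 39, 57,
    72, 30, 98, 81, 1, 21, 8, 57, 25, 31, 6, 87, 58, 42, 1, 16, 100, 61, 14, 83, 68, 5, 76, 41,
    16, 25, 12, 33, 42, 35, 22],
  [
    28, 7, 86, 18, 15, 76, 70, 5, 5, 97, 71, 12, 33, 48, 50, 48, 8, 86, 54, 97, 36, 27, 8, 75,
    37, 38, 4, 15, 94, 73, 13, 71, 40, 21, 59, 81, 83, 34, 47, 99, 41, 38, 74, 92, 38, 80, 5, 66,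
    47, 4, 77, 25, 66, 96, 15, 26, 42, 27, 42, 22, 3, 55, 82, 74, 15, 37, 40, 4, 34, 97, 52, 52,
    47, 55, 96, 100, 72, 3, 20, 81, 55, 10, 59, 87, 66, 35, 22, 32, 87, 50, 54, 36, 63, 81, 46,
    47, 16, 86, 12, 92, 58, 28],
  [
    23, 31, 40, 94, 44, 18, 19, 94, 98, 70, 93, 85, 26, 49, 35, 71, 43, 24, 96, 28, 67, 53, 88,
    3, 78, 71, 50, 0, 32, 49, 71, 34, 23, 1, 87, 11, 6, 93, 96, 93, 59, 49, 60, 10, 84, 77, 61,
    56, 92, 34, 43, 4, 49, 14, 93, 18, 27, 68, 99, 16, 33, 55, 11, 60, 54, 97, 70, 14, 3, 46, 58,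
    59, 32, 65, 4, 11, 8, 94, 43, 78, 10, 56, 54, 35, 23, 19, 34, 5, 23, 95, 60, 82, 3, 37, 49,
    61, 55, 74, 97, 99, 86, 90],
  [
    35, 19, 26, 33, 29, 99, 32, 57, 8, 43, 4, 5, 46, 99, 35, 7, 85, 93, 60, 34, 91, 22, 18, 74,
    49, 42, 90, 19, 64, 9, 8, 87, 22, 16, 41, 46, 83, 57, 38, 39, 5, 99, 4, 90, 62, 56, 16, 31,
    66, 43, 11, 13, 41, 82, 30, 32, 42, 99, 72, 29, 61, 33, 13, 86, 55, 8, 15, 48, 71, 58, 71,
    73, 3, 26, 88, 74, 11, 44, 24, 31, 45, 16, 45, 27, 10, 94, 47, 21, 51, 83, 8, 37, 0, 37, 87,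
    26, 13, 94, 0, 62, 81, 94],
  [
    43, 24, 95, 71, 49, 8, 53, 95, 67, 29, 84, 0, 87, 48, 76, 68, 5, 73, 61, 61, 95, 83, 71, 56,
    15, 23, 47, 92, 99, 11, 10, 38, 70, 45, 52, 38, 10, 6, 3, 28, 40, 84, 79, 8, 69, 52, 1, 33,
    57, 57, 61, 99, 34, 19, 32, 58, 22, 16, 29, 60, 36, 12, 32, 14, 49, 66, 37, 57, 82, 14, 49,
    17, 24, 49, 31, 97, 71, 89, 85, 46, 65, 71, 50, 42, 66, 68, 9, 43, 73, 15, 7, 52, 76, 32, 21,
    5, 85, 79, 96, 77, 24, 69],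
  [
    44, 10, 87, 44, 28, 85, 4, 33, 37, 20, 38, 34, 47, 69, 48, 20, 93, 51, 38, 19, 46, 76, 15, 0,
    57, 30, 88, 12, 86, 70, 25, 70, 83, 27, 85, 50, 20, 10, 35, 38, 73, 83, 70, 91, 49, 29, 20,
    24, 71, 0, 47, 22, 68, 38, 51, 48, 3, 33, 61, 36, 66, 0, 8, 2, 1, 7, 56, 82, 47, 17, 55, 58,
    30, 45, 78, 48, 91, 93, 52, 13, 15, 15, 73, 71, 50, 23, 41, 5, 51, 52, 42, 26, 52, 68, 96,
    58, 1, 38, 71, 96, 54, 22],
  [
    34, 32, 11, 89, 52, 26, 90, 90, 80, 65, 45, 45, 30, 64, 69, 39, 87, 63, 31, 68, 89, 76, 62,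
    76, 86, 56, 21, 41, 59, 7, 92, 38, 1, 73, 31, 96, 56, 3, 93, 8, 61, 35, 18, 97, 33, 62, 59,
    4, 7, 88, 43, 4, 26, 45, 69, 82, 55, 55, 33, 12, 0, 50, 33, 49, 93, 72, 97, 99, 2, 2, 62, 78,
    95, 51, 5, 57, 30, 3, 83, 23, 1, 67, 8, 46, 80, 22, 70, 25, 10, 83, 52, 81, 94, 15, 20, 54,
    89, 67, 31, 26, 24, 24],
  [
    92, 91, 40, 16, 30, 82, 26, 90, 12, 90, 80, 35, 43, 50, 33, 40, 71, 9, 90, 64, 26, 7, 30, 49,
    45, 27, 50, 86, 30, 56, 65, 95, 100, 80, 52, 21, 6, 13, 56, 30, 94, 88, 6, 66, 47, 46, 42,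
    20, 58, 25, 32, 77, 14, 23, 75, 74, 82, 11, 13, 32, 8, 33, 54, 45, 8, 51, 46, 46, 75, 36, 76,
    85, 96, 55, 0, 83, 50, 31, 18, 18, 59, 50, 48, 71, 92, 18, 3, 97, 35, 75, 21, 97, 100, 9, 2,
    15, 75, 71, 43, 22, 27, 36],
  [
    17, 7, 3, 13, 48, 80, 48, 78, 75, 9, 98, 83, 68, 82, 61, 74, 1, 78, 74, 41, 96, 11, 75, 1, 5,
    39, 5, 12, 31, 55, 57, 4, 91, 92, 99, 12, 41, 20, 18, 50, 50, 45, 46, 44, 8, 25, 3, 90, 91,
    98, 11, 28, 28, 61, 100, 77, 74, 60, 86, 14, 2, 49, 45, 39, 32, 39, 58, 58, 58, 3, 59, 30,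
    51, 81, 22, 9, 78, 60, 18, 73, 65, 22, 92, 69, 22, 27, 61, 47, 59, 86, 40, 17, 47, 42, 10,
    79, 54, 73, 100, 0, 50, 67],
  [
    2, 46, 78, 91, 18, 64, 70, 46, 17, 36, 49, 57, 100, 72, 51, 1, 85, 63, 51, 6, 12, 53, 77, 71,
    76, 33, 47, 97, 11, 53, 60, 46, 21, 98, 41, 59, 76, 92, 9, 99, 44, 86, 73, 14, 99, 65, 58,
    87, 14, 95, 84, 42, 84, 55, 93, 85, 15, 54, 55, 49, 1, 93, 8, 32, 93, 67, 29, 9, 26, 12, 90,
    80, 2, 5, 39, 42, 85, 18, 3, 7, 69, 61, 57, 36, 100, 52, 24, 71, 12, 41, 7, 98, 39, 78, 5,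
    30, 25, 69, 75, 59, 15, 83],
  [
    90, 57, 51, 18, 70, 15, 98, 99, 67, 38, 30, 11, 85, 99, 73, 70, 14, 20, 2, 28, 57, 91, 28,
    34, 91, 49, 57, 41, 16, 31, 29, 92, 80, 99, 65, 48, 48, 85, 31, 45, 29, 62, 5, 81, 50, 4, 45,
    78, 25, 100, 64, 38, 55, 57, 69, 30, 37, 97, 8, 66, 7, 72, 51, 39, 67, 65, 58, 27, 28, 57,
    82, 21, 5, 81, 81, 84, 100, 96, 89, 15, 81, 4, 98, 37, 85, 4, 24, 88, 23, 30, 34, 22, 56, 37,
    58, 36, 14, 45, 14, 50, 97, 67],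
  [
    34, 2, 69, 75, 91, 95, 12, 100, 21, 19, 46, 27, 5, 40, 30, 62, 24, 21, 88, 86, 91, 45, 94,
    40, 34, 5, 11, 78, 71, 10, 35, 4, 76, 8, 97, 65, 74, 28, 61, 47, 70, 27, 77, 43, 70, 62, 25,
    72, 77, 78, 38, 38, 8, 93, 84, 49, 40, 70, 15, 37, 56, 97, 46, 58, 29, 58, 4, 44, 78, 91, 15,
    73, 100, 32, 20, 6, 93, 54, 8, 77, 77, 93, 89, 82, 45, 94, 45, 95, 9, 54, 18, 36, 69, 18, 90,
    15, 51, 97, 43, 80, 3, 40],
  [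
    97, 45, 88, 95, 62, 85, 12, 65, 83, 24, 63, 74, 41, 41, 76, 4, 26, 66, 8, 93, 70, 84, 97, 64,
    2, 93, 6, 96, 38, 86, 39, 60, 69, 20, 71, 54, 27, 69, 59, 25, 66, 41, 29, 63, 16, 95, 60, 50,
    16, 28, 24, 20, 74, 60, 73, 7, 4, 14, 48, 57, 82, 99, 46, 58, 9, 27, 44, 92, 26, 23, 10, 56,
    27, 11, 42, 57, 49, 31, 89, 9, 34, 82, 97, 68, 25, 77, 85, 77, 56, 1, 57, 73, 98, 56, 11, 65,
    56, 33, 81, 92, 46, 72],
  [
    22, 9, 16, 93, 62, 56, 3, 11, 35, 76, 0, 6, 27, 79, 27, 34, 43, 70, 74, 16, 71, 66, 96, 95,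
    64, 71, 40, 32, 25, 71, 80, 69, 47, 24, 5, 82, 63, 56, 22, 38, 89, 85, 22, 21, 53, 48, 70,
    59, 22, 79, 100, 7, 39, 56, 10, 65, 34, 3, 71, 82, 47, 2, 75, 58, 26, 28, 78, 26, 81, 67, 83,
    99, 48, 36, 94, 30, 59, 100, 93, 13, 5, 11, 98, 95, 27, 79, 49, 13, 0, 81, 34, 4, 33, 63, 26,
    82, 52, 77, 8, 44, 64, 5],
  [
    18, 71, 38, 53, 47, 59, 43, 86, 70, 38, 85, 84, 10, 18, 64, 31, 19, 36, 45, 97, 30, 0, 71,
    49, 81, 55, 42, 7, 29, 52, 62, 70, 86, 30, 61, 42, 88, 10, 96, 88, 18, 41, 89, 66, 44, 81,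
    88, 28, 3, 52, 11, 19, 23, 8, 31, 39, 97, 46, 58, 14, 17, 2, 36, 3, 12, 57, 91, 23, 67, 81,
    11, 98, 22, 87, 77, 15, 34, 26, 35, 74, 43, 79, 9, 54, 92, 2, 69, 55, 99, 94, 62, 20, 62, 12,
    56, 32, 36, 68, 98, 22, 75, 32],
  [
    39, 4, 92, 34, 72, 9, 77, 95, 29, 81, 25, 77, 42, 57, 16, 4, 53, 69, 43, 92, 100, 94, 30, 12,
    29, 5, 95, 32, 33, 53, 76, 79, 64, 23, 4, 71, 90, 4, 23, 77, 90, 80, 13, 97, 100, 27, 45, 87,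
    99, 11, 64, 8, 95, 18, 44, 57, 52, 58, 71, 49, 55, 62, 76, 59, 90, 82, 15, 10, 83, 11, 2, 98,
    78, 2, 5, 11, 84, 27, 1, 77, 66, 10, 75, 60, 74, 94, 22, 14, 42, 80, 6, 93, 5, 51, 26, 66,
    51, 21, 6, 65, 3, 56],
  [
    83, 97, 47, 33, 3, 34, 82, 95, 74, 45, 52, 52, 82, 39, 25, 70, 33, 95, 61, 65, 61, 95, 25,
    36, 98, 70, 91, 19, 21, 14, 73, 66, 58, 61, 13, 47, 69, 86, 89, 7, 99, 18, 56, 91, 45, 65,
    49, 73, 71, 45, 79, 92, 77, 73, 91, 72, 52, 59, 73, 17, 58, 78, 85, 30, 80, 21, 73, 56, 99,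
    98, 98, 12, 76, 71, 42, 73, 91, 37, 51, 68, 23, 21, 62, 97, 12, 45, 15, 25, 59, 39, 26, 74,
    94, 74, 40, 8, 29, 0, 1, 64, 66, 19],
  [
    27, 58, 99, 87, 74, 30, 21, 74, 42, 81, 85, 68, 49, 60, 70, 53, 55, 37, 93, 4, 65, 44, 3, 41,
    90, 71, 17, 70, 4, 42, 54, 97, 52, 95, 98, 100, 9, 14, 99, 0, 85, 94, 61, 22, 44, 73, 43, 17,
    22, 73, 28, 96, 78, 37, 69, 30, 47, 32, 3, 24, 30, 95, 96, 51, 2, 5, 100, 27, 48, 22, 78, 76,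
    67, 35, 89, 4, 18, 28, 2, 78, 47, 22, 41, 20, 52, 28, 49, 32, 3, 38, 2, 37, 9, 37, 79, 34,
    79, 65, 92, 33, 71, 18],
  [
    46, 68, 52, 74, 10, 36, 69, 38, 45, 88, 57, 9, 84, 11, 15, 4, 32, 28, 51, 79, 98, 91, 16, 28,
    46, 44, 35, 5, 98, 16, 19, 51, 54, 73, 80, 35, 26, 14, 92, 48, 82, 64, 52, 3, 22, 21, 56, 78,
    37, 42, 90, 63, 37, 88, 16, 98, 55, 65, 26, 49, 45, 51, 55, 81, 5, 81, 32, 11, 36, 87, 2, 71,
    35, 50, 76, 55, 24, 96, 74, 25, 90, 83, 49, 60, 19, 82, 54, 19, 98, 60, 82, 32, 43, 6, 8, 76,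
    80, 91, 82, 89, 5, 46],
  [
    73, 42, 51, 100, 15, 72, 69, 38, 29, 32, 72, 100, 6, 25, 89, 76, 81, 45, 65, 47, 74, 10, 3,
    64, 83, 50, 39, 26, 60, 78, 82, 76, 89, 70, 33, 47, 3, 18, 19, 23, 21, 15, 45, 23, 86, 36,
    60, 5, 77, 72, 20, 78, 14, 96, 27, 81, 96, 4, 88, 31, 78, 5, 0, 22, 39, 81, 20, 42, 94, 77,
    5, 42, 89, 76, 25, 28, 47, 84, 5, 96, 100, 58, 76, 56, 99, 86, 76, 61, 11, 16, 30, 33, 19,
    61, 20, 26, 54, 37, 28, 30, 97, 6],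
  [
    42, 70, 14, 12, 64, 83, 39, 45, 21, 77, 31, 15, 8, 46, 26, 39, 52, 95, 60, 2, 62, 94, 75, 12,
    5, 76, 29, 29, 78, 80, 71, 88, 72, 94, 35, 53, 99, 19, 99, 3, 57, 10, 70, 38, 64, 75, 16, 93,
    4, 58, 61, 12, 85, 90, 83, 1, 100, 11, 74, 97, 48, 57, 83, 9, 42, 84, 6, 57, 30, 15, 11, 73,
    4, 55, 28, 50, 61, 23, 35, 67, 52, 97, 43, 9, 46, 77, 1, 67, 37, 14, 72, 12, 79, 56, 95, 55,
    86, 73, 35, 37, 85, 39],
  [
    20, 98, 38, 33, 18, 61, 85, 35, 49, 11, 81, 69, 4, 26, 71, 62, 96, 15, 46, 16, 82, 69, 72,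
    23, 96, 2, 32, 48, 44, 94, 48, 7, 28, 73, 14, 17, 98, 31, 27, 3, 91, 7, 9, 20, 34, 12, 83,
    66, 47, 7, 47, 86, 10, 22, 98, 21, 72, 8, 11, 71, 91, 30, 50, 78, 85, 100, 93, 49, 59, 34,
    84, 91, 18, 24, 47, 61, 38, 74, 26, 57, 49, 31, 46, 92, 47, 31, 10, 9, 77, 81, 47, 52, 65,
    45, 20, 67, 19, 75, 74, 45, 10, 56],
  [
    10, 6, 28, 35, 27, 82, 60, 30, 45, 41, 9, 30, 29, 84, 33, 61, 6, 39, 85, 54, 2, 67, 13, 10,
    40, 54, 10, 25, 67, 50, 2, 60, 64, 91, 73, 39, 64, 77, 45, 90, 85, 61, 41, 39, 18, 5, 54, 64,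
    61, 69, 71, 46, 17, 15, 8, 8, 3, 94, 44, 89, 93, 3, 31, 60, 18, 96, 54, 31, 100, 26, 27, 37,
    28, 96, 84, 23, 74, 41, 3, 41, 25, 33, 8, 77, 57, 78, 39, 79, 99, 58, 60, 4, 88, 55, 24, 25,
    42, 81, 73, 78, 18, 49],
  [
    9, 83, 97, 82, 99, 10, 55, 22, 16, 26, 10, 76, 53, 87, 95, 6, 55, 31, 48, 56, 26, 6, 25, 61,
    52, 74, 4, 88, 36, 65, 87, 91, 73, 13, 62, 33, 3, 41, 54, 96, 1, 17, 62, 75, 1, 37, 63, 23,
    79, 61, 73, 49, 82, 35, 59, 57, 20, 43, 24, 85, 52, 83, 18, 18, 3, 89, 8, 89, 93, 35, 1, 51,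
    2, 74, 5, 35, 26, 3, 83, 80, 25, 67, 64, 89, 14, 4, 12, 11, 62, 19, 10, 17, 77, 64, 29, 16,
    29, 31, 33, 53, 60, 31],
  [
    56, 29, 95, 15, 44, 1, 64, 51, 41, 81, 13, 13, 69, 46, 86, 52, 39, 60, 46, 11, 18, 44, 35,
    96, 96, 15, 68, 54, 90, 97, 28, 68, 2, 22, 56, 98, 13, 90, 7, 45, 55, 23, 95, 4, 75, 80, 40,
    47, 96, 7, 14, 68, 30, 73, 31, 25, 81, 78, 31, 46, 13, 23, 18, 73, 7, 15, 77, 9, 13, 74, 77,
    68, 78, 25, 96, 67, 57, 41, 80, 11, 52, 90, 68, 37, 0, 89, 47, 50, 35, 46, 74, 59, 26, 90,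
    21, 25, 48, 3, 76, 87, 17, 34],
  [
    74, 82, 7, 87, 56, 68, 47, 96, 37, 90, 8, 90, 65, 23, 19, 100, 71, 87, 44, 38, 22, 84, 91,
    50, 72, 34, 16, 34, 89, 14, 45, 79, 4, 75, 42, 91, 96, 48, 92, 73, 72, 72, 9, 33, 13, 59, 4,
    27, 73, 6, 48, 56, 96, 92, 32, 31, 55, 10, 45, 65, 15, 1, 59, 65, 69, 81, 77, 34, 5, 43, 66,
    23, 47, 90, 100, 52, 49, 25, 25, 52, 22, 64, 22, 48, 48, 52, 70, 14, 25, 69, 13, 99, 62, 6,
    93, 87, 44, 66, 42, 52, 53, 26],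
  [
    81, 42, 73, 70, 70, 25, 32, 63, 71, 27, 66, 87, 37, 38, 44, 86, 96, 8, 57, 73, 31, 44, 5, 11,
    82, 56, 76, 57, 86, 68, 79, 17, 37, 33, 78, 50, 75, 26, 29, 94, 77, 80, 35, 40, 84, 50, 21,
    3, 51, 57, 17, 62, 76, 51, 71, 6, 10, 56, 16, 71, 15, 67, 50, 22, 61, 4, 93, 82, 11, 79, 10,
    21, 22, 83, 58, 97, 31, 33, 67, 90, 64, 79, 69, 31, 78, 26, 77, 68, 77, 42, 47, 4, 74, 62,
    49, 98, 49, 76, 58, 82, 35, 7],
  [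
    96, 30, 9, 43, 43, 40, 44, 31, 90, 47, 71, 96, 80, 74, 9, 99, 43, 64, 29, 27, 67, 24, 71, 25,
    16, 35, 90, 55, 18, 30, 20, 83, 84, 83, 32, 4, 95, 58, 61, 31, 7, 60, 25, 89, 77, 53, 78, 44,
    11, 94, 37, 75, 53, 98, 87, 87, 59, 54, 45, 50, 73, 8, 48, 92, 57, 98, 89, 97, 98, 9, 75, 62,
    41, 49, 76, 43, 46, 8, 64, 68, 22, 69, 36, 40, 60, 89, 35, 4, 62, 46, 1, 59, 96, 45, 28, 21,
    96, 13, 58, 20, 19, 43],
  [
    11, 84, 82, 46, 50, 79, 81, 34, 1, 96, 55, 75, 28, 68, 72, 80, 7, 56, 80, 77, 7, 52, 67, 73,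
    32, 20, 5, 59, 85, 46, 15, 75, 75, 24, 18, 2, 97, 19, 67, 59, 100, 90, 39, 18, 20, 45, 19,
    50, 4, 38, 32, 6, 8, 12, 46, 58, 87, 35, 27, 42, 71, 46, 71, 69, 36, 37, 82, 68, 95, 54, 60,
    97, 20, 60, 56, 9, 92, 77, 89, 37, 48, 31, 40, 28, 39, 61, 82, 65, 19, 92, 66, 30, 87, 70,
    96, 65, 13, 3, 0, 57, 36, 17],
  [
    69, 65, 46, 16, 98, 48, 98, 9, 61, 6, 62, 80, 40, 58, 55, 48, 87, 61, 39, 67, 86, 30, 57, 42,
    9, 12, 24, 80, 15, 29, 5, 54, 88, 30, 43, 6, 43, 87, 59, 77, 46, 8, 100, 56, 4, 10, 13, 87,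
    64, 93, 92, 76, 22, 1, 80, 42, 66, 23, 10, 66, 50, 80, 92, 22, 100, 85, 45, 25, 27, 92, 74,
    12, 52, 19, 99, 46, 47, 57, 14, 0, 48, 78, 60, 39, 93, 42, 69, 34, 1, 75, 99, 28, 29, 34, 57,
    29, 30, 29, 15, 35, 46, 45],
  [
    92, 25, 55, 10, 94, 12, 58, 68, 0, 42, 25, 91, 44, 29, 64, 5, 84, 30, 48, 13, 3, 37, 59, 69,
    36, 47, 70, 4, 4, 15, 66, 2, 21, 79, 2, 54, 12, 23, 12, 81, 55, 85, 71, 77, 96, 48, 61, 37,
    31, 81, 79, 56, 15, 42, 48, 1, 35, 19, 94, 68, 23, 22, 18, 27, 52, 4, 94, 77, 79, 2, 94, 45,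
    28, 82, 86, 77, 31, 78, 4, 89, 52, 26, 89, 61, 42, 83, 93, 59, 51, 21, 86, 16, 94, 40, 41,
    24, 27, 100, 63, 13, 77, 81],
  [
    42, 95, 37, 80, 3, 60, 4, 13, 8, 2, 96, 8, 84, 90, 78, 36, 95, 36, 66, 68, 18, 56, 80, 45,
    66, 95, 76, 1, 3, 60, 5, 43, 37, 78, 60, 57, 81, 23, 36, 15, 96, 97, 35, 90, 91, 78, 92, 60,
    84, 85, 2, 69, 58, 71, 47, 16, 22, 34, 47, 9, 41, 70, 3, 61, 24, 24, 45, 85, 49, 69, 22, 15,
    49, 54, 76, 1, 10, 39, 12, 47, 70, 77, 35, 82, 69, 93, 34, 54, 34, 47, 8, 54, 65, 1, 63, 78,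
    97, 64, 9, 24, 22, 100],
  [
    85, 31, 47, 61, 97, 32, 40, 32, 50, 86, 3, 45, 1, 69, 62, 6, 48, 21, 41, 75, 72, 10, 64, 74,
    52, 6, 99, 14, 73, 12, 41, 5, 22, 55, 3, 45, 83, 83, 70, 26, 83, 24, 48, 59, 16, 53, 65, 57,
    23, 87, 56, 0, 48, 40, 33, 100, 32, 5, 21, 43, 5, 25, 97, 47, 71, 88, 95, 77, 13, 55, 14, 25,
    32, 19, 61, 67, 9, 79, 11, 50, 14, 68, 4, 65, 34, 59, 54, 42, 95, 29, 95, 68, 62, 30, 69, 92,
    55, 64, 86, 86, 60, 25],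
  [
    74, 8, 13, 29, 57, 9, 81, 23, 33, 13, 27, 79, 69, 31, 2, 11, 4, 87, 75, 90, 2, 27, 51, 62,
    94, 75, 98, 99, 47, 14, 87, 45, 20, 36, 13, 29, 58, 80, 5, 18, 9, 94, 91, 26, 54, 63, 74, 84,
    55, 76, 57, 48, 60, 21, 44, 61, 87, 23, 51, 73, 51, 10, 35, 59, 12, 23, 9, 56, 0, 99, 42, 59,
    3, 98, 11, 37, 77, 99, 62, 35, 25, 77, 62, 19, 1, 51, 34, 95, 88, 80, 8, 65, 63, 44, 49, 80,
    52, 7, 49, 100, 19, 29],
  [
    62, 0, 98, 4, 25, 42, 80, 98, 48, 85, 71, 4, 94, 97, 73, 47, 48, 39, 24, 81, 63, 17, 49, 95,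
    49, 41, 57, 84, 65, 88, 72, 91, 37, 8, 8, 50, 43, 34, 4, 9, 82, 82, 48, 47, 97, 34, 86, 52,
    13, 93, 44, 8, 96, 11, 92, 14, 50, 95, 83, 15, 52, 83, 75, 86, 41, 30, 54, 1, 81, 94, 80, 39,
    38, 60, 16, 14, 81, 58, 19, 46, 69, 42, 46, 92, 75, 21, 47, 29, 80, 3, 97, 21, 32, 54, 2,
    100, 14, 91, 52, 90, 86, 78],
  [
    31, 98, 56, 31, 76, 89, 50, 60, 99, 28, 61, 11, 69, 0, 60, 87, 80, 73, 43, 53, 26, 10, 45,
    65, 2, 90, 59, 15, 78, 90, 50, 50, 51, 60, 92, 61, 43, 30, 57, 20, 29, 85, 27, 38, 34, 96, 5,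
    72, 19, 16, 7, 63, 33, 60, 63, 83, 54, 60, 8, 7, 42, 52, 21, 40, 7, 34, 18, 57, 34, 62, 6,
    26, 2, 82, 30, 72, 47, 60, 10, 74, 13, 47, 1, 66, 99, 86, 8, 95, 8, 97, 54, 96, 53, 26, 46,
    45, 30, 74, 46, 8, 63, 22],
  [
    54, 51, 93, 11, 78, 38, 97, 27, 28, 12, 58, 50, 90, 23, 9, 94, 38, 17, 2, 66, 89, 50, 77, 88,
    67, 17, 19, 16, 26, 2, 26, 93, 54, 9, 98, 77, 11, 82, 85, 42, 42, 54, 89, 22, 78, 81, 83, 66,
    94, 40, 43, 2, 91, 50, 75, 68, 36, 82, 37, 52, 26, 81, 97, 17, 98, 22, 36, 73, 4, 20, 93, 74,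
    37, 32, 33, 12, 52, 4, 17, 59, 99, 4, 59, 30, 28, 16, 54, 68, 65, 21, 96, 53, 34, 87, 98, 7,
    46, 41, 94, 41, 70, 71],
  [
    33, 68, 18, 56, 84, 37, 10, 72, 12, 15, 83, 96, 69, 26, 7, 7, 44, 74, 13, 87, 41, 1, 47, 93,
    3, 11, 36, 19, 86, 89, 74, 62, 80, 87, 60, 80, 88, 8, 64, 6, 41, 22, 75, 18, 92, 59, 20, 26,
    26, 6, 3, 37, 3, 10, 28, 5, 63, 3, 0, 76, 52, 94, 100, 47, 39, 56, 69, 98, 33, 62, 5, 94, 9,
    43, 19, 79, 65, 88, 77, 26, 62, 74, 96, 87, 29, 94, 65, 62, 63, 32, 53, 34, 26, 0, 70, 32, 2,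
    69, 67, 61, 8, 52],
  [
    71, 61, 66, 8, 75, 100, 6, 48, 82, 49, 93, 4, 27, 35, 46, 28, 59, 57, 9, 82, 76, 41, 16, 21,
    64, 66, 28, 100, 75, 16, 39, 97, 89, 4, 84, 52, 37, 60, 23, 74, 79, 4, 6, 73, 32, 52, 34, 47,
    43, 70, 96, 15, 68, 79, 76, 76, 81, 37, 37, 32, 68, 15, 9, 42, 78, 37, 18, 56, 63, 12, 51,
    74, 37, 6, 61, 56, 45, 55, 64, 90, 6, 62, 45, 70, 34, 40, 1, 30, 44, 54, 26, 87, 0, 66, 19,
    87, 2, 71, 66, 49, 45, 17],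
  [
    67, 44, 65, 57, 62, 32, 6, 79, 1, 71, 50, 0, 22, 70, 50, 85, 51, 70, 86, 41, 23, 13, 49, 73,
    61, 85, 85, 40, 89, 46, 5, 33, 87, 8, 91, 21, 35, 15, 80, 40, 60, 47, 37, 17, 94, 34, 43, 10,
    84, 14, 17, 13, 13, 91, 95, 41, 46, 49, 87, 21, 96, 20, 2, 10, 5, 58, 90, 11, 26, 56, 26, 40,
    79, 8, 20, 95, 20, 24, 29, 21, 93, 49, 28, 96, 57, 41, 63, 69, 49, 2, 46, 98, 70, 19, 9, 60,
    4, 84, 4, 80, 43, 9],
  [
    5, 64, 22, 21, 26, 2, 68, 72, 73, 86, 6, 15, 84, 87, 2, 94, 40, 7, 60, 44, 7, 30, 100, 17,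
    20, 64, 43, 81, 26, 73, 31, 28, 62, 27, 95, 79, 50, 31, 31, 22, 77, 65, 33, 37, 91, 25, 43,
    47, 45, 60, 81, 80, 8, 33, 6, 16, 47, 61, 26, 5, 58, 54, 15, 79, 30, 36, 15, 65, 82, 32, 66,
    8, 34, 76, 26, 55, 67, 25, 16, 25, 87, 98, 21, 65, 29, 24, 78, 92, 80, 100, 45, 7, 32, 87,
    60, 50, 87, 35, 13, 39, 28, 26],
  [
    81, 2, 91, 64, 98, 63, 58, 78, 7, 31, 4, 94, 100, 100, 91, 13, 18, 33, 40, 7, 86, 1, 73, 14,
    55, 100, 0, 89, 61, 26, 84, 34, 85, 90, 91, 70, 99, 42, 40, 46, 55, 26, 22, 8, 54, 2, 46, 66,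
    97, 68, 85, 63, 4, 48, 61, 25, 16, 55, 13, 85, 1, 89, 75, 54, 25, 14, 51, 56, 52, 36, 51, 29,
    79, 80, 54, 86, 19, 42, 29, 48, 44, 49, 96, 13, 30, 27, 97, 55, 52, 14, 30, 46, 2, 2, 4, 87,
    58, 42, 83, 5, 79, 30],
  [
    27, 88, 18, 9, 2, 97, 76, 86, 49, 3, 31, 80, 17, 24, 6, 65, 7, 47, 17, 25, 34, 98, 81, 81,
    88, 23, 91, 23, 44, 87, 65, 49, 58, 59, 25, 30, 97, 74, 89, 61, 85, 80, 10, 20, 72, 15, 67,
    51, 11, 89, 93, 18, 92, 64, 63, 12, 86, 74, 94, 79, 38, 67, 71, 73, 69, 45, 97, 33, 77, 68,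
    21, 0, 65, 91, 37, 73, 75, 81, 31, 3, 66, 76, 13, 3, 29, 100, 64, 64, 7, 91, 74, 41, 69, 71,
    84, 35, 42, 65, 26, 29, 2, 68],
  [
    45, 82, 98, 82, 3, 51, 33, 12, 100, 1, 71, 4, 92, 7, 67, 10, 36, 53, 74, 1, 100, 57, 60, 59,
    14, 68, 28, 41, 52, 100, 88, 39, 86, 51, 9, 52, 78, 79, 81, 20, 28, 3, 2, 52, 3, 9, 91, 88,
    90, 22, 29, 100, 88, 25, 60, 33, 12, 97, 0, 96, 71, 31, 43, 100, 75, 14, 43, 81, 8, 98, 6, 1,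
    92, 82, 28, 35, 74, 73, 33, 76, 42, 58, 58, 0, 15, 63, 9, 86, 49, 52, 46, 94, 67, 66, 4, 13,
    83, 26, 46, 0, 61, 17],
  [
    66, 71, 75, 22, 75, 99, 100, 27, 90, 77, 56, 49, 12, 25, 74, 32, 2, 33, 15, 36, 69, 5, 57,
    78, 84, 99, 9, 14, 40, 50, 34, 91, 51, 27, 34, 99, 87, 35, 99, 59, 24, 93, 30, 84, 33, 34, 3,
    97, 68, 9, 65, 47, 61, 23, 69, 42, 92, 99, 62, 77, 96, 26, 22, 0, 59, 50, 80, 92, 44, 22, 65,
    64, 33, 89, 30, 37, 45, 78, 53, 87, 52, 82, 20, 57, 35, 13, 24, 86, 100, 90, 8, 41, 61, 49,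
    80, 39, 5, 29, 0, 61, 38, 50],
  [
    61, 96, 5, 49, 13, 15, 82, 57, 19, 85, 31, 23, 66, 73, 72, 50, 39, 2, 70, 29, 63, 10, 1, 23,
    8, 66, 95, 92, 63, 86, 50, 92, 27, 20, 12, 37, 40, 45, 20, 56, 43, 49, 45, 71, 49, 81, 6, 85,
    63, 2, 63, 48, 96, 8, 14, 35, 58, 86, 81, 24, 54, 24, 27, 50, 15, 97, 3, 46, 64, 75, 3, 66,
    71, 5, 97, 85, 10, 18, 60, 17, 53, 35, 19, 36, 46, 77, 22, 60, 19, 86, 63, 70, 8, 45, 43, 28,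
    79, 2, 61, 38, 0, 6],
  [
    25, 44, 37, 43, 44, 56, 9, 71, 83, 24, 84, 76, 82, 94, 39, 31, 96, 84, 34, 41, 62, 83, 26,
    65, 23, 11, 99, 17, 47, 64, 34, 90, 52, 20, 5, 81, 13, 81, 76, 63, 63, 34, 31, 76, 80, 12,
    29, 66, 65, 52, 31, 2, 17, 94, 50, 22, 28, 90, 94, 69, 22, 24, 36, 67, 83, 67, 40, 72, 5, 32,
    56, 19, 18, 46, 6, 39, 56, 49, 31, 34, 26, 7, 43, 17, 45, 81, 100, 25, 29, 78, 22, 71, 52,
    17, 9, 26, 30, 68, 17, 50, 6, 0]]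

theorem hN : ((List.range 102).all fun i => (List.range 102).all fun k =>
    (dot (Fl.drop i) (Nl.getD k [])) % 101 == if i = k then 1 else 0) = true := by
  decide +kernel

theorem hNlen : ((List.range 102).all fun k => (Nl.getD k []).length == 102) = true := by
  decide +kernel

theorem Fm_rd (e : ℕ) (he : e < 203) : Rd (Fm e) ((Fl.getD e 0 : ℕ) : ZMod 101) := by
  have h1 : Rd (∑ j ∈ Finset.Icc 3 14, ∑ i ∈ Finset.Icc 1 20, ((Nat.choose (i + 7) 8 : ℕ) : ℚ) *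
      PowerSeries.coeff (20 - i) (ser j e) * (hs (i + 8) (j - 2) + (-1) ^ (i + 1) * hs (i + 8) (15 - j)))
      (∑ j ∈ Finset.Icc 3 14, (((Rl j).getD e 0 : ℕ) : ZMod 101)) := by
    apply Rd.sum
    intro j hj
    rw [Finset.mem_Icc] at hj
    exact inner_rd j e hj.1 hj.2 he
  have h2 := h1.neg
  have h3 := List.all_eq_true.1 hF e (List.mem_range.2 he)
  have h4 : ((Rt.map (fun l => l.getD e 0)).sum + Fl.getD e 0) % 101 = 0 := by simpa using h3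
  have h5 : (((Rt.map (fun l => l.getD e 0)).sum + Fl.getD e 0 : ℕ) : ZMod 101) = 0 := by
    rw [← ZMod.natCast_mod, h4, Nat.cast_zero]
  have h6 : (∑ j ∈ Finset.Icc 3 14, (Rl j).getD e 0) = (Rt.map (fun l => l.getD e 0)).sum := by
    have e0 : (Finset.Icc 3 14 : Finset ℕ) = {3, 4, 5, 6, 7, 8, 9, 10, 11, 12, 13, 14} := by decide
    rw [e0]
    repeat rw [Finset.sum_insert (by decide)]
    rw [Finset.sum_singleton, Rl3, Rl4, Rl5, Rl6, Rl7, Rl8, Rl9, Rl10, Rl11, Rl12, Rl13, Rl14]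
    rfl
  have h7 : -(∑ j ∈ Finset.Icc 3 14, (((Rl j).getD e 0 : ℕ) : ZMod 101)) =
      ((Fl.getD e 0 : ℕ) : ZMod 101) := by
    rw [← Nat.cast_sum, h6]
    rw [Nat.cast_add] at h5
    exact neg_eq_of_add_eq_zero_right h5
  rw [h7] at h2
  exact h2

end H5

theorem H5_local : (Matrix.of fun l l' : Fin 102 => Fm (l.1 + l'.1)).det ≠ 0 := by
  have : Fact (Nat.Prime 101) := ⟨H5.prime101⟩
  let A : Matrix (Fin 102) (Fin 102) (ZMod 101) := fun i j => ((H5.Fl.getD (i.1 + j.1) 0 : ℕ) : ZMod 101)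
  let B : Matrix (Fin 102) (Fin 102) (ZMod 101) := fun j k =>
    (((H5.Nl.getD k.1 []).getD j.1 0 : ℕ) : ZMod 101)
  have hAB : A * B = 1 := by
    ext i k
    have h1 := List.all_eq_true.1 (List.all_eq_true.1 H5.hN i.1 (List.mem_range.2 i.2)) k.1
      (List.mem_range.2 k.2)
    have h2 : (H5.dot (H5.Fl.drop i.1) (H5.Nl.getD k.1 [])) % 101 = if i.1 = k.1 then 1 else 0 := by
      simpa using h1
    have h3 : (H5.Nl.getD k.1 []).length = 102 := by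
      have := List.all_eq_true.1 H5.hNlen k.1 (List.mem_range.2 k.2)
      simpa using this
    have h4 := congrArg (fun z : ℕ => (z : ZMod 101)) h2
    simp only [ZMod.natCast_mod] at h4
    rw [H5.dot_eq, h3, Nat.cast_sum] at h4
    rw [Matrix.mul_apply, ← Fin.sum_univ_eq_sum_range (fun j =>
      ((((H5.Fl.drop i.1).getD j 0 * (H5.Nl.getD k.1 []).getD j 0 : ℕ)) : ZMod 101)) 102] at *
    have h5 : ∀ j : Fin 102, A i j * B j k =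
        ((((H5.Fl.drop i.1).getD j.1 0 * (H5.Nl.getD k.1 []).getD j.1 0 : ℕ)) : ZMod 101) := by
      intro j
      have : (H5.Fl.drop i.1).getD j.1 0 = H5.Fl.getD (i.1 + j.1) 0 := by
        rw [List.getD_eq_getElem?_getD, List.getD_eq_getElem?_getD, List.getElem?_drop]
      rw [this, Nat.cast_mul]
    rw [Finset.sum_congr rfl (fun j _ => h5 j), h4]
    by_cases hik : i = k
    · subst hik; simp
    · have : i.1 ≠ k.1 := fun h => hik (Fin.ext h)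
      simp [hik, this]
  have hdet : A.det ≠ 0 := by
    intro h0
    have := congrArg Matrix.det hAB
    rw [Matrix.det_mul, h0, zero_mul, Matrix.det_one] at this
    exact zero_ne_one this
  refine H5.Rd.ne_zero (H5.Rd.det _ A ?_) hdet
  intro i j
  exact H5.Fm_rd _ (by omega)

end Pool.Agent.H343X
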