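import Pool.Agent.H343X.H6pre
import Pool.Agent.H336R2.HD.A1

/-! Task H6: non-vanishing of the determinant, from H3, H4, H5 (as hypotheses). -/

open Polynomial Pool.Agent.H337R2 Filter Topology

namespace Pool.Agent.H343X

noncomputable section

theorem H6_nonvanish_of (H3_diag : H6_H3) (H4_offdiag : H6_H4) (H5_local : H6_H5)
    (u : ℕ → ℚ) (q : ℕ) (hu : UInt q u) : ∃ p0 : ℕ, ∀ p : ℕ, p0 ≤ p → p.Prime →
    DET p u (51 * (p - 1)) ≠ 0 :=
  H6_of (fun N m _ _ _ e P hP h => H336R2.HD.A2_gram_ne N m e P hP h) H3_diag H4_offdiag H5_local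
    u q hu

end

end Pool.Agent.H343X
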